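import Pool.Agent.K6.H46.HW.Stm

set_option autoImplicit false

namespace Pool.Agent.K6.H46.HW

theorem t_ADD : S_ADD := by
  intro c c' s h h'
  have e : ∀ c : Nat.Primes → ℕ → ℕ, zetaOf c s = Complex.exp (∑' x, term c s x) := fun _ => rfl
  rw [e, e, e, ← Complex.exp_add, ← Summable.tsum_add h h']
  congr 1
  refine tsum_congr fun x => ?_
  simp only [term]
  push_cast
  ring

end Pool.Agent.K6.H46.HW
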