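import Pool.Agent.K6.H46.HW.Stm
import Pool.Agent.K6.H18.Cubic.Final2

set_option autoImplicit false

open MvPolynomial

namespace Pool.Agent.K6.H46.HW

open Pool.Agent.K6.H18.Cubic Pool.Agent.K6.H18.Cubic.Alg

theorem t_AFF : S_AFF := by
  intro T m a b h
  have h1 := T.toBorelMoore.homotopy (B := ℚ) (C := MvPolynomial (Fin m) ℚ) m (RingEquiv.refl _)
    (const ℚ ℚ m) (fun x => rfl) (smoothRel_const ℚ ℚ m) (b := b - m) (b' := b) (by ring) a
  have h2 : Subsingleton (T.toBorelMoore.H ℚ a (b - m)) := h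
  have h3 : Subsingleton (T.toBorelMoore.H (MvPolynomial (Fin m) ℚ) a b) :=
    h1.2.subsingleton
  exact h3

end Pool.Agent.K6.H46.HW
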