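import Pool.Agent.K6.H46.HW.Stm3

/-! Piece ANA of call46b (helper82): analyticity on a half-plane. -/

set_option autoImplicit false

open Filter Topology

namespace Pool.Agent.K6.H46.HW

namespace ANA

lemma norm_term (c : Nat.Primes → ℕ → ℕ) (s : ℂ) (x : Nat.Primes × ℕ) :
    ‖term c s x‖ = (c x.1 (x.2 + 1) : ℝ) *
      ((x.1 : ℕ) : ℝ) ^ (-(((x.2 + 1 : ℕ) : ℝ) * s.re)) / ((x.2 + 1 : ℕ) : ℝ) := by
  have hp0 : 0 < (x.1 : ℕ) := x.1.2.pos
  have hre : (-(((x.2 + 1 : ℕ) : ℂ) * s)).re = -(((x.2 + 1 : ℕ) : ℝ) * s.re) := by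
    rw [Complex.neg_re, Complex.mul_re, Complex.natCast_re, Complex.natCast_im, zero_mul, sub_zero]
  simp only [term, norm_div, norm_mul, Complex.norm_natCast]
  rw [Complex.norm_natCast_cpow_of_pos hp0, hre]

lemma norm_term_le (c : Nat.Primes → ℕ → ℕ) {s t : ℂ} (h : t.re ≤ s.re) (x : Nat.Primes × ℕ) :
    ‖term c s x‖ ≤ ‖term c t x‖ := by
  rw [norm_term, norm_term]
  have hp : (1 : ℝ) ≤ ((x.1 : ℕ) : ℝ) := by exact_mod_cast x.1.2.one_lt.le
  have hk : (0 : ℝ) ≤ ((x.2 + 1 : ℕ) : ℝ) := Nat.cast_nonneg _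
  gcongr

lemma differentiable_term (c : Nat.Primes → ℕ → ℕ) (x : Nat.Primes × ℕ) :
    Differentiable ℂ (fun s => term c s x) := by
  unfold term
  have hp : ((x.1 : ℕ) : ℂ) ≠ 0 := by exact_mod_cast x.1.2.ne_zero
  intro s
  refine DifferentiableAt.div_const (DifferentiableAt.const_mul ?_ _) _
  refine DifferentiableAt.const_cpow ?_ (Or.inl hp)
  fun_prop

end ANA

theorem t_ANA (h : S_BND) : S_ANA := by
  intro c m hc
  have hz : zetaOf c = fun s => Complex.exp (∑' x, term c s x) := rfl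
  rw [hz]
  apply DifferentiableOn.cexp
  intro s hs
  obtain ⟨σ₀, h1, h2⟩ := exists_between (show (m : ℝ) + 1 < s.re from hs)
  have hU : IsOpen {s : ℂ | σ₀ < s.re} := isOpen_lt continuous_const Complex.continuous_re
  have hd : DifferentiableOn ℂ (fun s => ∑' x, term c s x) {s : ℂ | σ₀ < s.re} := by
    apply Complex.differentiableOn_tsum_of_summable_norm (u := fun x => ‖term c (σ₀ : ℂ) x‖)
    · exact (h c m hc σ₀ (by simpa using h1)).norm
    · intro x
      exact (ANA.differentiable_term c x).differentiableOn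
    · exact hU
    · intro x s hs
      exact ANA.norm_term_le c (by simpa using le_of_lt (show σ₀ < s.re from hs)) x
  exact (hd.differentiableAt (hU.mem_nhds h2)).differentiableWithinAt

end Pool.Agent.K6.H46.HW
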