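import Pool.Agent.K6.H46.HW.Stm
import Pool.Agent.K6.H18.Cubic.Final2

/-!
Assembly: the zeta function of the hypersurface.
-/

set_option autoImplicit false

open MvPolynomial AlgebraicGeometry CategoryTheory

namespace Pool.Agent.K6.H46.HW

open Pool.Agent.K6.H18.Cubic Pool.Agent.K6.H18.Cubic.Alg

lemma points_congr {A B : Type} [CommRing A] [CommRing B] (σ : A ≃+* B) (F : Type) [Field F] :
    points A F = points B F :=
  Nat.card_congr
    { toFun := fun φ => φ.comp (σ.symm : B →+* A)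
      invFun := fun φ => φ.comp (σ : A →+* B)
      left_inv := fun φ => by ext x; simp
      right_inv := fun φ => by ext x; simp }

lemma zeta_congr {A B : Type} [CommRing A] [CommRing B] (σ : A ≃+* B) : zeta A = zeta B := by
  have h : count A = count B := by
    funext p n
    exact points_congr σ _
  unfold zeta
  rw [h]

lemma zetaOf_congr {c c' : Nat.Primes → ℕ → ℕ} (h : ∀ p n, 1 ≤ n → c p n = c' p n) (s : ℂ) :
    zetaOf c s = zetaOf c' s := by
  unfold zetaOf
  congr 1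
  refine tsum_congr fun x => ?_
  rw [h x.1 (x.2 + 1) (by omega)]

lemma term_congr {c c' : Nat.Primes → ℕ → ℕ} (h : ∀ p n, 1 ≤ n → c p n = c' p n) (s : ℂ) :
    term c s = term c' s := by
  funext x
  unfold term
  rw [h x.1 (x.2 + 1) (by omega)]

theorem count_hyp (hCNT : S_CNT) (m r : ℕ) (e : Fin r → MvPolynomial (Fin m) ℤ) (p : Nat.Primes)
    (n : ℕ) (hn : 1 ≤ n) :
    count (Hyp e) p n = (p : ℕ) ^ (n * (m + r)) + (p : ℕ) ^ (n * r) *
      count (MvPolynomial (Fin m) ℤ ⧸ Ideal.span (Set.range e)) p n := by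
  have : Fact (p : ℕ).Prime := ⟨p.2⟩
  have h := hCNT m r e (GaloisField p n)
  rw [GaloisField.card p n (by omega), ← pow_mul, ← pow_mul] at h
  exact h

/-- The zeta function of the hypersurface. -/
theorem zeta_hyp (hCNT : S_CNT) (hBND : S_BND) (hRZ : S_RZ) (hADD : S_ADD) (hSHI : S_SHI)
    (hCBD : S_CBD) (m r : ℕ) (e : Fin r → MvPolynomial (Fin m) ℤ) (s : ℂ)
    (hs : (m : ℝ) + r + 1 < s.re) :
    zeta (Hyp e) s = riemannZeta (s - (m + r : ℕ)) *
      zeta (MvPolynomial (Fin m) ℤ ⧸ Ideal.span (Set.range e)) (s - r) := by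
  set A := MvPolynomial (Fin m) ℤ ⧸ Ideal.span (Set.range e)
  have h1 : zeta (Hyp e) s = zetaOf (fun p n => (p : ℕ) ^ (n * (m + r)) +
      (p : ℕ) ^ (n * r) * count A p n) s :=
    zetaOf_congr (fun p n hn => count_hyp hCNT m r e p n hn) s
  have hs' : ((m + r : ℕ) : ℝ) + 1 < s.re := by push_cast; exact hs
  have h2 : Summable (term (fun p n => (p : ℕ) ^ (n * (m + r))) s) :=
    hBND _ (m + r) (fun p n _ => le_refl _) s hs'
  have h3 : Summable (term (fun p n => (p : ℕ) ^ (n * r) * count A p n) s) := by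
    refine hBND _ (m + r) (fun p n hn => ?_) s hs'
    calc (p : ℕ) ^ (n * r) * count A p n ≤ (p : ℕ) ^ (n * r) * (p : ℕ) ^ (n * m) :=
          Nat.mul_le_mul_left _ (hCBD m _ p n hn)
      _ = (p : ℕ) ^ (n * (m + r)) := by rw [← pow_add]; congr 1; ring
  rw [h1, hADD _ _ s h2 h3, hRZ (m + r) s hs', hSHI]
  rfl

/-- Everything about zeta functions. -/
theorem main_zeta (hCNT : S_CNT) (hBND : S_BND) (hRZ : S_RZ) (hADD : S_ADD) (hSHI : S_SHI)
    (hCBD : S_CBD) (hCON : S_CON) (hPRZ : S_PRZ) (A : Type) [CommRing A]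
    (hA : Algebra.FiniteType ℤ A) :
    ∃ (m r : ℕ) (e : Fin r → MvPolynomial (Fin m) ℤ), IsElementary ∅ e ∧
      IsRationalHypersurface e ∧
      (∀ (F : Type) [Field F] [Finite F],
        points (Hyp e) F = Nat.card F ^ (m + r) + Nat.card F ^ r * points A F) ∧
      (∀ s : ℂ, (m : ℝ) + r + 1 < s.re →
        zeta (Hyp e) s = riemannZeta (s - (m + r : ℕ)) * zeta A (s - r)) ∧
      (Continues (zeta A) ↔ Continues (zeta (Hyp e))) := by
  obtain ⟨m, r, e, hr, he, ⟨σ⟩⟩ := hPRZ A hA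
  have h : ∀ s : ℂ, (m : ℝ) + r + 1 < s.re →
        zeta (Hyp e) s = riemannZeta (s - (m + r : ℕ)) * zeta A (s - r) := fun s hs => by
    rw [zeta_hyp hCNT hBND hRZ hADD hSHI hCBD m r e s hs, zeta_congr σ]
  refine ⟨m, r, e, ⟨hr, he⟩, isRationalHypersurface e ⟨hr, he⟩, fun F _ _ => ?_, h, ?_⟩
  · rw [hCNT m r e F, points_congr σ]
  · exact hCON _ _ (m + r) r ((m : ℝ) + r + 1) h

end Pool.Agent.K6.H46.HW
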