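import Pool.Agent.K6.H46.HW.Defs

/-!
The `L`-functions of varieties over `ℚ` for all choices of the primes `ℓ_p`, and the question on
their continuation.
-/

set_option autoImplicit false

open MvPolynomial AlgebraicGeometry CategoryTheory

namespace Pool.Agent.K6.H46.HW

open Pool.Agent.K6.H18.Cubic Pool.Agent.K6.H18.Cubic.Alg

/-- The `ℓ`-adic theories for all prime numbers `ℓ`, with the action of `G`. The case in point: `G`
is the absolute Galois group of `ℚ`, `K ℓ = ℚ_ℓ`, `D ℓ` is `ℓ`-adic Borel-Moore homology of the
varieties over the algebraic closure of `ℚ`, `I p` is an inertia subgroup at `p` and `φ p` a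
geometric Frobenius at `p`. -/
structure LAdic (G : Type) [Group G] where
  K : Nat.Primes → Type
  [field : ∀ l, Field (K l)]
  D : ∀ l, GalBM (K l) G
  I : Nat.Primes → Subgroup G
  φ : Nat.Primes → G
  normal : ∀ p, ∀ g ∈ I p, (φ p)⁻¹ * g * φ p ∈ I p

attribute [instance] LAdic.field

namespace LAdic
variable {G : Type} [Group G] (E : LAdic G)

/-- A choice of a prime `ℓ_p ≠ p` for every prime `p`, and of embeddings of the coefficients in
`ℂ`. -/
structure Choice where
  l : Nat.Primes → Nat.Primes
  ne : ∀ p, l p ≠ p
  ι : ∀ p, E.K (l p) →+* ℂ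

/-- The inverse Euler factor of `Spec B` at `p`, in homological degree `a + 2 b` and weight `b`, for
the choice `c`: the polynomial `det (1 - φ_p X)` on the elements of `(D ℓ_p).T.H B a b` invariant
under `I p`. -/
noncomputable def euler (B : Alg ℚ) (a b : ℤ) (c : E.Choice) (p : Nat.Primes) : Polynomial ℂ :=
  ((E.D (c.l p)).factor (E.I p) (E.φ p) (E.normal p) B a b).map (c.ι p)

/-- For at least one prime `ℓ` the `G`-invariants in weight `b` and degree `2 b` are zero. For
`Spec B` smooth of pure dimension `d`: `H^(2 j) (Spec B, ℚ_ℓ(j))^G = 0`, `j = d - b`. -/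
def Star (B : Alg ℚ) (b : ℤ) : Prop :=
  ∃ l, ∀ x : (E.D l).T.H B 0 b, (∀ g, (E.D l).lin g B 0 b x = x) → x = 0

end LAdic

/-- The Euler product with the inverse Euler factors `P p`, at `s`. -/
noncomputable def eulerProduct (P : Nat.Primes → Polynomial ℂ) (s : ℂ) : ℂ :=
  ∏' p : Nat.Primes, ((P p).eval (((p : ℕ) : ℂ) ^ (-s)))⁻¹

/-- The function `f`, defined on some right half-plane, continues to an entire function. -/
def ContinuesEntire (f : ℂ → ℂ) : Prop :=
  ∃ Z : ℂ → ℂ, Differentiable ℂ Z ∧ ∃ σ : ℝ, ∀ s : ℂ, σ < s.re → f s = Z s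

/-- The inverse Euler factors and the condition `Star` for the varieties of the class `𝒱`. -/
structure Extension {G : Type} [Group G] (E : LAdic G) where
  /-- the class of varieties -/
  mem : Over (Spec (CommRingCat.of ℚ)) → Prop
  /-- the inverse Euler factors of `X` -/
  euler : Over (Spec (CommRingCat.of ℚ)) → ℤ → ℤ → E.Choice → Nat.Primes → Polynomial ℂ
  /-- the condition `Star` for `X` -/
  Star : Over (Spec (CommRingCat.of ℚ)) → ℤ → Prop
  affine_mem : ∀ B : Alg ℚ, B.IsFiniteType → mem (specOf B)
  affine : ∀ B : Alg ℚ, B.IsFiniteType →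
    (∀ a b : ℤ, euler (specOf B) a b = E.euler B a b) ∧ ∀ b : ℤ, Star (specOf B) b ↔ E.Star B b
  /-- Every variety has a torsor under a vector bundle, of some rank `s`, which is an affine variety
  `Spec B` (Jouanolou, Thomason), so that the groups of `X` are those of `Spec B` with `b` replaced
  by `b + s`. -/
  torsor : ∀ X, mem X → ∃ (B : Alg ℚ) (s : ℕ), B.IsFiniteType ∧
    (∀ a b : ℤ, euler X a b = E.euler B a (b + s)) ∧ ∀ b : ℤ, Star X b ↔ E.Star B (b + s)

namespace Extension
variable {G : Type} [Group G] {E : LAdic G} (T : Extension E)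

/-- The question (Q1 of the problem) for the variety `X` and `(a, b)`: for every choice `c` of the
primes `ℓ_p` the Euler product continues meromorphically to `ℂ`, and it continues to an entire
function if `a` is odd or if `a = 2 j` is even and `Star` holds. If `X` is smooth and projective of
dimension `d` this is the question for `M = (X, id, d - b)` and `i = -a`. -/
def Q1 (X : Over (Spec (CommRingCat.of ℚ))) (a b : ℤ) : Prop :=
  ∀ c : E.Choice, Continues (eulerProduct (T.euler X a b c)) ∧
    (Odd a ∨ (∃ j : ℤ, a = 2 * j ∧ T.Star X (b + j)) →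
      ContinuesEntire (eulerProduct (T.euler X a b c)))

end Extension

end Pool.Agent.K6.H46.HW
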