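import Pool.Agent.K6.H46.HW.Stm
import Pool.Agent.K6.H46.HW.Defs2
import Pool.Agent.K6.H18.Cubic.Final2

/-!
Assembly: the Euler factors of the hypersurface.
-/

set_option autoImplicit false

open MvPolynomial AlgebraicGeometry CategoryTheory

namespace Pool.Agent.K6.H46.HW

open Pool.Agent.K6.H18.Cubic Pool.Agent.K6.H18.Cubic.Alg

section
variable {G : Type} [Group G] (E : LAdic G)

/-- The affine case. -/
theorem exists_affine (hPRQ : S_PRQ) (hAFF : S_AFF) (hISO : S_ISO) (hFAC : S_FAC) (B : Alg ℚ)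
    (hB : B.IsFiniteType) (N s : ℕ) :
    ∃ (m r : ℕ) (e : Fin r → MvPolynomial (Fin m) ℚ), IsElementary ∅ e ∧ N + s ≤ m ∧
      (∀ a b : ℤ, a + 2 * b < 2 * N →
        E.euler B a (b + s) = E.euler (Hypersurface e) a (b + (s + r : ℕ))) ∧
      ∀ b : ℤ, b < N → (E.Star B (b + s) ↔ E.Star (Hypersurface e) (b + (s + r : ℕ))) := by
  obtain ⟨m, r, e, π, hm, hr, he, hπ, hker⟩ := hPRQ B.ring hB (N + s)
  have key : ∀ (l : Nat.Primes) (a b : ℤ), a + 2 * b < 2 * N →
      ∃ Φ : (E.D l).T.H B a (b + s) ≃+ (E.D l).T.H (Hypersurface e) a (b + (s + r : ℕ)),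
      ∀ (h : (E.D l).T.Hom (E.D l).T) (x : (E.D l).T.H B a (b + s)),
        h.mapf (Φ x) = Φ (h.mapf x) := by
    intro l a b hab
    have h0 : Subsingleton ((E.D l).T.H (base ℚ) a (b + s - m)) :=
      (E.D l).base_zero a (b + s - m) (by
        have : ((N + s : ℕ) : ℤ) ≤ m := by exact_mod_cast hm
        push_cast at this
        omega)
    have h1 := hAFF (E.D l).T m a (b + s) h0
    have h2 := hISO (E.D l).T m r e B.ring hB π hπ hker a (b + s) h1
    have h3 : b + ((s + r : ℕ) : ℤ) = b + s + r := by push_cast; ring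
    rw [h3]
    exact h2
  refine ⟨m, r, e, ⟨hr, he⟩, hm, fun a b hab => ?_, fun b hb => ?_⟩
  · funext c p
    obtain ⟨Φ, hΦ⟩ := key (c.l p) a b hab
    unfold LAdic.euler
    rw [hFAC _ _ (E.D (c.l p)) B (Hypersurface e) a (b + s) a (b + (s + r : ℕ)) Φ hΦ]
  · have h1 : ∀ l, (∀ x : (E.D l).T.H B 0 (b + s), (∀ g, (E.D l).lin g B 0 (b + s) x = x) → x = 0) ↔
        (∀ x : (E.D l).T.H (Hypersurface e) 0 (b + (s + r : ℕ)),
          (∀ g, (E.D l).lin g (Hypersurface e) 0 (b + (s + r : ℕ)) x = x) → x = 0) := by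
      intro l
      obtain ⟨Φ, hΦ⟩ := key l 0 b (by omega)
      have h2 : ∀ (g : G) (x : (E.D l).T.H B 0 (b + s)),
          (E.D l).lin g (Hypersurface e) 0 (b + (s + r : ℕ)) (Φ x) =
            Φ ((E.D l).lin g B 0 (b + s) x) := fun g x => hΦ ((E.D l).act g) x
      constructor
      · intro h y hy
        obtain ⟨x, rfl⟩ := Φ.surjective y
        have : x = 0 := h x fun g => Φ.injective (by rw [← h2, hy g])
        rw [this, map_zero]
      · intro h x hx
        have : Φ x = 0 := h (Φ x) fun g => by rw [h2, hx g]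
        exact (map_eq_zero_iff Φ Φ.injective).1 this
    unfold LAdic.Star
    exact exists_congr h1

variable {E} (T : Extension E)

/-- Every variety. -/
theorem exists_hypersurface_euler (hPRQ : S_PRQ) (hAFF : S_AFF) (hISO : S_ISO) (hFAC : S_FAC)
    (X : Over (Spec (CommRingCat.of ℚ))) (hX : T.mem X) (N : ℕ) :
    ∃ (m r n : ℕ) (e : Fin r → MvPolynomial (Fin m) ℚ), IsElementary ∅ e ∧
      IsRationalHypersurface e ∧ N + n ≤ m + r ∧
      (∀ a b : ℤ, a + 2 * b < 2 * N →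
        T.euler X a b = T.euler (specOf (Hypersurface e)) a (b + n)) ∧
      ∀ b : ℤ, b < N → (T.Star X b ↔ T.Star (specOf (Hypersurface e)) (b + n)) := by
  obtain ⟨B, s, hB, h1, h2⟩ := T.torsor X hX
  obtain ⟨m, r, e, he, hm, h3, h4⟩ := exists_affine E hPRQ hAFF hISO hFAC B hB N s
  have h5 := T.affine _ (isFiniteType_hypersurface e)
  refine ⟨m, r, s + r, e, he, isRationalHypersurface e he, by omega, fun a b hab => ?_,
    fun b hb => ?_⟩
  · rw [h1, h5.1, h3 a b hab]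
  · rw [h2, h5.2, h4 b hb]

/-- The question for `X` is that for a hypersurface. -/
theorem q1_iff {X Y : Over (Spec (CommRingCat.of ℚ))} {N n : ℕ}
    (h : ∀ a b : ℤ, a + 2 * b < 2 * N → T.euler X a b = T.euler Y a (b + n))
    (h' : ∀ b : ℤ, b < N → (T.Star X b ↔ T.Star Y (b + n))) (a b : ℤ) (hab : a + 2 * b < 2 * N) :
    T.Q1 X a b ↔ T.Q1 Y a (b + n) := by
  unfold Extension.Q1
  rw [h a b hab]
  refine forall_congr' fun c => and_congr_right fun _ => ?_
  have h1 : (∃ j : ℤ, a = 2 * j ∧ T.Star X (b + j)) ↔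
      (∃ j : ℤ, a = 2 * j ∧ T.Star Y (b + n + j)) := by
    refine exists_congr fun j => and_congr_right fun hj => ?_
    rw [h' (b + j) (by omega)]
    have : b + j + (n : ℤ) = b + n + j := by ring
    rw [this]
  rw [h1]

theorem q1_tfae (hPRQ : S_PRQ) (hAFF : S_AFF) (hISO : S_ISO) (hFAC : S_FAC) :
    List.TFAE [
      ∀ X, T.mem X → IsSmoothVariety X → ∀ a b : ℤ, T.Q1 X a b,
      ∀ X, T.mem X → ∀ a b : ℤ, T.Q1 X a b,
      ∀ (m r : ℕ) (e : Fin r → MvPolynomial (Fin m) ℚ), IsElementary ∅ e →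
        ∀ a b : ℤ, T.Q1 (specOf (Hypersurface e)) a b] := by
  tfae_have 1 → 3 := fun h m r e _ a b =>
    h _ (T.affine_mem _ (isFiniteType_hypersurface e)) (isSmoothVariety_hyp e) a b
  tfae_have 3 → 2 := by
    intro h X hX a b
    obtain ⟨N, hN⟩ : ∃ N : ℕ, a + 2 * b < 2 * N := ⟨(a + 2 * b).toNat + 1, by omega⟩
    obtain ⟨m, r, n, e, he, -, -, h1, h2⟩ :=
      exists_hypersurface_euler T hPRQ hAFF hISO hFAC X hX N
    exact (q1_iff T h1 h2 a b hN).2 (h m r e he _ _)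
  tfae_have 2 → 1 := fun h X hX _ a b => h X hX a b
  tfae_finish

end

end Pool.Agent.K6.H46.HW
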