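import Pool.Agent.K6.H46.HW.Stm

/-!
Cubic forms: the homogeneous versions of the hypersurfaces.
-/

set_option autoImplicit false

open MvPolynomial

namespace Pool.Agent.K6.H46.HW

open Pool.Agent.K6.H18.Cubic

/-- Codes for the elementary polynomials: a number `0`, `1`, `2` and three indices. -/
abbrev Code (m : ℕ) : Type := Fin 3 × Fin m × Fin m × Fin m

/-- The elementary polynomials `x_a - x_b x_c`, `x_a - (x_b + x_c)`, `x_a - 1`. -/
noncomputable def el {m : ℕ} (c : Code m) : MvPolynomial (Fin m) ℤ :=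
  if c.1 = 0 then X c.2.1 - X c.2.2.1 * X c.2.2.2
  else if c.1 = 1 then X c.2.1 - (X c.2.2.1 + X c.2.2.2)
  else X c.2.1 - 1

/-- Their homogeneous versions, of degree two, with the additional variable `z = X none`:
`x_a z - x_b x_c`, `x_a z - (x_b + x_c) z`, `x_a z - z z`. -/
noncomputable def hel {m : ℕ} (c : Code m) : MvPolynomial (Option (Fin m)) ℤ :=
  if c.1 = 0 then X (some c.2.1) * X none - X (some c.2.2.1) * X (some c.2.2.2)
  else if c.1 = 1 then X (some c.2.1) * X none - (X (some c.2.2.1) + X (some c.2.2.2)) * X none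
  else X (some c.2.1) * X none - X none * X none

/-- The cubic form `∑ u_j E_j(x, z) - w z (z - w)`, in the variables `u_j = X (inl (some j))`,
`w = X (inl none)`, `z = X (inr none)`, `x_i = X (inr (some i))`; `E_j` is the homogeneous version
of the elementary polynomial with the code `c j`. -/
noncomputable def form {m r : ℕ} (c : Fin r → Code m) :
    MvPolynomial (Option (Fin r) ⊕ Option (Fin m)) ℤ :=
  ∑ j, X (Sum.inl (some j)) * rename Sum.inr (hel (c j)) -
    X (Sum.inl none) * X (Sum.inr none) * (X (Sum.inr none) - X (Sum.inl none))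

/-- the part of degree two of the elementary polynomial, up to the sign, as a function -/
def top {m : ℕ} {F : Type} [Field F] (c : Code m) (x : Fin m → F) : F :=
  if c.1 = 0 then x c.2.2.1 * x c.2.2.2 else 0

/-- HDG -/
def S_HDG : Prop := ∀ (m r : ℕ) (c : Fin r → Code m), (form c).IsHomogeneous 3

/-- HOM: the zeros of the cubic form; those with `z ≠ 0` are those of the hypersurface times the
units. -/
def S_HOM : Prop :=
  ∀ (m r : ℕ) (c : Fin r → Code m) (F : Type) [Field F] [Finite F],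
    Nat.card {v : Option (Fin r) ⊕ Option (Fin m) → F // aeval v (form c) = 0} +
      Nat.card {v : Option (Fin r) ⊕ Fin m → F // aeval v (poly fun j => el (c j)) = 0} =
    Nat.card F * Nat.card {v : Option (Fin r) ⊕ Fin m → F // aeval v (poly fun j => el (c j)) = 0} +
      Nat.card F * Nat.card {v : (Fin r → F) × (Fin m → F) // ∑ j, v.1 j * top (c j) v.2 = 0}

/-- INF: the zeros at infinity. -/
def S_INF : Prop :=
  ∀ (m r : ℕ) (c : Fin r → Code m) (F : Type) [Field F] [Finite F],
    Nat.card F * Nat.card {v : (Fin r → F) × (Fin m → F) // ∑ j, v.1 j * top (c j) v.2 = 0} +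
      Nat.card F ^ r * Nat.card {x : Fin m → F // ∀ j, top (c j) x = 0} =
    Nat.card F ^ (m + r) +
      Nat.card F ^ (r + 1) * Nat.card {x : Fin m → F // ∀ j, top (c j) x = 0}

/-- SUP: the number of `x` with `x_b x_c = 0` for the pairs in question is a polynomial in `q - 1`
with natural coefficients: count by the support of `x`. -/
def S_SUP : Prop :=
  ∀ (m r : ℕ) (c : Fin r → Code m), ∃ k : ℕ → ℕ, ∀ (F : Type) [Field F] [Finite F],
    Nat.card {x : Fin m → F // ∀ j, top (c j) x = 0} =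
      ∑ i ∈ Finset.range (m + 1), k i * (Nat.card F - 1) ^ i

/-- polynomially bounded counting functions -/
def Bdd (c : Nat.Primes → ℕ → ℕ) : Prop :=
  ∃ m : ℕ, ∀ (p : Nat.Primes) (n : ℕ), 1 ≤ n → c p n ≤ (p : ℕ) ^ (n * m)

/-- DIV -/
def S_DIV : Prop :=
  ∀ c c' c'' : Nat.Primes → ℕ → ℕ, Bdd c → Bdd c' →
    (∀ (p : Nat.Primes) (n : ℕ), 1 ≤ n → c p n + c' p n = c'' p n) →
    Continues (zetaOf c') → Continues (zetaOf c'') → Continues (zetaOf c)

/-- QM1 -/
def S_QM1 : Prop :=
  ∀ (k : ℕ → ℕ) (m : ℕ),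
    Continues (zetaOf fun p n => ∑ i ∈ Finset.range (m + 1), k i * ((p : ℕ) ^ n - 1) ^ i)

/-- ANA: analyticity on a half-plane -/
def S_ANA : Prop :=
  ∀ (c : Nat.Primes → ℕ → ℕ) (m : ℕ), (∀ (p : Nat.Primes) (n : ℕ), 1 ≤ n → c p n ≤ (p : ℕ) ^ (n * m)) →
    DifferentiableOn ℂ (zetaOf c) {s : ℂ | (m : ℝ) + 1 < s.re}

/-- STP: continuation step by step -/
def S_STP : Prop :=
  ∀ (f h : ℂ → ℂ) (σ : ℝ), DifferentiableOn ℂ f {s : ℂ | σ < s.re} → MeromorphicOn h Set.univ →
    (∀ s : ℂ, σ < s.re → f s = h (s + 1) * f (s + 1)) → Continues f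

end Pool.Agent.K6.H46.HW
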