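import Pool.Agent.K6.H46.HW.Stm2
import Pool.Agent.K6.H46.HW.Stm3

/-!
The zeta functions of arithmetic schemes and of forms.
-/

set_option autoImplicit false

open MvPolynomial AlgebraicGeometry CategoryTheory

namespace Pool.Agent.K6.H46.HW

/-- The number of points of the scheme `X` over the field with `p ^ n` elements, `n ≥ 1`. -/
noncomputable def countScheme (X : Scheme.{0}) (p : Nat.Primes) (n : ℕ) : ℕ :=
  haveI : Fact (p : ℕ).Prime := ⟨p.2⟩
  Nat.card (Pt X (GaloisField p n))

/-- The Hasse-Weil zeta function of the arithmetic scheme `X`: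
`exp (∑_p ∑_{n ≥ 1} #X(F_{p^n}) p ^ (-n s) / n)`, the product over the closed points `x` of `X` of
`(1 - N(x) ^ (-s))⁻¹`. -/
noncomputable def zetaScheme (X : Scheme.{0}) : ℂ → ℂ := zetaOf (countScheme X)

/-- The number of zeros of the polynomial `f` in a field `F`. -/
noncomputable def zeros {σ : Type} (f : MvPolynomial σ ℤ) (F : Type) [Field F] : ℕ :=
  Nat.card {v : σ → F // aeval v f = 0}

/-- The number of zeros of `f` in the field with `p ^ n` elements, `n ≥ 1`. -/
noncomputable def countZeros {σ : Type} (f : MvPolynomial σ ℤ) (p : Nat.Primes) (n : ℕ) : ℕ :=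
  haveI : Fact (p : ℕ).Prime := ⟨p.2⟩
  zeros f (GaloisField p n)

/-- The zeta function of the polynomial `f`:
`exp (∑_p ∑_{n ≥ 1} #{f = 0}(F_{p^n}) p ^ (-n s) / n)`. -/
noncomputable def zetaPoly {σ : Type} (f : MvPolynomial σ ℤ) : ℂ → ℂ := zetaOf (countZeros f)

end Pool.Agent.K6.H46.HW
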