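import Pool.Agent.K6.H46.HW.AsmA
import Pool.Agent.K6.H46.HW.Defs3

/-!
Assembly: cubic forms.
-/

set_option autoImplicit false

open MvPolynomial AlgebraicGeometry CategoryTheory

namespace Pool.Agent.K6.H46.HW

open Pool.Agent.K6.H18.Cubic Pool.Agent.K6.H18.Cubic.Alg

/-- The pieces. -/
structure Pieces : Prop where
  zer : S_ZER
  cnt : S_CNT
  bnd : S_BND
  rz : S_RZ
  add : S_ADD
  shi : S_SHI
  cbd : S_CBD
  con : S_CON
  prz : S_PRZ
  sch : S_SCH
  spc : S_SPC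
  hdg : S_HDG
  hom : S_HOM
  inf : S_INF
  sup : S_SUP
  div : S_DIV
  qm1 : S_QM1
  ana : S_ANA
  stp : S_STP

lemma exists_code {m : ℕ} {f : MvPolynomial (Fin m) ℤ} (hf : f ∈ Elem (∅ : Set ℤ) (Fin m)) :
    ∃ c : Code m, el c = f := by
  obtain ⟨a, b, c, h | h | h | ⟨s, hs, -⟩⟩ := hf
  · exact ⟨(0, a, b, c), by simp [el, h]⟩
  · exact ⟨(1, a, b, c), by simp [el, h]⟩
  · exact ⟨(2, a, b, c), by simp [el, h]⟩
  · exact absurd hs (by simp)

lemma el_mem {m : ℕ} (c : Code m) : el c ∈ Elem (∅ : Set ℤ) (Fin m) := by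
  refine ⟨c.2.1, c.2.2.1, c.2.2.2, ?_⟩
  unfold el
  split_ifs
  · exact Or.inl rfl
  · exact Or.inr (Or.inl rfl)
  · exact Or.inr (Or.inr (Or.inl rfl))

lemma isElementary_el {m r : ℕ} (hr : 0 < r) (c : Fin r → Code m) :
    IsElementary ∅ (fun j => el (c j)) := ⟨hr, fun j => el_mem (c j)⟩

/-- The number of zeros of the cubic form. -/
theorem zeros_form (P : Pieces) (m r : ℕ) (c : Fin r → Code m) : ∃ k : ℕ → ℕ,
    ∀ (F : Type) [Field F] [Finite F], zeros (form c) F = Nat.card F ^ (m + r + 1) +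
      (Nat.card F - 1) * Nat.card F ^ r *
        (points (MvPolynomial (Fin m) ℤ ⧸ Ideal.span (Set.range fun j => el (c j))) F +
          ∑ i ∈ Finset.range (m + 1), k i * (Nat.card F - 1) ^ i) := by
  obtain ⟨k, hk⟩ := P.sup m r c
  refine ⟨k, fun F _ _ => ?_⟩
  have h1 := P.hom m r c F
  have h2 := P.inf m r c F
  have h3 := P.cnt m r (fun j => el (c j)) F
  obtain ⟨ε⟩ := P.zer (Option (Fin r) ⊕ Fin m) {poly fun j => el (c j)} F
  have h4 : points (Hyp fun j => el (c j)) F =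
      Nat.card {v : Option (Fin r) ⊕ Fin m → F // aeval v (poly fun j => el (c j)) = 0} := by
    refine (Nat.card_congr ε).trans (Nat.card_congr (Equiv.subtypeEquivRight fun v => ?_))
    simp
  rw [← h4, h3] at h1
  rw [hk F] at h2
  unfold zeros
  obtain ⟨q, hq⟩ : ∃ q, Nat.card F = q + 1 := ⟨Nat.card F - 1, by
    have : 0 < Nat.card F := Nat.card_pos
    omega⟩
  simp only [hq, Nat.add_sub_cancel] at h1 h2 ⊢
  generalize Nat.card {v : Option (Fin r) ⊕ Option (Fin m) → F // aeval v (form c) = 0} = T at *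
  generalize Nat.card {v : (Fin r → F) × (Fin m → F) // ∑ j, v.1 j * top (c j) v.2 = 0} = N at *
  generalize points (MvPolynomial (Fin m) ℤ ⧸ Ideal.span (Set.range fun j => el (c j))) F = Y at *
  generalize ∑ i ∈ Finset.range (m + 1), k i * q ^ i = I at *
  have e1 : (q + 1) ^ (m + r + 1) = q * (q + 1) ^ (m + r) + (q + 1) ^ (m + r) := by ring
  have e2 : (q + 1) ^ (r + 1) = q * (q + 1) ^ r + (q + 1) ^ r := by ring
  rw [e2] at h2
  rw [e1]
  nlinarith [h1, h2]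

/-- The number of points of a finitely generated ring is polynomially bounded. -/
lemma bdd_of_finiteType (P : Pieces) (A : Type) [CommRing A] (hA : Algebra.FiniteType ℤ A) :
    ∃ m : ℕ, ∀ (p : Nat.Primes) (n : ℕ), 1 ≤ n → count A p n ≤ (p : ℕ) ^ (n * m) := by
  obtain ⟨m, r, e, hr, he, ⟨σ⟩⟩ := P.prz A hA
  refine ⟨m, fun p n hn => ?_⟩
  have h : count A p n = count (MvPolynomial (Fin m) ℤ ⧸ Ideal.span (Set.range e)) p n :=
    points_congr σ.symm _
  rw [h]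
  exact P.cbd m _ p n hn

lemma countScheme_eq {X : Scheme.{0}} {A : Type} [CommRing A]
    (h : ∀ (F : Type) [Field F], Nonempty (Pt X F ≃ (A →+* F))) : countScheme X = count A := by
  funext p n
  have : Fact (p : ℕ).Prime := ⟨p.2⟩
  obtain ⟨ε⟩ := h (GaloisField p n)
  exact Nat.card_congr ε

lemma countZeros_eq (P : Pieces) {σ : Type} (f : MvPolynomial σ ℤ) :
    countZeros f = count (MvPolynomial σ ℤ ⧸ Ideal.span {f}) := by
  funext p n
  have : Fact (p : ℕ).Prime := ⟨p.2⟩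
  obtain ⟨ε⟩ := P.zer σ {f} (GaloisField p n)
  refine (Nat.card_congr (ε.trans (Equiv.subtypeEquivRight fun v => ?_))).symm
  simp

lemma continues_riemannZeta_shift (P : Pieces) (d : ℕ) :
    Continues (zetaOf fun p n => (p : ℕ) ^ (n * d)) := by
  have h1 : Continues (fun _ : ℂ => (1 : ℂ)) :=
    ⟨fun _ => 1, fun z _ => MeromorphicAt.const 1 z, 0, fun _ _ => rfl⟩
  refine (P.con (fun _ => 1) _ d 0 ((d : ℝ) + 1) fun s hs => ?_).1 h1
  rw [P.rz d s hs, mul_one]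

lemma Continues.comp_sub {f : ℂ → ℂ} (h : Continues f) (r : ℕ) :
    Continues fun s => f (s - r) := by
  obtain ⟨Z, hZ, σ, hσ⟩ := h
  refine ⟨fun s => Z (s - r), fun z _ => ?_, σ + r, fun s hs => hσ _ ?_⟩
  · exact (hZ (z - r) trivial).comp_analyticAt (g := fun s : ℂ => s - r) (by fun_prop)
  · simp
    linarith

lemma Continues.comp_add {f : ℂ → ℂ} (r : ℕ) (h : Continues fun s => f (s - r)) :
    Continues f := by
  obtain ⟨Z, hZ, σ, hσ⟩ := h
  refine ⟨fun s => Z (s + r), fun z _ => ?_, σ, fun s hs => ?_⟩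
  · exact (hZ (z + r) trivial).comp_analyticAt (g := fun s : ℂ => s + r) (by fun_prop)
  · have := hσ (s + r) (by
      simp
      have : (0 : ℝ) ≤ r := Nat.cast_nonneg r
      linarith)
    simpa using this

lemma Continues.mul {f g h : ℂ → ℂ} (hf : Continues f) (hg : Continues g) (σ : ℝ)
    (hh : ∀ s : ℂ, σ < s.re → h s = f s * g s) : Continues h := by
  obtain ⟨Z, hZ, σ₁, h₁⟩ := hf
  obtain ⟨W, hW, σ₂, h₂⟩ := hg
  refine ⟨Z * W, hZ.mul hW, max σ (max σ₁ σ₂), fun s hs => ?_⟩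
  rw [max_lt_iff, max_lt_iff] at hs
  rw [hh s hs.1, h₁ s hs.2.1, h₂ s hs.2.2]
  rfl

lemma two_le (p : Nat.Primes) : 2 ≤ (p : ℕ) := p.2.two_le

lemma one_le_pow' (p : Nat.Primes) (n : ℕ) : 1 ≤ (p : ℕ) ^ n := Nat.one_le_pow _ _ p.2.pos

lemma Bdd.add {c c' : Nat.Primes → ℕ → ℕ} (h : Bdd c) (h' : Bdd c') :
    Bdd fun p n => c p n + c' p n := by
  obtain ⟨a, ha⟩ := h
  obtain ⟨b, hb⟩ := h'
  refine ⟨a + b + 1, fun p n hn => ?_⟩
  have h1 : (p : ℕ) ^ (n * a) ≤ (p : ℕ) ^ (n * (a + b)) :=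
    Nat.pow_le_pow_right p.2.pos (Nat.mul_le_mul_left _ (by omega))
  have h2 : (p : ℕ) ^ (n * b) ≤ (p : ℕ) ^ (n * (a + b)) :=
    Nat.pow_le_pow_right p.2.pos (Nat.mul_le_mul_left _ (by omega))
  have h3 : 2 ≤ (p : ℕ) ^ n := (two_le p).trans (Nat.le_self_pow (by omega) _)
  calc c p n + c' p n ≤ (p : ℕ) ^ (n * (a + b)) + (p : ℕ) ^ (n * (a + b)) :=
        add_le_add ((ha p n hn).trans h1) ((hb p n hn).trans h2)
    _ = (p : ℕ) ^ (n * (a + b)) * 2 := by ring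
    _ ≤ (p : ℕ) ^ (n * (a + b)) * (p : ℕ) ^ n := Nat.mul_le_mul_left _ h3
    _ = (p : ℕ) ^ (n * (a + b + 1)) := by rw [← pow_add]; congr 1

lemma Bdd.mono {c c' : Nat.Primes → ℕ → ℕ} (h : Bdd c) (h' : ∀ p n, 1 ≤ n → c' p n ≤ c p n) :
    Bdd c' := by
  obtain ⟨a, ha⟩ := h
  exact ⟨a, fun p n hn => (h' p n hn).trans (ha p n hn)⟩

lemma bdd_pow (d : ℕ) : Bdd fun p n => (p : ℕ) ^ (n * d) := ⟨d, fun _ _ _ => le_refl _⟩

lemma Bdd.shift {c : Nat.Primes → ℕ → ℕ} (h : Bdd c) (r : ℕ) :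
    Bdd fun p n => (p : ℕ) ^ (n * r) * c p n := by
  obtain ⟨a, ha⟩ := h
  refine ⟨r + a, fun p n hn => ?_⟩
  rw [mul_add, pow_add]
  exact Nat.mul_le_mul_left _ (ha p n hn)

lemma bdd_const_mul {c : Nat.Primes → ℕ → ℕ} (h : Bdd c) (k : ℕ) :
    Bdd fun p n => k * c p n := by
  induction k with
  | zero => exact h.mono fun p n _ => by simp
  | succ k ih => exact (ih.add h).mono fun p n _ => by simp [add_mul]

lemma bdd_sum (k : ℕ → ℕ) (m : ℕ) :
    Bdd fun p n => ∑ i ∈ Finset.range m, k i * ((p : ℕ) ^ n - 1) ^ i := by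
  induction m with
  | zero => exact (bdd_pow 0).mono fun p n _ => by simp
  | succ m ih =>
    refine (ih.add (bdd_const_mul (bdd_pow m) (k m))).mono fun p n _ => ?_
    rw [Finset.sum_range_succ]
    refine Nat.add_le_add_left (Nat.mul_le_mul_left _ ?_) _
    rw [pow_mul]
    exact Nat.pow_le_pow_left (Nat.sub_le _ _) _

lemma Bdd.summable (P : Pieces) {c : Nat.Primes → ℕ → ℕ} (h : Bdd c) :
    ∃ σ : ℝ, ∀ s : ℂ, σ < s.re → Summable (term c s) := by
  obtain ⟨m, hm⟩ := h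
  exact ⟨m + 1, fun s hs => P.bnd c m hm s hs⟩

lemma zetaOf_add (P : Pieces) {c c' : Nat.Primes → ℕ → ℕ} (h : Bdd c) (h' : Bdd c') :
    ∃ σ : ℝ, ∀ s : ℂ, σ < s.re →
      zetaOf (fun p n => c p n + c' p n) s = zetaOf c s * zetaOf c' s := by
  obtain ⟨σ, hσ⟩ := h.summable P
  obtain ⟨σ', hσ'⟩ := h'.summable P
  refine ⟨max σ σ', fun s hs => ?_⟩
  rw [max_lt_iff] at hs
  exact P.add c c' s (hσ s hs.1) (hσ' s hs.2)

lemma continues_add (P : Pieces) {c c' : Nat.Primes → ℕ → ℕ} (h : Bdd c) (h' : Bdd c')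
    (hc : Continues (zetaOf c)) (hc' : Continues (zetaOf c')) :
    Continues (zetaOf fun p n => c p n + c' p n) := by
  obtain ⟨σ, hσ⟩ := zetaOf_add P h h'
  exact hc.mul hc' σ hσ

lemma continues_shift (P : Pieces) {c : Nat.Primes → ℕ → ℕ} (r : ℕ)
    (hc : Continues (zetaOf c)) : Continues (zetaOf fun p n => (p : ℕ) ^ (n * r) * c p n) := by
  have h1 : (zetaOf fun p n => (p : ℕ) ^ (n * r) * c p n) = fun s => zetaOf c (s - r) := by
    funext s
    exact P.shi c r s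
  rw [h1]
  exact hc.comp_sub r

/-- The continuation of the zeta function of the cubic form. -/
theorem continues_form_iff (P : Pieces) (N r m : ℕ) (k : ℕ → ℕ) (y t : Nat.Primes → ℕ → ℕ)
    (hy : Bdd y) (ht : ∀ (p : Nat.Primes) (n : ℕ), 1 ≤ n → t p n = (p : ℕ) ^ (n * N) +
      ((p : ℕ) ^ n - 1) * (p : ℕ) ^ (n * r) *
        (y p n + ∑ i ∈ Finset.range (m + 1), k i * ((p : ℕ) ^ n - 1) ^ i)) :
    Continues (zetaOf y) ↔ Continues (zetaOf t) := by
  set I : Nat.Primes → ℕ → ℕ :=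
    fun p n => ∑ i ∈ Finset.range (m + 1), k i * ((p : ℕ) ^ n - 1) ^ i with hI
  set Y : Nat.Primes → ℕ → ℕ := fun p n => y p n + I p n with hY
  have hIb : Bdd I := bdd_sum k (m + 1)
  have hYb : Bdd Y := hy.add hIb
  have hIc : Continues (zetaOf I) := P.qm1 k m
  have hyY : Continues (zetaOf y) ↔ Continues (zetaOf Y) :=
    ⟨fun h => continues_add P hy hIb h hIc,
      fun h => P.div y I Y hy hIb (fun _ _ _ => rfl) hIc h⟩
  have hAb : Bdd fun p n => (p : ℕ) ^ (n * N) := bdd_pow N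
  have hA : Continues (zetaOf fun p n => (p : ℕ) ^ (n * N)) := continues_riemannZeta_shift P N
  have key : ∀ (p : Nat.Primes) (n : ℕ), 1 ≤ n → t p n + (p : ℕ) ^ (n * r) * Y p n =
      (p : ℕ) ^ (n * N) + (p : ℕ) ^ (n * (r + 1)) * Y p n := by
    intro p n hn
    rw [ht p n hn]
    change (p : ℕ) ^ (n * N) + ((p : ℕ) ^ n - 1) * (p : ℕ) ^ (n * r) * Y p n + _ = _
    obtain ⟨q, hq⟩ : ∃ q, (p : ℕ) ^ n = q + 1 := ⟨(p : ℕ) ^ n - 1, by
      have := one_le_pow' p n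
      omega⟩
    have e1 : (p : ℕ) ^ (n * (r + 1)) = (p : ℕ) ^ (n * r) * (q + 1) := by
      rw [mul_add, mul_one, pow_add, hq]
    rw [e1, hq, Nat.add_sub_cancel]
    ring
  have htb : Bdd t := by
    refine (hAb.add (hYb.shift (r + 1))).mono fun p n hn => ?_
    have := key p n hn
    omega
  rw [hyY]
  constructor
  · intro h
    exact P.div t (fun p n => (p : ℕ) ^ (n * r) * Y p n)
      (fun p n => (p : ℕ) ^ (n * N) + (p : ℕ) ^ (n * (r + 1)) * Y p n) htb (hYb.shift r) key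
      (continues_shift P r h)
      (continues_add P hAb (hYb.shift (r + 1)) hA (continues_shift P (r + 1) h))
  · intro h
    obtain ⟨Zt, hZt, σ₁, h₁⟩ := h
    obtain ⟨ZA, hZA, σ₂, h₂⟩ := hA
    obtain ⟨σ₃, h₃⟩ := zetaOf_add P htb (hYb.shift r)
    obtain ⟨σ₄, h₄⟩ := zetaOf_add P hAb (hYb.shift (r + 1))
    obtain ⟨M, hM⟩ := hYb
    have hdiff := P.ana Y M hM
    refine Continues.comp_add r (P.stp (fun s => zetaOf Y (s - r)) (Zt / ZA)
      (max (max σ₁ σ₂) (max (max σ₃ σ₄) ((M : ℝ) + 1 + r))) ?_ (hZt.div hZA) fun s hs => ?_)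
    · refine DifferentiableOn.comp (g := zetaOf Y) (f := fun s : ℂ => s - r)
        (t := {s : ℂ | (M : ℝ) + 1 < s.re}) hdiff (by fun_prop) fun s hs => ?_
      have hs' : (M : ℝ) + 1 + r < s.re :=
        lt_of_le_of_lt ((le_max_right _ _).trans (le_max_right _ _)) hs
      show (M : ℝ) + 1 < (s - r).re
      simp only [Complex.sub_re, Complex.natCast_re]
      linarith
    · simp only [max_lt_iff] at hs
      obtain ⟨⟨g1, g2⟩, ⟨g3, g4⟩, g5⟩ := hs
      have hre : (s + 1).re = s.re + 1 := by simp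
      have a1 := h₁ (s + 1) (by rw [hre]; linarith)
      have a2 := h₂ (s + 1) (by rw [hre]; linarith)
      have a3 := h₃ (s + 1) (by rw [hre]; linarith)
      have a4 := h₄ (s + 1) (by rw [hre]; linarith)
      rw [P.shi] at a3 a4
      have a5 : zetaOf (fun p n => t p n + (p : ℕ) ^ (n * r) * Y p n) (s + 1) =
          zetaOf (fun p n => (p : ℕ) ^ (n * N) + (p : ℕ) ^ (n * (r + 1)) * Y p n) (s + 1) :=
        zetaOf_congr key _
      rw [a3, a4] at a5
      have a6 : (s + 1 - ((r + 1 : ℕ) : ℂ)) = s - r := by push_cast; ring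
      rw [a6, a1] at a5
      have a7 : ZA (s + 1) ≠ 0 := by
        rw [← a2]
        exact Complex.exp_ne_zero _
      rw [a2] at a5
      show zetaOf Y (s - r) = Zt (s + 1) / ZA (s + 1) * zetaOf Y (s + 1 - r)
      rw [div_mul_eq_mul_div, eq_div_iff a7, a5]
      ring

end Pool.Agent.K6.H46.HW
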