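import Pool.Agent.K6.H46.HW.AsmC

/-!
Assembly: arithmetic schemes, the hypersurfaces and cubic forms.
-/

set_option autoImplicit false

open MvPolynomial AlgebraicGeometry CategoryTheory

namespace Pool.Agent.K6.H46.HW

open Pool.Agent.K6.H18.Cubic Pool.Agent.K6.H18.Cubic.Alg

lemma zeros_eq_points (P : Pieces) {σ : Type} (f : MvPolynomial σ ℤ) (F : Type) [Field F] :
    zeros f F = points (MvPolynomial σ ℤ ⧸ Ideal.span {f}) F := by
  obtain ⟨ε⟩ := P.zer σ {f} F
  refine (Nat.card_congr (ε.trans (Equiv.subtypeEquivRight fun v => ?_))).symm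
  simp

/-- One arithmetic scheme. -/
theorem main_scheme (P : Pieces) (X : Scheme.{0}) (hX : IsArithmeticScheme X) :
    ∃ (m r : ℕ) (c : Fin r → Code m) (k : ℕ → ℕ), 0 < r ∧
      IsRationalHypersurface (fun j => el (c j)) ∧ (form c).IsHomogeneous 3 ∧
      (∀ (F : Type) [Field F] [Finite F], zeros (poly fun j => el (c j)) F =
        Nat.card F ^ (m + r) + Nat.card F ^ r * Nat.card (Pt X F)) ∧
      (∀ (F : Type) [Field F] [Finite F], zeros (form c) F =
        Nat.card F ^ (m + r + 1) + (Nat.card F - 1) * Nat.card F ^ r *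
          (Nat.card (Pt X F) + ∑ i ∈ Finset.range (m + 1), k i * (Nat.card F - 1) ^ i)) ∧
      (∀ s : ℂ, (m : ℝ) + r + 1 < s.re → zetaPoly (poly fun j => el (c j)) s =
        riemannZeta (s - (m + r : ℕ)) * zetaScheme X (s - r)) ∧
      (Continues (zetaScheme X) ↔ Continues (zetaPoly (poly fun j => el (c j)))) ∧
      (Continues (zetaScheme X) ↔ Continues (zetaPoly (form c))) := by
  obtain ⟨A, _, hA, hXA⟩ := P.sch X hX
  obtain ⟨m, r, e, hr, he, ⟨σ⟩⟩ := P.prz A hA
  choose c hc using fun j => exists_code (he j)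
  obtain rfl : (fun j => el (c j)) = e := funext hc
  obtain ⟨k, hk⟩ := zeros_form P m r c
  have hpt : ∀ (F : Type) [Field F], Nat.card (Pt X F) =
      points (MvPolynomial (Fin m) ℤ ⧸ Ideal.span (Set.range fun j => el (c j))) F := by
    intro F _
    obtain ⟨ε⟩ := hXA F
    rw [points_congr σ]
    exact Nat.card_congr ε
  have h1 : countScheme X = count A := countScheme_eq hXA
  have h2 : zetaScheme X = zeta A := by
    unfold zetaScheme zeta
    rw [h1]
  have h3 : zetaPoly (poly fun j => el (c j)) = zeta (Hyp fun j => el (c j)) := by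
    unfold zetaPoly zeta
    rw [countZeros_eq P]
  have h4 : ∀ s : ℂ, (m : ℝ) + r + 1 < s.re → zetaPoly (poly fun j => el (c j)) s =
        riemannZeta (s - (m + r : ℕ)) * zetaScheme X (s - r) := fun s hs => by
    rw [h3, h2, zeta_hyp P.cnt P.bnd P.rz P.add P.shi P.cbd m r _ s hs, zeta_congr σ]
  refine ⟨m, r, c, k, hr, isRationalHypersurface _ (isElementary_el hr c), P.hdg m r c,
    fun F _ _ => ?_, fun F _ _ => ?_, h4, ?_, ?_⟩
  · rw [zeros_eq_points P, P.cnt m r _ F, hpt F]
  · rw [hk F, hpt F]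
  · exact P.con _ _ (m + r) r ((m : ℝ) + r + 1) h4
  · have hb : Bdd (countScheme X) := by
      rw [h1]
      exact bdd_of_finiteType P A hA
    refine continues_form_iff P (m + r + 1) r m k (countScheme X) (countZeros (form c)) hb
      fun p n hn => ?_
    have : Fact (p : ℕ).Prime := ⟨p.2⟩
    have h5 := hk (GaloisField p n)
    rw [GaloisField.card p n (by omega), ← hpt (GaloisField p n), ← pow_mul, ← pow_mul] at h5
    exact h5

lemma zetaPoly_rename {σ τ : Type} (ε : σ ≃ τ) (f : MvPolynomial σ ℤ) :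
    zetaPoly (rename ε f) = zetaPoly f := by
  have h : countZeros (rename ε f) = countZeros f := by
    funext p n
    have : Fact (p : ℕ).Prime := ⟨p.2⟩
    refine Nat.card_congr ((Equiv.arrowCongr ε.symm (Equiv.refl _)).subtypeEquiv fun v => ?_)
    rw [aeval_rename]
    rfl
  unfold zetaPoly
  rw [h]

/-- All arithmetic schemes. -/
theorem main_tfae (P : Pieces) :
    List.TFAE [
      ∀ X : Scheme.{0}, IsArithmeticScheme X → Continues (zetaScheme X),
      ∀ (m r : ℕ) (c : Fin r → Code m), 0 < r → Continues (zetaPoly (poly fun j => el (c j))),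
      ∀ (n : ℕ) (f : MvPolynomial (Fin n) ℤ), f.IsHomogeneous 3 → Continues (zetaPoly f)] := by
  have hP : ∀ (n : ℕ) (f : MvPolynomial (Fin n) ℤ),
      ∃ X : Scheme.{0}, IsArithmeticScheme X ∧ zetaPoly f = zetaScheme X := by
    intro n f
    have hft : Algebra.FiniteType ℤ (MvPolynomial (Fin n) ℤ ⧸ Ideal.span {f}) := inferInstance
    obtain ⟨h1, h2⟩ := P.spc (MvPolynomial (Fin n) ℤ ⧸ Ideal.span {f}) hft
    refine ⟨_, h1, ?_⟩
    unfold zetaPoly zetaScheme
    rw [countZeros_eq P, countScheme_eq h2]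
  have hP' : ∀ {σ : Type} [Finite σ] (f : MvPolynomial σ ℤ),
      ∃ X : Scheme.{0}, IsArithmeticScheme X ∧ zetaPoly f = zetaScheme X := by
    intro σ _ f
    obtain ⟨n, ⟨ε⟩⟩ := Finite.exists_equiv_fin σ
    obtain ⟨X, hX, h⟩ := hP n (rename ε f)
    exact ⟨X, hX, by rw [← h, zetaPoly_rename]⟩
  tfae_have 1 → 2 := fun h m r c _ => by
    obtain ⟨X, hX, h1⟩ := hP' (poly fun j => el (c j))
    rw [h1]
    exact h X hX
  tfae_have 2 → 1 := fun h X hX => by
    obtain ⟨m, r, c, k, hr, -, -, -, -, -, h1, -⟩ := main_scheme P X hX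
    exact h1.2 (h m r c hr)
  tfae_have 1 → 3 := fun h n f _ => by
    obtain ⟨X, hX, h1⟩ := hP' f
    rw [h1]
    exact h X hX
  tfae_have 3 → 1 := fun h X hX => by
    obtain ⟨m, r, c, k, hr, -, -, -, -, -, -, h1⟩ := main_scheme P X hX
    refine h1.2 ?_
    obtain ⟨n, ⟨ε⟩⟩ := Finite.exists_equiv_fin (Option (Fin r) ⊕ Option (Fin m))
    rw [← zetaPoly_rename ε]
    exact h n _ ((P.hdg m r c).rename_isHomogeneous)
  tfae_finish

end Pool.Agent.K6.H46.HW
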