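import Pool.Agent.K6.H46.HW.Stm

/-!
Euler products given by the inverse roots of the Euler factors.
-/

set_option autoImplicit false

namespace Pool.Agent.K6.H46.HW

/-- The inverse roots of the Euler factors (the eigenvalues of Frobenius): at most `N` for every
prime number `p`, of absolute value at most `p ^ w`. -/
structure EulerRoots where
  R : Nat.Primes → Multiset ℂ
  N : ℕ
  w : ℕ
  card_le : ∀ p, Multiset.card (R p) ≤ N
  norm_le : ∀ p, ∀ α ∈ R p, ‖α‖ ≤ ((p : ℕ) : ℝ) ^ w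

namespace EulerRoots

/-- The Euler product `∏_p ∏_α (1 - α p ^ (-s))⁻¹`. -/
noncomputable def L (E : EulerRoots) (s : ℂ) : ℂ :=
  ∏' p : Nat.Primes, ((E.R p).map fun α => (1 - α * ((p : ℕ) : ℂ) ^ (-s))⁻¹).prod

/-- the trace of the `n`-th power of Frobenius -/
noncomputable def tr (E : EulerRoots) (p : Nat.Primes) (n : ℕ) : ℂ :=
  ((E.R p).map fun α => α ^ n).sum

end EulerRoots

/-- the terms of the series for complex valued functions -/
noncomputable def termC (c : Nat.Primes → ℕ → ℂ) (s : ℂ) (x : Nat.Primes × ℕ) : ℂ :=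
  c x.1 (x.2 + 1) * ((x.1 : ℕ) : ℂ) ^ (-(((x.2 + 1 : ℕ) : ℂ) * s)) / ((x.2 + 1 : ℕ) : ℂ)

/-- `exp (∑_p ∑_{n ≥ 1} c(p, n) p ^ (-n s) / n)` -/
noncomputable def zetaC (c : Nat.Primes → ℕ → ℂ) (s : ℂ) : ℂ := Complex.exp (∑' x, termC c s x)

/-- LSM: convergence of the series. -/
def S_LSM : Prop :=
  ∀ (E : EulerRoots) (s : ℂ), (E.w : ℝ) + 1 < s.re → Summable (termC E.tr s)

/-- LPR: the Euler product is the exponential of the series. -/
def S_LPR : Prop :=
  ∀ (E : EulerRoots) (s : ℂ), (E.w : ℝ) + 1 < s.re → E.L s = zetaC E.tr s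

/-- LFP: finite Euler products are meromorphic and do not vanish on a half-plane. -/
def S_LFP : Prop :=
  ∀ (E : EulerRoots) (S : Finset Nat.Primes), (∀ p, p ∉ S → E.R p = 0) →
    Continues E.L ∧ Continues fun s => (E.L s)⁻¹

/-- LFI: finitely many Euler factors do not matter. -/
def S_LFI : Prop :=
  ∀ (E E' : EulerRoots) (S : Finset Nat.Primes), (∀ p, p ∉ S → E.R p = E'.R p) →
    (Continues E.L ↔ Continues E'.L)

/-- LPO: polynomials in `q` with natural coefficients. -/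
def S_LPO : Prop :=
  ∀ (b : ℕ → ℕ) (m : ℕ), ∃ E : EulerRoots, (∀ (p : Nat.Primes) (n : ℕ),
    E.tr p n = ((∑ i ∈ Finset.range m, b i * ((p : ℕ) ^ n) ^ i : ℕ) : ℂ)) ∧ Continues E.L

end Pool.Agent.K6.H46.HW
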