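import Pool.Agent.K6.H46.HW.Defs3
import Pool.Agent.K6.H46.HW.Stm4

/-!
Motives whose Frobenius traces are numbers of points.
-/

set_option autoImplicit false

open AlgebraicGeometry CategoryTheory

namespace Pool.Agent.K6.H46.HW

/-- The traces of Frobenius of the Euler product `E` are, up to the sign `ε` and a polynomial in
`q`, the numbers of points of the scheme `X` of finite type over `ℤ`, at all primes outside the
finite set `S`; `X` has no points in the characteristics in `S`. For example, if `C` is a smooth
projective curve over `ℚ` and `X` a smooth projective model of `C` over `ℤ[1/N]`, and `E` is given by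
`L(h^1(C), s)`, this holds with `B = q + 1` and `ε = -1`. -/
structure IsPointCounted (E : EulerRoots) (X : Scheme.{0}) (S : Finset Nat.Primes)
    (B : Polynomial ℤ) (ε : ℤ) : Prop where
  scheme : IsArithmeticScheme X
  sign : ε = 1 ∨ ε = -1
  bad : ∀ p ∈ S, ∀ n : ℕ, 1 ≤ n → countScheme X p n = 0
  good : ∀ p ∉ S, ∀ n : ℕ, 1 ≤ n →
    (countScheme X p n : ℂ) = (B.eval (((p : ℕ) : ℤ) ^ n) : ℤ) + ε * E.tr p n

/-- The traces of Frobenius of the Euler product `E` are, up to the sign `ε`, the differences of the
numbers of points of two schemes `X`, `Y` of finite type over `ℤ`, at all primes outside the finite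
set `S`; `X` and `Y` have no points in the characteristics in `S`. -/
structure IsVirtual (E : EulerRoots) (X Y : Scheme.{0}) (S : Finset Nat.Primes) (ε : ℤ) : Prop where
  scheme : IsArithmeticScheme X ∧ IsArithmeticScheme Y
  sign : ε = 1 ∨ ε = -1
  bad : ∀ p ∈ S, ∀ n : ℕ, 1 ≤ n → countScheme X p n = 0 ∧ countScheme Y p n = 0
  good : ∀ p ∉ S, ∀ n : ℕ, 1 ≤ n →
    (countScheme X p n : ℂ) = countScheme Y p n + ε * E.tr p n

end Pool.Agent.K6.H46.HW
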