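import Pool.Agent.K6.H46.HW.AsmD
import Pool.Agent.K6.H46.HW.Defs4

/-!
Assembly: Euler products.
-/

set_option autoImplicit false

open MvPolynomial AlgebraicGeometry CategoryTheory

namespace Pool.Agent.K6.H46.HW

/-- The pieces. -/
structure Pieces4 : Prop where
  lsm : S_LSM
  lpr : S_LPR
  lfp : S_LFP
  lpo : S_LPO

lemma zetaC_natCast (c : Nat.Primes → ℕ → ℕ) (s : ℂ) :
    zetaC (fun p n => (c p n : ℂ)) s = zetaOf c s := rfl

lemma zetaC_congr {c c' : Nat.Primes → ℕ → ℂ} (h : ∀ p n, 1 ≤ n → c p n = c' p n) (s : ℂ) :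
    zetaC c s = zetaC c' s := by
  unfold zetaC
  congr 1
  refine tsum_congr fun x => ?_
  unfold termC
  rw [h x.1 (x.2 + 1) (by omega)]

lemma zetaC_add {c c' : Nat.Primes → ℕ → ℂ} {s : ℂ} (h : Summable (termC c s))
    (h' : Summable (termC c' s)) :
    zetaC (fun p n => c p n + c' p n) s = zetaC c s * zetaC c' s := by
  unfold zetaC
  rw [← Complex.exp_add, ← Summable.tsum_add h h']
  congr 1
  refine tsum_congr fun x => ?_
  unfold termC
  ring

/-- `f g = h` on a half-plane and `g ≠ 0`. -/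
lemma continues_iff_of_mul {f g h : ℂ → ℂ} (hg : Continues g) (σ : ℝ)
    (h1 : ∀ s : ℂ, σ < s.re → f s * g s = h s) (h2 : ∀ s : ℂ, σ < s.re → g s ≠ 0) :
    Continues f ↔ Continues h := by
  constructor
  · intro hf
    exact hf.mul hg σ fun s hs => (h1 s hs).symm
  · rintro ⟨Z, hZ, σ₁, h₁⟩
    obtain ⟨W, hW, σ₂, h₂⟩ := hg
    refine ⟨Z / W, hZ.div hW, max σ (max σ₁ σ₂), fun s hs => ?_⟩
    rw [max_lt_iff, max_lt_iff] at hs
    have e1 := h1 s hs.1
    have e2 := h2 s hs.1
    show f s = Z s / W s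
    rw [← h₁ s hs.2.1, ← h₂ s hs.2.2, ← e1]
    field_simp

open Classical in
/-- the part of the Euler product over the primes in `T` -/
noncomputable def EulerRoots.restrict (E : EulerRoots) (T : Set Nat.Primes) : EulerRoots where
  R p := if p ∈ T then E.R p else 0
  N := E.N
  w := E.w
  card_le p := by
    split_ifs
    · exact E.card_le p
    · simp
  norm_le p α hα := by
    split_ifs at hα
    · exact E.norm_le p α hα
    · simp at hα

lemma EulerRoots.restrict_tr_of_mem (E : EulerRoots) {T : Set Nat.Primes} {p : Nat.Primes}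
    (hp : p ∈ T) (n : ℕ) : (E.restrict T).tr p n = E.tr p n := by
  unfold EulerRoots.tr EulerRoots.restrict
  simp [hp]

lemma EulerRoots.restrict_tr_of_notMem (E : EulerRoots) {T : Set Nat.Primes} {p : Nat.Primes}
    (hp : p ∉ T) (n : ℕ) : (E.restrict T).tr p n = 0 := by
  unfold EulerRoots.tr EulerRoots.restrict
  simp [hp]

lemma EulerRoots.tr_split (E : EulerRoots) (T : Set Nat.Primes) (p : Nat.Primes) (n : ℕ) :
    E.tr p n = (E.restrict T).tr p n + (E.restrict Tᶜ).tr p n := by
  by_cases hp : p ∈ T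
  · rw [E.restrict_tr_of_mem hp, E.restrict_tr_of_notMem (T := Tᶜ) (by simpa using hp), add_zero]
  · rw [E.restrict_tr_of_notMem hp, E.restrict_tr_of_mem (T := Tᶜ) (by simpa using hp), zero_add]

lemma EulerRoots.L_ne_zero (Q : Pieces4) (E : EulerRoots) (s : ℂ) (hs : (E.w : ℝ) + 1 < s.re) :
    E.L s ≠ 0 := by
  rw [Q.lpr E s hs]
  exact Complex.exp_ne_zero _

lemma EulerRoots.L_mul (Q : Pieces4) (E : EulerRoots) (T : Set Nat.Primes) (s : ℂ)
    (hs : (E.w : ℝ) + 1 < s.re) :
    E.L s = (E.restrict T).L s * (E.restrict Tᶜ).L s := by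
  rw [Q.lpr E s hs, Q.lpr (E.restrict T) s hs, Q.lpr (E.restrict Tᶜ) s hs,
    ← zetaC_add (Q.lsm (E.restrict T) s hs) (Q.lsm (E.restrict Tᶜ) s hs)]
  exact zetaC_congr (fun p n _ => E.tr_split T p n) s

/-- Finitely many Euler factors do not matter. -/
lemma EulerRoots.continues_restrict (Q : Pieces4) (E : EulerRoots) (S : Finset Nat.Primes) :
    Continues (E.restrict (S : Set Nat.Primes)ᶜ).L ↔ Continues E.L := by
  have h1 : Continues (E.restrict (S : Set Nat.Primes)).L :=
    (Q.lfp _ S fun p hp => by simp [EulerRoots.restrict, hp]).1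
  refine continues_iff_of_mul h1 ((E.w : ℝ) + 1) (fun s hs => ?_) fun s hs => ?_
  · rw [E.L_mul Q S s hs, mul_comm]
  · exact (E.restrict (S : Set Nat.Primes)).L_ne_zero Q s hs

lemma bdd_countScheme (P : Pieces) {X : Scheme.{0}} (hX : IsArithmeticScheme X) :
    Bdd (countScheme X) := by
  obtain ⟨A, _, hA, hXA⟩ := P.sch X hX
  rw [countScheme_eq hXA]
  exact bdd_of_finiteType P A hA

lemma zetaOf_ne_zero (c : Nat.Primes → ℕ → ℕ) (s : ℂ) : zetaOf c s ≠ 0 := Complex.exp_ne_zero _

lemma EulerRoots.zetaC_add (P : Pieces) (Q : Pieces4) (E : EulerRoots) {X : Scheme.{0}}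
    (hX : IsArithmeticScheme X) : ∃ σ : ℝ, ∀ s : ℂ, σ < s.re →
      zetaC (fun p n => (countScheme X p n : ℂ) + E.tr p n) s = zetaScheme X s * E.L s := by
  obtain ⟨σ, hσ⟩ := (bdd_countScheme P hX).summable P
  refine ⟨max σ ((E.w : ℝ) + 1), fun s hs => ?_⟩
  rw [max_lt_iff] at hs
  rw [Q.lpr E s hs.2]
  exact Pool.Agent.K6.H46.HW.zetaC_add (c := fun p n => (countScheme X p n : ℂ)) (hσ s hs.1)
    (Q.lsm E s hs.2)

/-- The virtual case. -/
theorem continues_virtual (P : Pieces) (Q : Pieces4) {E : EulerRoots} {X Y : Scheme.{0}}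
    {S : Finset Nat.Primes} {ε : ℤ} (h : IsVirtual E X Y S ε) (hX : Continues (zetaScheme X))
    (hY : Continues (zetaScheme Y)) : Continues E.L := by
  rw [← E.continues_restrict Q S]
  set E' := E.restrict (S : Set Nat.Primes)ᶜ with hE'
  have key : ∀ (p : Nat.Primes) (n : ℕ), 1 ≤ n →
      (countScheme X p n : ℂ) = countScheme Y p n + ε * E'.tr p n := by
    intro p n hn
    by_cases hp : p ∈ S
    · rw [E.restrict_tr_of_notMem (by simpa using hp), (h.bad p hp n hn).1, (h.bad p hp n hn).2]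
      simp
    · rw [E.restrict_tr_of_mem (by simpa using hp)]
      exact h.good p hp n hn
  rcases h.sign with he | he
  · obtain ⟨σ, hσ⟩ := E'.zetaC_add P Q h.scheme.2
    refine (continues_iff_of_mul hY σ (fun s hs => ?_) fun s _ => zetaOf_ne_zero _ s).2 hX
    rw [mul_comm, ← hσ s hs]
    exact zetaC_congr (c' := fun p n => (countScheme X p n : ℂ))
      (fun p n hn => by rw [key p n hn, he]; simp) s
  · obtain ⟨σ, hσ⟩ := E'.zetaC_add P Q h.scheme.1
    refine (continues_iff_of_mul hX σ (fun s hs => ?_) fun s _ => zetaOf_ne_zero _ s).2 hY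
    rw [mul_comm, ← hσ s hs]
    exact zetaC_congr (c' := fun p n => (countScheme Y p n : ℂ))
      (fun p n hn => by rw [key p n hn, he]; simp) s

/-- Motives whose traces of Frobenius are numbers of points. -/
theorem continues_pointCounted (P : Pieces) (Q : Pieces4) {E : EulerRoots} {X : Scheme.{0}}
    {S : Finset Nat.Primes} {B : Polynomial ℤ} {ε : ℤ} (h : IsPointCounted E X S B ε) :
    Continues E.L ↔ Continues (zetaScheme X) := by
  obtain ⟨Ep, hEp, hEpc⟩ := Q.lpo (fun i => (B.coeff i).toNat) (B.natDegree + 1)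
  obtain ⟨Em, hEm, hEmc⟩ := Q.lpo (fun i => (-B.coeff i).toNat) (B.natDegree + 1)
  rw [← Ep.continues_restrict Q S] at hEpc
  rw [← Em.continues_restrict Q S] at hEmc
  rw [← E.continues_restrict Q S]
  have hB : ∀ (p : Nat.Primes) (n : ℕ),
      ((B.eval (((p : ℕ) : ℤ) ^ n) : ℤ) : ℂ) = Ep.tr p n - Em.tr p n := by
    intro p n
    rw [hEp, hEm, Polynomial.eval_eq_sum_range]
    push_cast
    rw [← Finset.sum_sub_distrib]
    refine Finset.sum_congr rfl fun i _ => ?_
    rw [← sub_mul]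
    congr 1
    have : (B.coeff i) = ((B.coeff i).toNat : ℤ) - ((-B.coeff i).toNat : ℤ) := by omega
    exact_mod_cast congrArg (Int.cast : ℤ → ℂ) this
  set E' := E.restrict (S : Set Nat.Primes)ᶜ with hE'
  set Ep' := Ep.restrict (S : Set Nat.Primes)ᶜ with hEp'
  set Em' := Em.restrict (S : Set Nat.Primes)ᶜ with hEm'
  have key : ∀ (p : Nat.Primes) (n : ℕ), 1 ≤ n →
      (countScheme X p n : ℂ) + Em'.tr p n = Ep'.tr p n + ε * E'.tr p n := by
    intro p n hn
    by_cases hp : p ∈ S
    · rw [E.restrict_tr_of_notMem (by simpa using hp), Ep.restrict_tr_of_notMem (by simpa using hp),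
        Em.restrict_tr_of_notMem (by simpa using hp), h.bad p hp n hn]
      simp
    · rw [E.restrict_tr_of_mem (by simpa using hp), Ep.restrict_tr_of_mem (by simpa using hp),
        Em.restrict_tr_of_mem (by simpa using hp), h.good p hp n hn, hB]
      ring
  obtain ⟨σ, hσ⟩ := Em'.zetaC_add P Q h.scheme
  have hX : Continues (zetaScheme X) ↔ Continues fun s => zetaScheme X s * Em'.L s :=
    continues_iff_of_mul hEmc ((Em'.w : ℝ) + 1) (fun s _ => rfl) fun s hs => Em'.L_ne_zero Q s hs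
  rcases h.sign with he | he
  · rw [hX]
    refine continues_iff_of_mul hEpc (max σ (max ((E'.w : ℝ) + 1) ((Ep'.w : ℝ) + 1)))
      (fun s hs => ?_) fun s hs => ?_
    · rw [max_lt_iff, max_lt_iff] at hs
      rw [← hσ s hs.1, Q.lpr E' s hs.2.1, Q.lpr Ep' s hs.2.2, mul_comm,
        ← zetaC_add (Q.lsm Ep' s hs.2.2) (Q.lsm E' s hs.2.1)]
      exact (zetaC_congr (fun p n hn => by rw [key p n hn, he]; simp) s).symm
    · rw [max_lt_iff, max_lt_iff] at hs
      exact Ep'.L_ne_zero Q s hs.2.2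
  · -- `ζ_X · Em' · E' = Ep'`
    obtain ⟨σ₁, hσ₁⟩ := (bdd_countScheme P h.scheme).summable P
    have h3 : ∀ s : ℂ, max σ (max ((E'.w : ℝ) + 1) (max ((Ep'.w : ℝ) + 1)
        (max ((Em'.w : ℝ) + 1) σ₁))) < s.re →
        E'.L s * (zetaScheme X s * Em'.L s) = Ep'.L s := by
      intro s hs
      simp only [max_lt_iff] at hs
      obtain ⟨g1, g2, g3, g4, g5⟩ := hs
      have hsum : Summable (termC (fun p n => (countScheme X p n : ℂ) + Em'.tr p n) s) := by
        have := (show Summable (termC (fun p n => (countScheme X p n : ℂ)) s) from hσ₁ s g5).add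
          (Q.lsm Em' s g4)
        refine this.congr fun x => ?_
        unfold termC
        ring
      rw [← hσ s g1, Q.lpr E' s g2, Q.lpr Ep' s g3, ← zetaC_add (Q.lsm E' s g2) hsum]
      exact zetaC_congr (fun p n hn => by rw [key p n hn, he]; simp) s
    constructor
    · intro hE
      rw [hX]
      exact (continues_iff_of_mul hE _ (fun s hs => by rw [mul_comm]; exact h3 s hs)
        fun s hs => by
          simp only [max_lt_iff] at hs
          exact E'.L_ne_zero Q s hs.2.1).2 hEpc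
    · intro hc
      refine (continues_iff_of_mul (hX.1 hc) _ h3 fun s hs => ?_).2 hEpc
      simp only [max_lt_iff] at hs
      exact mul_ne_zero (zetaOf_ne_zero _ s) (Em'.L_ne_zero Q s hs.2.2.2.1)

end Pool.Agent.K6.H46.HW
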