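import Pool.Agent.K6.H46.HW.Stm

/-! Piece BND of call46b: convergence. -/

set_option autoImplicit false

open Filter Topology

namespace Pool.Agent.K6.H46.HW

theorem t_BND : S_BND := by
  intro c m hc s hs
  set δ : ℝ := s.re - m with hδ
  have hδ1 : 1 < δ := by linarith
  have h1 : Summable (fun p : Nat.Primes => ((p : ℕ) : ℝ) ^ (-δ)) :=
    Nat.Primes.summable_rpow.2 (by linarith)
  have hq0 : (0 : ℝ) ≤ (2 : ℝ) ^ (-δ) := by positivity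
  have hq1 : (2 : ℝ) ^ (-δ) < 1 :=
    Real.rpow_lt_one_of_one_lt_of_neg (by norm_num) (by linarith)
  have h2 : Summable (fun k : ℕ => ((2 : ℝ) ^ (-δ)) ^ k) := summable_geometric_of_lt_one hq0 hq1
  have h3 := h1.mul_of_nonneg h2 (fun p => by positivity) (fun k => by positivity)
  refine Summable.of_norm_bounded h3 ?_
  rintro ⟨p, k⟩
  have hp0 : 0 < (p : ℕ) := p.2.pos
  have hp0' : (0 : ℝ) < ((p : ℕ) : ℝ) := by exact_mod_cast hp0
  have hp2 : (2 : ℝ) ≤ ((p : ℕ) : ℝ) := by exact_mod_cast p.2.two_le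
  have hk : (1 : ℝ) ≤ ((k + 1 : ℕ) : ℝ) := by
    push_cast
    have : (0 : ℝ) ≤ k := Nat.cast_nonneg k
    linarith
  simp only [term, norm_div, norm_mul, Complex.norm_natCast]
  rw [Complex.norm_natCast_cpow_of_pos hp0]
  have hre : (-(((k + 1 : ℕ) : ℂ) * s)).re = -(((k + 1 : ℕ) : ℝ) * s.re) := by
    rw [Complex.neg_re, Complex.mul_re, Complex.natCast_re, Complex.natCast_im, zero_mul, sub_zero]
  rw [hre]
  have hcc : (c p (k + 1) : ℝ) ≤ ((p : ℕ) : ℝ) ^ (((k + 1 : ℕ) : ℝ) * m) := by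
    have := hc p (k + 1) (by omega)
    have h4 : (c p (k + 1) : ℝ) ≤ (((p : ℕ) ^ ((k + 1) * m) : ℕ) : ℝ) := by exact_mod_cast this
    refine h4.trans (le_of_eq ?_)
    rw [← Nat.cast_mul, Real.rpow_natCast]
    push_cast
    ring
  have h5 : (c p (k + 1) : ℝ) * ((p : ℕ) : ℝ) ^ (-(((k + 1 : ℕ) : ℝ) * s.re)) ≤
      ((p : ℕ) : ℝ) ^ (-δ) * ((2 : ℝ) ^ (-δ)) ^ k := by
    calc (c p (k + 1) : ℝ) * ((p : ℕ) : ℝ) ^ (-(((k + 1 : ℕ) : ℝ) * s.re))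
        ≤ ((p : ℕ) : ℝ) ^ (((k + 1 : ℕ) : ℝ) * m) * ((p : ℕ) : ℝ) ^ (-(((k + 1 : ℕ) : ℝ) * s.re)) := by
          gcongr
      _ = ((p : ℕ) : ℝ) ^ (-δ) * (((p : ℕ) : ℝ) ^ (-δ)) ^ k := by
          rw [← Real.rpow_add hp0', ← Real.rpow_natCast, ← Real.rpow_mul hp0'.le,
            ← Real.rpow_add hp0']
          congr 1
          rw [hδ]
          push_cast
          ring
      _ ≤ ((p : ℕ) : ℝ) ^ (-δ) * ((2 : ℝ) ^ (-δ)) ^ k := by
          have h6 : ((p : ℕ) : ℝ) ^ (-δ) ≤ (2 : ℝ) ^ (-δ) :=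
            Real.rpow_le_rpow_of_nonpos (by norm_num) hp2 (by linarith)
          gcongr
  have h7 : 0 ≤ (c p (k + 1) : ℝ) * ((p : ℕ) : ℝ) ^ (-(((k + 1 : ℕ) : ℝ) * s.re)) := by positivity
  exact (div_le_self h7 hk).trans h5

end Pool.Agent.K6.H46.HW
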