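import Pool.Agent.K6.H46.HW.Stm

set_option autoImplicit false

open MvPolynomial

namespace Pool.Agent.K6.H46.HW

theorem t_CBD : S_CBD := by
  intro m J p n hn
  unfold count points
  have : Fact (p : ℕ).Prime := ⟨p.2⟩
  have hc : Nat.card (GaloisField p n) = (p : ℕ) ^ n := GaloisField.card p n (by omega)
  have hinj : Function.Injective (fun (φ : (MvPolynomial (Fin m) ℤ ⧸ J) →+* GaloisField p n)
      (i : Fin m) => φ (Ideal.Quotient.mk J (X i))) := by
    intro φ ψ h
    refine Ideal.Quotient.ringHom_ext (MvPolynomial.ringHom_ext (fun z => ?_) fun i => ?_)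
    · simp
    · exact congrFun h i
  calc Nat.card ((MvPolynomial (Fin m) ℤ ⧸ J) →+* GaloisField p n)
      ≤ Nat.card (Fin m → GaloisField p n) := Nat.card_le_card_of_injective _ hinj
    _ = (p : ℕ) ^ (n * m) := by
        rw [Nat.card_fun, hc, Nat.card_eq_fintype_card, Fintype.card_fin, ← pow_mul]

end Pool.Agent.K6.H46.HW
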