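import Pool.Agent.K6.H46.HW.Stm2

/-!
# Points of locally closed subsets of schemes locally of finite type over `ℤ` (helper66)
-/

set_option autoImplicit false

open AlgebraicGeometry CategoryTheory

namespace Pool.Agent.K6.H46.HW

theorem t_CLS : S_CLS := by
  rintro X ⟨f, hf⟩ U V hU
  have hft0 : (f.appLE ⊤ U le_top).hom.FiniteType :=
    hf.finiteType_appLE (f := f) (isAffineOpen_top _) hU le_top
  have hft : Algebra.FiniteType ℤ Γ(X, U) := by
    have h1 : (algebraMap ℤ Γ(X, U)).FiniteType := by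
      have h2 : RingHom.FiniteType ((Scheme.ΓSpecIso (CommRingCat.of ℤ)).inv.hom) :=
        RingHom.FiniteType.of_surjective _
          (ConcreteCategory.bijective_of_isIso (Scheme.ΓSpecIso (CommRingCat.of ℤ)).inv).2
      have h3 := hft0.comp h2
      have h4 : algebraMap ℤ Γ(X, U) = (f.appLE ⊤ U le_top).hom.comp
          (Scheme.ΓSpecIso (CommRingCat.of ℤ)).inv.hom := RingHom.ext_int _ _
      rw [h4]
      exact h3
    exact RingHom.finiteType_algebraMap.1 h1
  obtain ⟨I, hI⟩ : ∃ I : Ideal Γ(X, U), {p : PrimeSpectrum Γ(X, U) | hU.fromSpec p ∉ V} =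
      PrimeSpectrum.zeroLocus (I : Set Γ(X, U)) :=
    (PrimeSpectrum.isClosed_iff_zeroLocus_ideal _).1 (hU.fromSpec ⁻¹ᵁ V).2.isClosed_compl
  have hmem : ∀ p : PrimeSpectrum Γ(X, U), I ≤ p.asIdeal ↔ hU.fromSpec p ∉ V := by
    intro p
    have h1 : p ∈ PrimeSpectrum.zeroLocus (I : Set Γ(X, U)) ↔
        p ∈ {p : PrimeSpectrum Γ(X, U) | hU.fromSpec p ∉ V} := by rw [hI]
    exact h1
  have hftI : Algebra.FiniteType ℤ (Γ(X, U) ⧸ I) :=
    hft.of_surjective (Ideal.Quotient.mkₐ ℤ I) (Ideal.Quotient.mkₐ_surjective ℤ I)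
  refine ⟨Γ(X, U) ⧸ I, inferInstance, hftI, fun F _ => ?_⟩
  let g0 : (Γ(X, U) ⧸ I →+* F) → Pt X F := fun φ =>
    Spec.map (CommRingCat.ofHom (φ.comp (Ideal.Quotient.mk I))) ≫ hU.fromSpec
  have hg0 : ∀ φ, Set.range (g0 φ) ⊆ (U : Set X) \ (V : Set X) := by
    rintro φ _ ⟨y, rfl⟩
    refine ⟨?_, ?_⟩
    · rw [← hU.range_fromSpec]
      exact ⟨Spec.map (CommRingCat.ofHom (φ.comp (Ideal.Quotient.mk I))) y, by simp [g0]⟩
    · have h4 := (hmem (Spec.map (CommRingCat.ofHom (φ.comp (Ideal.Quotient.mk I))) y)).1 (by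
        intro a ha
        change (φ.comp (Ideal.Quotient.mk I)) a ∈ PrimeSpectrum.asIdeal y
        rw [RingHom.comp_apply, Ideal.Quotient.eq_zero_iff_mem.2 ha, map_zero]
        exact Ideal.zero_mem _)
      exact h4
  refine ⟨(Equiv.ofBijective (fun φ => (⟨g0 φ, hg0 φ⟩ :
    {f : Pt X F // Set.range f ⊆ (U : Set X) \ (V : Set X)})) ⟨?_, ?_⟩).symm⟩
  · intro φ ψ h
    have h1 : g0 φ = g0 ψ := congrArg Subtype.val h
    have h2 := Spec.map_injective ((cancel_mono hU.fromSpec).1 h1)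
    have h3 : φ.comp (Ideal.Quotient.mk I) = ψ.comp (Ideal.Quotient.mk I) :=
      congrArg CommRingCat.Hom.hom h2
    exact Ideal.Quotient.ringHom_ext h3
  · rintro ⟨h, hh⟩
    have hr : Set.range h ⊆ Set.range hU.fromSpec := by
      rw [hU.range_fromSpec]
      exact fun y hy => (hh hy).1
    let l : Spec (CommRingCat.of F) ⟶ Spec Γ(X, U) := IsOpenImmersion.lift hU.fromSpec h hr
    have hl : l ≫ hU.fromSpec = h := IsOpenImmersion.lift_fac _ _ _
    let g : Γ(X, U) ⟶ CommRingCat.of F := Spec.preimage l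
    have hg : Spec.map g = l := Spec.map_preimage l
    have hIg : ∀ a ∈ I, g.hom a = 0 := by
      let y : PrimeSpectrum F := ⊥
      have h5 : hU.fromSpec (Spec.map g y) ∉ V := by
        rw [hg]
        have h6 : hU.fromSpec (l y) = h y := by
          rw [← hl]; rfl
        rw [h6]
        exact (hh ⟨y, rfl⟩).2
      have h7 := (hmem (Spec.map g y)).2 h5
      intro a ha
      have h8 := h7 ha
      change g.hom a ∈ (⊥ : PrimeSpectrum F).asIdeal at h8
      simpa using h8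
    refine ⟨Ideal.Quotient.lift I g.hom hIg, Subtype.ext ?_⟩
    change Spec.map (CommRingCat.ofHom ((Ideal.Quotient.lift I g.hom hIg).comp
      (Ideal.Quotient.mk I))) ≫ hU.fromSpec = h
    rw [Ideal.Quotient.lift_comp_mk, ← hl, ← hg]
    rfl

end Pool.Agent.K6.H46.HW
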