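import Pool.Agent.K6.H46.HW.Stm

/-! Piece CNT of call46b (helper51). -/

set_option autoImplicit false

open MvPolynomial

namespace Pool.Agent.K6.H46.HW

open Pool.Agent.K6.H18.Cubic Pool.Agent.K6.H18.Cubic.Alg

namespace CNT

variable {m r : ℕ}

lemma aeval_poly (e : Fin r → MvPolynomial (Fin m) ℤ) {F : Type} [Field F]
    (v : Option (Fin r) ⊕ Fin m → F) :
    aeval v (poly e) = ∑ j, v (Sum.inl (some j)) * aeval (fun i => v (Sum.inr i)) (e j) -
      v (Sum.inl none) * (1 - v (Sum.inl none)) := by
  simp only [Pool.Agent.K6.H18.Cubic.poly, map_sub, map_sum, map_mul, aeval_X, map_one, aeval_rename]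
  rfl

/-- the fibration over the `x` -/
def fib (e : Fin r → MvPolynomial (Fin m) ℤ) (F : Type) [Field F] :
    {v : Option (Fin r) ⊕ Fin m → F // ∀ f ∈ ({poly e} : Set (MvPolynomial (Option (Fin r) ⊕ Fin m) ℤ)), aeval v f = 0} ≃
      Σ x : Fin m → F, {u : Option (Fin r) → F //
        ∑ j, u (some j) * aeval x (e j) = u none * (1 - u none)} where
  toFun v := ⟨fun i => v.1 (Sum.inr i), fun o => v.1 (Sum.inl o), by
    have h := v.2 _ rfl
    rw [aeval_poly, sub_eq_zero] at h
    exact h⟩
  invFun y := ⟨Sum.elim y.2.1 y.1, by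
    rintro f rfl
    rw [aeval_poly, sub_eq_zero]
    exact y.2.2⟩
  left_inv v := by
    apply Subtype.ext
    funext i
    rcases i with i | i <;> rfl
  right_inv y := rfl

end CNT

open CNT in
theorem t_CNT (h1 : S_ZER) (h2 : S_LIN) : S_CNT := by
  classical
  intro m r e F _ _
  haveI : Fintype F := Fintype.ofFinite F
  obtain ⟨a1⟩ := h1 _ ({poly e} : Set (MvPolynomial (Option (Fin r) ⊕ Fin m) ℤ)) F
  obtain ⟨a2⟩ := h1 _ (Set.range e) F
  have h3 : points (Hyp e) F = ∑ x : Fin m → F, Nat.card {u : Option (Fin r) → F //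
        ∑ j, u (some j) * aeval x (e j) = u none * (1 - u none)} := by
    unfold points
    rw [Nat.card_congr (a1.trans (fib e F)), Nat.card_sigma]
  have h4 : ∀ x : Fin m → F, Nat.card {u : Option (Fin r) → F //
        ∑ j, u (some j) * aeval x (e j) = u none * (1 - u none)} =
      Nat.card F ^ r + if (∀ j, aeval x (e j) = 0) then Nat.card F ^ r else 0 := by
    intro x
    obtain ⟨h5, h6⟩ := h2 F r (fun j => aeval x (e j))
    split_ifs with h7
    · rw [h6 (funext h7)]
      ring
    · rw [h5 (fun h8 => h7 fun j => congrFun h8 j)]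
      rfl
  have h5 : points (MvPolynomial (Fin m) ℤ ⧸ Ideal.span (Set.range e)) F =
      (Finset.univ.filter fun x : Fin m → F => ∀ j, aeval x (e j) = 0).card := by
    unfold points
    rw [Nat.card_congr a2, Nat.card_eq_fintype_card, Fintype.card_subtype]
    congr 1
    ext x
    simp
  rw [h3, Finset.sum_congr rfl (fun x _ => h4 x), Finset.sum_add_distrib, Finset.sum_const, ← Finset.sum_filter,
    Finset.sum_const, h5]
  simp only [Finset.card_univ, smul_eq_mul, Fintype.card_fun, Fintype.card_fin, Nat.card_eq_fintype_card]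
  ring

end Pool.Agent.K6.H46.HW
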