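import Pool.Agent.K6.H46.HW.Stm

/-! Piece CON of call46b: continuation of `f` and of `ζ(s - c) f(s - r)`. -/

set_option autoImplicit false

open Filter Topology

namespace Pool.Agent.K6.H46.HW

namespace CON

lemma merZ : MeromorphicOn riemannZeta Set.univ := by
  intro x _
  by_cases hx : x = 1
  · subst hx
    set F : ℂ → ℂ := Function.update (fun z : ℂ => (z - 1) * riemannZeta z) 1 1 with hF
    have hc : ContinuousAt F 1 := continuousAt_update_same.2 riemannZeta_residue_one
    have hd : ∀ᶠ z in 𝓝[≠] (1 : ℂ), DifferentiableAt ℂ F z := by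
      filter_upwards [self_mem_nhdsWithin] with z hz
      have hz1 : z ≠ 1 := hz
      have h1 : F =ᶠ[𝓝 z] fun z : ℂ => (z - 1) * riemannZeta z := by
        filter_upwards [isOpen_ne.mem_nhds hz1] with w hw
        exact Function.update_of_ne hw _ _
      have h2 : DifferentiableAt ℂ (fun z : ℂ => (z - 1) * riemannZeta z) z :=
        (differentiableAt_id.sub_const 1).mul (differentiableAt_riemannZeta hz1)
      exact h2.congr_of_eventuallyEq h1
    have hA : AnalyticAt ℂ F 1 :=
      Complex.analyticAt_of_differentiable_on_punctured_nhds_of_continuousAt hd hc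
    refine ⟨2, ?_⟩
    have h3 : (fun z : ℂ => (z - 1) ^ 2 • riemannZeta z) = fun z : ℂ => (z - 1) * F z := by
      funext z
      by_cases hz : z = 1
      · subst hz
        simp
      · rw [hF, Function.update_of_ne hz, smul_eq_mul]
        ring
    rw [h3]
    exact (analyticAt_id.sub analyticAt_const).mul hA
  · exact (analyticOn_riemannZeta x hx).meromorphicAt

lemma comp {Z : ℂ → ℂ} (hZ : MeromorphicOn Z Set.univ) (a : ℂ) :
    MeromorphicOn (fun s => Z (s + a)) Set.univ := by
  intro x _
  exact (hZ (x + a) (Set.mem_univ _)).comp_analyticAt (g := fun s => s + a)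
    (analyticAt_id.add analyticAt_const)

end CON

open CON in
theorem t_CON : S_CON := by
  intro f g c r σ hfg
  constructor
  · rintro ⟨Z, hZ, τ, hτ⟩
    refine ⟨fun s => riemannZeta (s + -c) * Z (s + -r), (comp merZ _).mul (comp hZ _),
      max σ (τ + r), fun s hs => ?_⟩
    show g s = riemannZeta (s + -(c : ℂ)) * Z (s + -(r : ℂ))
    rw [hfg s ((le_max_left _ _).trans_lt hs), ← sub_eq_add_neg, ← sub_eq_add_neg, hτ]
    have := (le_max_right _ _).trans_lt hs
    simp only [Complex.sub_re, Complex.natCast_re]
    linarith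
  · rintro ⟨Z, hZ, τ, hτ⟩
    refine ⟨fun s => Z (s + r) * (riemannZeta (s + (r - c)))⁻¹,
      (comp hZ _).mul (comp merZ _).inv, max (max σ τ) (1 + c), fun s hs => ?_⟩
    have h1 : σ < s.re := ((le_max_left _ _).trans (le_max_left _ _)).trans_lt hs
    have h2 : τ < s.re := ((le_max_right _ _).trans (le_max_left _ _)).trans_lt hs
    have h3 : (1 : ℝ) + c < s.re := (le_max_right _ _).trans_lt hs
    have hr : (0 : ℝ) ≤ r := Nat.cast_nonneg r
    have h4 := hfg (s + r) (by
      simp only [Complex.add_re, Complex.natCast_re]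
      linarith)
    have h5 := hτ (s + r) (by
      simp only [Complex.add_re, Complex.natCast_re]
      linarith)
    have h6 : riemannZeta (s + (r - c)) ≠ 0 := riemannZeta_ne_zero_of_one_le_re (by
      simp only [Complex.add_re, Complex.sub_re, Complex.natCast_re]
      linarith)
    have h7 : s + (r : ℂ) - c = s + (r - c) := by ring
    rw [add_sub_cancel_right, h7] at h4
    show f s = Z (s + r) * (riemannZeta (s + (r - c)))⁻¹
    rw [← h5, h4]
    field_simp

end Pool.Agent.K6.H46.HW
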