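import Pool.Agent.K6.H46.HW.Stm3

/-! Piece DIV of call46b (helper82): quotients. -/

set_option autoImplicit false

open Filter Topology

namespace Pool.Agent.K6.H46.HW

theorem t_DIV (h1 : S_BND) (h2 : S_ADD) : S_DIV := by
  intro c c' c'' hc hc' hadd hC' hC''
  obtain ⟨m, hm⟩ := hc
  obtain ⟨m', hm'⟩ := hc'
  obtain ⟨Z', hZ', σ', hσ'⟩ := hC'
  obtain ⟨Z'', hZ'', σ'', hσ''⟩ := hC''
  refine ⟨Z'' / Z', hZ''.div hZ', max (max ((m : ℝ) + 1) ((m' : ℝ) + 1)) (max σ' σ''),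
    fun s hs => ?_⟩
  rw [max_lt_iff, max_lt_iff, max_lt_iff] at hs
  obtain ⟨⟨s1, s2⟩, s3, s4⟩ := hs
  have e1 : zetaOf c'' s = zetaOf (fun p n => c p n + c' p n) s := by
    unfold zetaOf
    congr 1
    refine tsum_congr fun x => ?_
    rw [← hadd x.1 (x.2 + 1) (by omega)]
  have e2 := h2 c c' s (h1 c m hm s s1) (h1 c' m' hm' s s2)
  have e3 : zetaOf c' s ≠ 0 := Complex.exp_ne_zero _
  rw [Pi.div_apply, ← hσ' s s3, ← hσ'' s s4, e1, e2, mul_div_cancel_right₀ _ e3]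

end Pool.Agent.K6.H46.HW
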