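import Pool.Agent.K6.H18.Cubic.Defs

/-!
# Zeta functions of finitely generated rings, Euler factors of the cohomology of varieties

The hypersurfaces `Hyp e` : `∑ u_j e_j(x) = w (1 - w)`, the elementary polynomials `Elem`, the
Borel-Moore homology theories `BM` and their endomorphisms `BM.Hom` are those of helper18
(`Pool.Agent.K6.H18.Cubic.Defs`).
-/

set_option autoImplicit false

open MvPolynomial AlgebraicGeometry CategoryTheory

namespace Pool.Agent.K6.H46.HW

open Pool.Agent.K6.H18.Cubic Pool.Agent.K6.H18.Cubic.Alg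

/-! ### Zeta functions of finitely generated rings -/

/-- The number of points of `Spec A` with values in the field `F`: the number of homomorphisms
`A → F`. -/
noncomputable def points (A : Type) [CommRing A] (F : Type) [Field F] : ℕ := Nat.card (A →+* F)

/-- The number of points of `Spec A` with values in the field with `p ^ n` elements, `n ≥ 1`. -/
noncomputable def count (A : Type) [CommRing A] (p : Nat.Primes) (n : ℕ) : ℕ :=
  haveI : Fact (p : ℕ).Prime := ⟨p.2⟩
  points A (GaloisField p n)

/-- `exp (∑_p ∑_{n ≥ 1} c(p, n) p ^ (-n s) / n)` -/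
noncomputable def zetaOf (c : Nat.Primes → ℕ → ℕ) (s : ℂ) : ℂ :=
  Complex.exp (∑' x : Nat.Primes × ℕ, (c x.1 (x.2 + 1) : ℂ) *
    ((x.1 : ℕ) : ℂ) ^ (-(((x.2 + 1 : ℕ) : ℂ) * s)) / ((x.2 + 1 : ℕ) : ℂ))

/-- The Hasse-Weil zeta function of the finitely generated ring `A`:
`ζ_A(s) = exp (∑_p ∑_{n ≥ 1} #A(F_{p^n}) p ^ (-n s) / n)`, the product over the maximal ideals `𝔪`
of `A` of `(1 - N(𝔪) ^ (-s))⁻¹`. -/
noncomputable def zeta (A : Type) [CommRing A] : ℂ → ℂ := zetaOf (count A)

/-- The function `f`, defined on some right half-plane, continues meromorphically to `ℂ`. -/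
def Continues (f : ℂ → ℂ) : Prop :=
  ∃ Z : ℂ → ℂ, MeromorphicOn Z Set.univ ∧ ∃ σ : ℝ, ∀ s : ℂ, σ < s.re → f s = Z s

/-! ### Cohomology with Galois action, Euler factors -/

/-- Borel-Moore homology with coefficients in a field `K` and with an action of the group `G`.
The case in point: `K = ℚ_ℓ`, `G` is the absolute Galois group of `ℚ`, and `T.H B a b` is the
`ℓ`-adic Borel-Moore homology of `Spec B` over the algebraic closure of `ℚ` in degree `a + 2 b`, with
coefficients `ℚ_ℓ(b)` (and `0` if `B` is not of finite type); for `B` smooth of pure dimension `d`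
this is `H^(2 (d - b) - a)(Spec B, ℚ_ℓ(d - b))`. -/
structure GalBM (K : Type) [Field K] (G : Type) [Group G] where
  /-- the Borel-Moore homology theory -/
  T : BM ℚ
  [mod : ∀ (B : Alg ℚ) (a b : ℤ), Module K (T.H B a b)]
  [fin : ∀ (B : Alg ℚ) (a b : ℤ), Module.Finite K (T.H B a b)]
  /-- the action of the elements of `G`, by endomorphisms of the theory -/
  act : G → T.Hom T
  act_one : ∀ (B : Alg ℚ) (a b : ℤ) (x : T.H B a b), (act 1).mapf x = x
  act_mul : ∀ (g h : G) (B : Alg ℚ) (a b : ℤ) (x : T.H B a b),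
    (act (g * h)).mapf x = (act g).mapf ((act h).mapf x)
  act_smul : ∀ (g : G) (c : K) (B : Alg ℚ) (a b : ℤ) (x : T.H B a b),
    (act g).mapf (c • x) = c • (act g).mapf x
  push_smul : ∀ {B C : Alg ℚ}, B.IsFiniteType → ∀ (φ : Map B C) (h : φ.IsClosed) (a b : ℤ)
    (c : K) (x : T.H C a b), T.pushf φ h (c • x) = c • T.pushf φ h x
  pull_smul : ∀ {B C : Alg ℚ}, B.IsFiniteType → ∀ (ψ : Map B C) (d : ℕ) (h : ψ.IsSmooth d)
    {b b' : ℤ} (hb : b' = b + d) (a : ℤ) (c : K) (x : T.H B a b),
    T.pullf ψ h hb (c • x) = c • T.pullf ψ h hb x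
  /-- the Borel-Moore homology of `Spec ℚ` is concentrated in degree `0` -/
  base_zero : ∀ a b : ℤ, a + 2 * b ≠ 0 → Subsingleton (T.H (base ℚ) a b)

attribute [instance] GalBM.mod GalBM.fin

namespace GalBM
variable {K : Type} [Field K] {G : Type} [Group G] (D : GalBM K G)

/-- the action of `g` as a linear map -/
noncomputable def lin (g : G) (B : Alg ℚ) (a b : ℤ) : D.T.H B a b →ₗ[K] D.T.H B a b where
  toFun x := (D.act g).mapf x
  map_add' x y := map_add ((D.act g).map B a b) x y
  map_smul' c x := D.act_smul g c B a b x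

/-- the elements invariant under the subgroup `I` -/
def inv (I : Subgroup G) (B : Alg ℚ) (a b : ℤ) : Submodule K (D.T.H B a b) where
  carrier := {x | ∀ g ∈ I, D.lin g B a b x = x}
  add_mem' {x y} hx hy g hg := by rw [map_add, hx g hg, hy g hg]
  zero_mem' g _ := map_zero _
  smul_mem' c x hx g hg := by rw [map_smul, hx g hg]

lemma lin_mul (g h : G) (B : Alg ℚ) (a b : ℤ) (x : D.T.H B a b) :
    D.lin (g * h) B a b x = D.lin g B a b (D.lin h B a b x) := D.act_mul g h B a b x

lemma mem_inv {I : Subgroup G} {φ : G} (hφ : ∀ g ∈ I, φ⁻¹ * g * φ ∈ I) (B : Alg ℚ) (a b : ℤ)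
    (x : D.T.H B a b) (hx : x ∈ D.inv I B a b) : D.lin φ B a b x ∈ D.inv I B a b := by
  intro g hg
  have h1 : g * φ = φ * (φ⁻¹ * g * φ) := by group
  rw [← D.lin_mul, h1, D.lin_mul, hx _ (hφ g hg)]

/-- `det (1 - φ X)` on the elements invariant under the subgroup `I`, which is normalised by `φ`. -/
noncomputable def factor (I : Subgroup G) (φ : G) (hφ : ∀ g ∈ I, φ⁻¹ * g * φ ∈ I) (B : Alg ℚ)
    (a b : ℤ) : Polynomial K :=
  (LinearMap.charpoly ((D.lin φ B a b).restrict (D.mem_inv hφ B a b))).reverse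

end GalBM

/-- The data which define the Euler factors: for every prime number `p` a field `K p`, embedded in
`ℂ`, a theory with coefficients `K p`, a subgroup `I p` of `G` and an element `φ p` which
normalises it. The case in point: `K p = ℚ_ℓ`, `ℓ = ℓ_p ≠ p`; `I p` is the inertia group of a place
over `p` and `φ p` a geometric Frobenius. -/
structure EulerData (G : Type) [Group G] where
  K : Nat.Primes → Type
  [field : ∀ p, Field (K p)]
  ι : ∀ p, K p →+* ℂ
  D : ∀ p, GalBM (K p) G
  I : Nat.Primes → Subgroup G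
  φ : Nat.Primes → G
  normal : ∀ p, ∀ g ∈ I p, (φ p)⁻¹ * g * φ p ∈ I p

attribute [instance] EulerData.field

/-- The inverse Euler factors of `Spec B`, in degree `a + 2 b` and weight `b`: for every prime number
`p` the polynomial `det (1 - φ_p X)` on the invariants of `I_p`. -/
noncomputable def EulerData.euler {G : Type} [Group G] (E : EulerData G) (B : Alg ℚ) (a b : ℤ)
    (p : Nat.Primes) : Polynomial ℂ :=
  ((E.D p).factor (E.I p) (E.φ p) (E.normal p) B a b).map (E.ι p)

/-- The extension of the inverse Euler factors, for a family of Euler data indexed by `J` (for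
instance all choices of the primes `ℓ_p` and of the embeddings), to the varieties of the class `𝒱`.
Every variety in `𝒱` has a torsor under a vector bundle, of some rank `s`, which is an affine variety
`Spec B` (Jouanolou, Thomason), so that its inverse Euler factors are those of `Spec B` with `b`
replaced by `b + s`. -/
structure IsExtensionL {J : Type} (E : J → Alg ℚ → ℤ → ℤ → Nat.Primes → Polynomial ℂ)
    (𝒱 : Over (Spec (CommRingCat.of ℚ)) → Prop)
    (EX : J → Over (Spec (CommRingCat.of ℚ)) → ℤ → ℤ → Nat.Primes → Polynomial ℂ) : Prop where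
  affine_mem : ∀ B : Alg ℚ, B.IsFiniteType → 𝒱 (specOf B)
  affine_eq : ∀ B : Alg ℚ, B.IsFiniteType → ∀ (j : J) (a b : ℤ), EX j (specOf B) a b = E j B a b
  torsor : ∀ X, 𝒱 X → ∃ (B : Alg ℚ) (s : ℕ), B.IsFiniteType ∧
    ∀ (j : J) (a b : ℤ), EX j X a b = E j B a (b + s)

end Pool.Agent.K6.H46.HW
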