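import Pool.Agent.K6.H46.HW.Stm

/-!
The inverse Euler factor depends only on the group and the endomorphisms.
-/

set_option autoImplicit false

open MvPolynomial AlgebraicGeometry CategoryTheory

namespace Pool.Agent.K6.H46.HW

open Pool.Agent.K6.H18.Cubic Pool.Agent.K6.H18.Cubic.Alg

namespace FAC

/-- multiplication by a scalar as an endomorphism of the theory -/
noncomputable def smulHom {K : Type} [Field K] {G : Type} [Group G] (D : GalBM K G) (c : K) :
    D.T.Hom D.T where
  map B a b :=
    { toFun := fun x => c • x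
      map_zero' := smul_zero c
      map_add' := fun x y => smul_add c x y }
  map_push := by
    intro B C hB φ h a b x
    exact (D.push_smul hB φ h a b c x).symm
  map_pull := by
    intro B C hB ψ d h b b' hb a x
    exact (D.pull_smul hB ψ d h hb a c x).symm

end FAC

theorem t_FAC : S_FAC := by
  intro K _ G _ D B B' a b a' b' Φ hΦ I φ hφ
  let L : D.T.H B a b ≃ₗ[K] D.T.H B' a' b' :=
    { Φ with
      map_smul' := fun c x => (hΦ (FAC.smulHom D c) x).symm }
  have hL : ∀ (g : G) (x : D.T.H B a b), L (D.lin g B a b x) = D.lin g B' a' b' (L x) :=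
    fun g x => (hΦ (D.act g) x).symm
  have hmap : (D.inv I B a b).map (L : D.T.H B a b →ₗ[K] D.T.H B' a' b') =
      D.inv I B' a' b' := by
    ext y
    constructor
    · rintro ⟨x, hx, rfl⟩
      intro g hg
      show D.lin g B' a' b' (L x) = L x
      rw [← hL, hx g hg]
    · intro hy
      refine ⟨L.symm y, fun g hg => ?_, L.apply_symm_apply y⟩
      apply L.injective
      rw [hL, L.apply_symm_apply, hy g hg]
  let LI : D.inv I B a b ≃ₗ[K] D.inv I B' a' b' := L.ofSubmodules _ _ hmap
  have hconj : (D.lin φ B' a' b').restrict (D.mem_inv hφ B' a' b') =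
      LI.conj ((D.lin φ B a b).restrict (D.mem_inv hφ B a b)) := by
    refine LinearMap.ext fun y => ?_
    obtain ⟨x, rfl⟩ := LI.surjective y
    rw [LinearEquiv.conj_apply_apply, LinearEquiv.symm_apply_apply]
    apply Subtype.ext
    show D.lin φ B' a' b' (L x) = L (D.lin φ B a b x)
    rw [hL]
  unfold GalBM.factor
  rw [hconj, LinearEquiv.charpoly_conj]

end Pool.Agent.K6.H46.HW
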