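import Pool.Agent.K6.H46.HW.Stm3

/-!
# HDG
-/

set_option autoImplicit false

open MvPolynomial

namespace Pool.Agent.K6.H46.HW

namespace HDG

theorem hel_hom {m : ℕ} (c : Code m) : (hel c).IsHomogeneous 2 := by
  unfold hel
  have h : ∀ i j : Option (Fin m),
      (X i * X j : MvPolynomial (Option (Fin m)) ℤ).IsHomogeneous 2 := by
    intro i j
    have := (isHomogeneous_X ℤ i).mul (isHomogeneous_X ℤ j)
    simpa using this
  split_ifs
  · exact (h _ _).sub (h _ _)
  · have h2 : ((X (some c.2.2.1) + X (some c.2.2.2)) * X none :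
        MvPolynomial (Option (Fin m)) ℤ).IsHomogeneous 2 := by
      rw [add_mul]
      exact (h _ _).add (h _ _)
    exact (h _ _).sub h2
  · exact (h _ _).sub (h _ _)

end HDG

theorem t_HDG : S_HDG := by
  intro m r c
  unfold form
  have h1 : (∑ j, X (Sum.inl (some j)) * rename Sum.inr (hel (c j)) :
      MvPolynomial (Option (Fin r) ⊕ Option (Fin m)) ℤ).IsHomogeneous 3 := by
    refine IsHomogeneous.sum _ _ _ ?_
    intro j _
    have := (isHomogeneous_X ℤ (Sum.inl (some j) : Option (Fin r) ⊕ Option (Fin m))).mul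
      ((HDG.hel_hom (c j)).rename_isHomogeneous
        (f := (Sum.inr : Option (Fin m) → Option (Fin r) ⊕ Option (Fin m))))
    simpa using this
  have h2 : (X (Sum.inl none) * X (Sum.inr none) * (X (Sum.inr none) - X (Sum.inl none)) :
      MvPolynomial (Option (Fin r) ⊕ Option (Fin m)) ℤ).IsHomogeneous 3 := by
    have := ((isHomogeneous_X ℤ (Sum.inl none : Option (Fin r) ⊕ Option (Fin m))).mul
      (isHomogeneous_X ℤ (Sum.inr none : Option (Fin r) ⊕ Option (Fin m)))).mul
      ((isHomogeneous_X ℤ (Sum.inr none : Option (Fin r) ⊕ Option (Fin m))).sub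
        (isHomogeneous_X ℤ (Sum.inl none : Option (Fin r) ⊕ Option (Fin m))))
    simpa using this
  exact h1.sub h2

end Pool.Agent.K6.H46.HW
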