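import Pool.Agent.K6.H46.HW.Stm3

/-! Piece HOM of call46b (helper29): the zeros of the cubic form. -/

set_option autoImplicit false

open MvPolynomial

namespace Pool.Agent.K6.H46.HW

open Pool.Agent.K6.H18.Cubic

namespace HOM

variable {m r : ℕ} {F : Type} [Field F]

/-- the value of `hel` -/
def hev (c : Code m) (z : F) (x : Fin m → F) : F :=
  if c.1 = 0 then x c.2.1 * z - x c.2.2.1 * x c.2.2.2
  else if c.1 = 1 then x c.2.1 * z - (x c.2.2.1 + x c.2.2.2) * z
  else x c.2.1 * z - z * z

lemma aeval_hel (c : Code m) (y : Option (Fin m) → F) :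
    aeval y (hel c) = hev c (y none) (fun i => y (some i)) := by
  unfold hel hev
  split_ifs <;> simp

lemma aeval_el (c : Code m) (x : Fin m → F) : aeval x (el c) = hev c 1 x := by
  unfold el hev
  split_ifs <;> simp

lemma hev_smul (c : Code m) (z : F) (x : Fin m → F) :
    hev c z (fun i => x i * z) = z ^ 2 * hev c 1 x := by
  unfold hev
  split_ifs <;> ring

lemma hev_zero (c : Code m) (x : Fin m → F) : hev c 0 x = - top c x := by
  unfold hev top
  split_ifs <;> ring

lemma aeval_form (c : Fin r → Code m) (v : Option (Fin r) ⊕ Option (Fin m) → F) :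
    aeval v (form c) = ∑ j, v (Sum.inl (some j)) *
        hev (c j) (v (Sum.inr none)) (fun i => v (Sum.inr (some i))) -
      v (Sum.inl none) * v (Sum.inr none) * (v (Sum.inr none) - v (Sum.inl none)) := by
  simp only [form, map_sub, map_sum, map_mul, aeval_X, aeval_rename]
  congr 1
  refine Finset.sum_congr rfl fun j _ => ?_
  rw [aeval_hel]
  rfl

lemma aeval_poly (c : Fin r → Code m) (v : Option (Fin r) ⊕ Fin m → F) :
    aeval v (poly fun j => el (c j)) = ∑ j, v (Sum.inl (some j)) *
        hev (c j) 1 (fun i => v (Sum.inr i)) -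
      v (Sum.inl none) * (1 - v (Sum.inl none)) := by
  simp only [Pool.Agent.K6.H18.Cubic.poly, map_sub, map_sum, map_mul, aeval_X, map_one,
    aeval_rename]
  congr 1
  refine Finset.sum_congr rfl fun j _ => ?_
  rw [← aeval_el]
  rfl

/-- homogeneity -/
lemma form_smul (c : Fin r → Code m) (z : F) (v : Option (Fin r) ⊕ Fin m → F) :
    aeval (Sum.elim (fun o => v (Sum.inl o) * z)
      (fun o => o.elim z (fun i => v (Sum.inr i) * z)) : Option (Fin r) ⊕ Option (Fin m) → F)
      (form c) = z ^ 3 * aeval v (poly fun j => el (c j)) := by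
  rw [aeval_form, aeval_poly]
  simp only [Sum.elim_inl, Sum.elim_inr, Option.elim]
  rw [mul_sub (z ^ 3), Finset.mul_sum]
  congr 1
  · refine Finset.sum_congr rfl fun j _ => ?_
    rw [hev_smul]
    ring
  · ring

/-- the zeros with `z = 0` -/
def eq0 (c : Fin r → Code m) (F : Type) [Field F] :
    {v : {v : Option (Fin r) ⊕ Option (Fin m) → F // aeval v (form c) = 0} //
      v.1 (Sum.inr none) = 0} ≃
    F × {v : (Fin r → F) × (Fin m → F) // ∑ j, v.1 j * top (c j) v.2 = 0} where
  toFun v := (v.1.1 (Sum.inl none), ⟨(fun j => v.1.1 (Sum.inl (some j)),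
    fun i => v.1.1 (Sum.inr (some i))), by
      have h := v.1.2
      rw [aeval_form, v.2] at h
      simp only [hev_zero, mul_neg, Finset.sum_neg_distrib, mul_zero, zero_mul, sub_zero,
        neg_eq_zero] at h
      exact h⟩)
  invFun y := ⟨⟨Sum.elim (fun o => o.elim y.1 y.2.1.1) (fun o => o.elim 0 y.2.1.2), by
    rw [aeval_form]
    simp only [Sum.elim_inl, Sum.elim_inr, Option.elim, hev_zero, mul_neg,
      Finset.sum_neg_distrib, mul_zero, zero_mul, sub_zero, neg_eq_zero]
    exact y.2.2⟩, rfl⟩
  left_inv v := by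
    apply Subtype.ext
    apply Subtype.ext
    funext i
    rcases i with (_ | i) | (_ | i)
    · rfl
    · rfl
    · exact v.2.symm
    · rfl
  right_inv y := rfl

/-- the zeros with `z ≠ 0` -/
noncomputable def eq1 (c : Fin r → Code m) (F : Type) [Field F] :
    {v : {v : Option (Fin r) ⊕ Option (Fin m) → F // aeval v (form c) = 0} //
      ¬ v.1 (Sum.inr none) = 0} ≃
    Fˣ × {v : Option (Fin r) ⊕ Fin m → F // aeval v (poly fun j => el (c j)) = 0} where
  toFun v := (Units.mk0 (v.1.1 (Sum.inr none)) v.2,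
    ⟨Sum.elim (fun o => v.1.1 (Sum.inl o) / v.1.1 (Sum.inr none))
      (fun i => v.1.1 (Sum.inr (some i)) / v.1.1 (Sum.inr none)), by
      have hz := v.2
      have h := form_smul c (v.1.1 (Sum.inr none))
        (Sum.elim (fun o => v.1.1 (Sum.inl o) / v.1.1 (Sum.inr none))
          (fun i => v.1.1 (Sum.inr (some i)) / v.1.1 (Sum.inr none)))
      have h2 : (Sum.elim (fun o => (Sum.elim (fun o => v.1.1 (Sum.inl o) / v.1.1 (Sum.inr none))
          (fun i => v.1.1 (Sum.inr (some i)) / v.1.1 (Sum.inr none)) :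
            Option (Fin r) ⊕ Fin m → F) (Sum.inl o) * v.1.1 (Sum.inr none))
          (fun o => o.elim (v.1.1 (Sum.inr none)) (fun i =>
            (Sum.elim (fun o => v.1.1 (Sum.inl o) / v.1.1 (Sum.inr none))
              (fun i => v.1.1 (Sum.inr (some i)) / v.1.1 (Sum.inr none)) :
            Option (Fin r) ⊕ Fin m → F) (Sum.inr i) * v.1.1 (Sum.inr none))) :
              Option (Fin r) ⊕ Option (Fin m) → F) = v.1.1 := by
        funext i
        rcases i with o | (_ | i)
        · simp only [Sum.elim_inl]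
          exact div_mul_cancel₀ _ hz
        · rfl
        · simp only [Sum.elim_inr, Option.elim]
          exact div_mul_cancel₀ _ hz
      rw [h2, v.1.2] at h
      exact (mul_eq_zero.1 h.symm).resolve_left (pow_ne_zero 3 hz)⟩)
  invFun y := ⟨⟨Sum.elim (fun o => y.2.1 (Sum.inl o) * (y.1 : F))
      (fun o => o.elim (y.1 : F) (fun i => y.2.1 (Sum.inr i) * (y.1 : F))), by
    rw [form_smul, y.2.2, mul_zero]⟩, y.1.ne_zero⟩
  left_inv v := by
    have hz := v.2
    apply Subtype.ext
    apply Subtype.ext
    funext i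
    rcases i with o | (_ | i)
    · exact div_mul_cancel₀ _ hz
    · rfl
    · exact div_mul_cancel₀ _ hz
  right_inv y := by
    apply Prod.ext
    · exact Units.ext rfl
    · apply Subtype.ext
      funext i
      rcases i with o | i
      · exact mul_div_cancel_right₀ _ y.1.ne_zero
      · exact mul_div_cancel_right₀ _ y.1.ne_zero

end HOM

open HOM in
theorem t_HOM : S_HOM := by
  classical
  intro m r c F _ _
  have h1 : Nat.card {v : Option (Fin r) ⊕ Option (Fin m) → F // aeval v (form c) = 0} =
      Nat.card F * Nat.card {v : (Fin r → F) × (Fin m → F) // ∑ j, v.1 j * top (c j) v.2 = 0} +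
      (Nat.card F - 1) *
        Nat.card {v : Option (Fin r) ⊕ Fin m → F // aeval v (poly fun j => el (c j)) = 0} := by
    rw [← Nat.card_congr (Equiv.sumCompl
      (fun v : {v : Option (Fin r) ⊕ Option (Fin m) → F // aeval v (form c) = 0} =>
        v.1 (Sum.inr none) = 0)), Nat.card_sum, Nat.card_congr (eq0 c F),
      Nat.card_congr (eq1 c F), Nat.card_prod, Nat.card_prod, Nat.card_units]
  have h2 : 1 ≤ Nat.card F := Nat.card_pos
  obtain ⟨q, hq⟩ : ∃ q, Nat.card F = q + 1 := ⟨Nat.card F - 1, by omega⟩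
  rw [h1, hq]
  simp only [Nat.add_sub_cancel]
  ring

end Pool.Agent.K6.H46.HW
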