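import Pool.Agent.K6.H46.HW.Stm3

/-!
# Piece INF: the zeros at infinity (helper70, for helper46)
-/

set_option autoImplicit false

namespace Pool.Agent.K6.H46.HW

theorem inf_hyper {F : Type} [Field F] [Finite F] {r : ℕ} (t : Fin r → F) (ht : ¬ ∀ j, t j = 0) :
    Nat.card F * Nat.card {u : Fin r → F // ∑ j, u j * t j = 0} = Nat.card F ^ r := by
  classical
  push Not at ht
  obtain ⟨j0, hj0⟩ := ht
  have hs : ∀ (u : Fin r → F) (a : F),
      ∑ j, (u + a • (Pi.single j0 1 : Fin r → F)) j * t j = (∑ j, u j * t j) + a * t j0 := by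
    intro u a
    simp only [Pi.add_apply, Pi.smul_apply, smul_eq_mul, add_mul, Finset.sum_add_distrib]
    congr 1
    rw [Finset.sum_eq_single j0]
    · simp
    · intro j _ hj
      simp [hj]
    · intro h
      exact absurd (Finset.mem_univ _) h
  let φ : F × {u : Fin r → F // ∑ j, u j * t j = 0} → (Fin r → F) :=
    fun x => x.2.1 + x.1 • (Pi.single j0 1 : Fin r → F)
  have hφ : Function.Bijective φ := by
    constructor
    · rintro ⟨a, u, hu⟩ ⟨b, v, hv⟩ h
      have h1 : u + a • (Pi.single j0 1 : Fin r → F) = v + b • (Pi.single j0 1 : Fin r → F) := h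
      have h2 := hs u a
      have h3 := hs v b
      rw [h1, h3, hu, hv, zero_add, zero_add] at h2
      have h4 : b = a := mul_right_cancel₀ hj0 h2
      subst h4
      have h5 : u = v := add_right_cancel h1
      subst h5
      rfl
    · intro v
      refine ⟨((∑ j, v j * t j) / t j0,
        ⟨v + (-((∑ j, v j * t j) / t j0)) • (Pi.single j0 1 : Fin r → F), ?_⟩), ?_⟩
      · rw [hs]
        field_simp
        ring
      · change v + (-((∑ j, v j * t j) / t j0)) • (Pi.single j0 1 : Fin r → F) +
          ((∑ j, v j * t j) / t j0) • (Pi.single j0 1 : Fin r → F) = v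
        rw [add_assoc, ← add_smul, neg_add_cancel, zero_smul, add_zero]
  have h := Nat.card_eq_of_bijective φ hφ
  rw [Nat.card_prod, Nat.card_fun, Nat.card_eq_fintype_card (α := Fin r), Fintype.card_fin] at h
  exact h

theorem t_INF : S_INF := by
  classical
  intro m r c F _ _
  have : Fintype F := Fintype.ofFinite F
  let e : {v : (Fin r → F) × (Fin m → F) // ∑ j, v.1 j * top (c j) v.2 = 0} ≃
      Σ x : Fin m → F, {u : Fin r → F // ∑ j, u j * top (c j) x = 0} :=
    { toFun := fun v => ⟨v.1.2, ⟨v.1.1, v.2⟩⟩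
      invFun := fun w => ⟨(w.2.1, w.1), w.2.2⟩
      left_inv := fun _ => rfl
      right_inv := fun _ => rfl }
  have h1 : Nat.card {v : (Fin r → F) × (Fin m → F) // ∑ j, v.1 j * top (c j) v.2 = 0} =
      ∑ x : Fin m → F, Nat.card {u : Fin r → F // ∑ j, u j * top (c j) x = 0} := by
    rw [Nat.card_congr e, Nat.card_sigma]
  have h2 : Nat.card {x : Fin m → F // ∀ j, top (c j) x = 0} =
      ∑ x : Fin m → F, if (∀ j, top (c j) x = 0) then 1 else 0 := by
    rw [Nat.card_eq_fintype_card, Fintype.card_subtype, Finset.card_filter]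
  have h3 : Nat.card F ^ (m + r) = ∑ _x : Fin m → F, Nat.card F ^ r := by
    rw [Finset.sum_const, Finset.card_univ, Fintype.card_fun, Fintype.card_fin, smul_eq_mul,
      pow_add, Nat.card_eq_fintype_card]
  rw [h1, h2, h3, Finset.mul_sum, Finset.mul_sum, Finset.mul_sum, ← Finset.sum_add_distrib,
    ← Finset.sum_add_distrib]
  refine Finset.sum_congr rfl (fun x _ => ?_)
  by_cases hx : ∀ j, top (c j) x = 0
  · rw [if_pos hx]
    have h4 : Nat.card {u : Fin r → F // ∑ j, u j * top (c j) x = 0} = Nat.card F ^ r := by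
      have h5 : ∀ u : Fin r → F, ∑ j, u j * top (c j) x = 0 := by
        intro u
        refine Finset.sum_eq_zero (fun j _ => ?_)
        rw [hx j, mul_zero]
      rw [Nat.card_congr (Equiv.subtypeUnivEquiv h5), Nat.card_fun,
        Nat.card_eq_fintype_card (α := Fin r), Fintype.card_fin]
    rw [h4, pow_succ]
    ring
  · rw [if_neg hx, inf_hyper _ hx]
    ring

end Pool.Agent.K6.H46.HW
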