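import Pool.Agent.K6.H46.HW.Stm
import Pool.Agent.K6.H18.Cubic.Final2

/-!
# Piece ISO: the Borel-Moore homology of the hypersurface
-/

set_option autoImplicit false

open MvPolynomial AlgebraicGeometry CategoryTheory

namespace Pool.Agent.K6.H46.HW

open Pool.Agent.K6.H18.Cubic Pool.Agent.K6.H18.Cubic.Alg

namespace ISO

/-- the second factor, if the first one vanishes -/
def sndEquiv (A B : Type) [AddCommGroup A] [AddCommGroup B] (h : Subsingleton A) : B ≃+ A × B where
  toFun x := (0, x)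
  invFun x := x.2
  left_inv _ := rfl
  right_inv x := Prod.ext (Subsingleton.elim _ _) rfl
  map_add' x y := by simp

/-- the unbundled form -/
theorem main {k : Type} [CommRing k] (T : BorelMoore k) (m r : ℕ)
    (e : Fin r → MvPolynomial (Fin m) k) (B : Type) [CommRing B] [Algebra k B]
    (π : MvPolynomial (Fin m) k →ₐ[k] B) (hπ : Function.Surjective π)
    (hker : RingHom.ker π = Ideal.span (Set.range e)) (a b : ℤ)
    (hs : Subsingleton (T.H (MvPolynomial (Fin m) k) a b)) :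
    ∃ Φ : T.H B a b ≃+ T.H (Hyp e) a (b + r),
      ∀ (h : T.Hom T) (x : T.H B a b), h.map (Hyp e) a (b + r) (Φ x) = Φ (h.map B a b x) := by
  have h0 : ∀ j, π (e j) = 0 := fun j => by
    have : e j ∈ RingHom.ker π := by rw [hker]; exact Ideal.subset_span ⟨j, rfl⟩
    exact this
  have hT := T.sum_bijective r 0 (by simp) (MvPolynomial (Fin m) k) e
    (fun j hj => absurd hj (by simp)) B π hπ hker h0 b (b + r) rfl a
  let η : T.H (MvPolynomial (Fin m) k) a b × T.H B a b ≃+ T.H (Cub e) a (b + r) :=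
    AddEquiv.ofBijective (T.sumHom e π hπ h0 rfl a) hT
  have hψ : ∀ x, ((equivCub e).symm : Cub e →ₐ[k] Hyp e) x =
      ((isEmptyRingEquiv (Cub e) (Fin 0)).trans (equivCub e).symm.toRingEquiv)
        (MvPolynomial.C x) := by
    intro x
    simp only [RingEquiv.trans_apply]
    have h3 : isEmptyRingEquiv (Cub e) (Fin 0) (C x) = x := by
      rw [← isEmptyRingEquiv_symm_apply (Cub e) (Fin 0) x, RingEquiv.apply_symm_apply]
    rw [h3]; rfl
  have hsm := smoothRel_of_equiv 0
    ((isEmptyRingEquiv (Cub e) (Fin 0)).trans (equivCub e).symm.toRingEquiv)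
    ((equivCub e).symm : Cub e →ₐ[k] Hyp e) hψ
  have hb : b + (r : ℤ) = b + r + (0 : ℕ) := by simp
  let ρ : T.H (Cub e) a (b + r) ≃+ T.H (Hyp e) a (b + r) :=
    AddEquiv.ofBijective (T.pull ((equivCub e).symm : Cub e →ₐ[k] Hyp e) 0 hsm hb a)
      (T.homotopy 0 ((isEmptyRingEquiv (Cub e) (Fin 0)).trans (equivCub e).symm.toRingEquiv)
        ((equivCub e).symm : Cub e →ₐ[k] Hyp e) hψ hsm hb a)
  refine ⟨((sndEquiv _ _ hs).trans η).trans ρ, fun h x => ?_⟩
  have h1 : ∀ y, h.map (Hyp e) a (b + r) (ρ y) = ρ (h.map (Cub e) a (b + r) y) := fun y =>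
    h.map_pull ((equivCub e).symm : Cub e →ₐ[k] Hyp e) 0 hsm hb a y
  have h2 : ∀ y, h.map (Cub e) a (b + r) (η y) =
      η (h.map (MvPolynomial (Fin m) k) a b y.1, h.map B a b y.2) := fun y =>
    h.map_sum e π hπ h0 rfl a y
  show h.map (Hyp e) a (b + r) (ρ (η (0, x))) = ρ (η (0, h.map B a b x))
  rw [h1, h2, map_zero]

end ISO

theorem t_ISO : S_ISO := by
  intro T m r e B _ _ _ π hπ hker a b hs
  obtain ⟨Φ, hΦ⟩ := ISO.main T.toBorelMoore m r e B π hπ hker a b hs
  exact ⟨Φ, fun h x => hΦ h.toHom x⟩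

end Pool.Agent.K6.H46.HW
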