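import Pool.Agent.K6.H46.HW.Stm4

/-!
# LFP: finite Euler products are meromorphic and do not vanish on a half-plane
-/

set_option autoImplicit false

namespace Pool.Agent.K6.H46.HW

namespace LFPP

/-- one factor -/
lemma factor (p : Nat.Primes) (α : ℂ) (x : ℂ) :
    MeromorphicAt (fun s : ℂ => (1 - α * ((p : ℕ) : ℂ) ^ (-s))⁻¹) x := by
  have hp : ((p : ℕ) : ℂ) ≠ 0 := Nat.cast_ne_zero.2 p.2.ne_zero
  have h1 : AnalyticAt ℂ (fun s : ℂ => ((p : ℕ) : ℂ) ^ (-s)) x := by
    have h : Differentiable ℂ (fun s : ℂ => ((p : ℕ) : ℂ) ^ (-s)) := by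
      intro s
      exact (differentiableAt_id.neg).const_cpow (Or.inl hp)
    exact h.analyticAt x
  exact ((analyticAt_const.sub (analyticAt_const.mul h1)).meromorphicAt).inv

lemma mset (p : Nat.Primes) (M : Multiset ℂ) (x : ℂ) :
    MeromorphicAt (fun s : ℂ => (M.map fun α => (1 - α * ((p : ℕ) : ℂ) ^ (-s))⁻¹).prod) x := by
  induction M using Multiset.induction_on with
  | empty => simp
  | cons a M ih =>
    have h := (factor p a x).mul ih
    refine h.congr (Filter.Eventually.of_forall fun s => ?_)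
    simp

lemma fset (R : Nat.Primes → Multiset ℂ) (S : Finset Nat.Primes) (x : ℂ) :
    MeromorphicAt (fun s : ℂ => ∏ p ∈ S,
      ((R p).map fun α => (1 - α * ((p : ℕ) : ℂ) ^ (-s))⁻¹).prod) x := by
  classical
  induction S using Finset.induction_on with
  | empty => simp
  | insert a S ha ih =>
    have h := (mset a (R a) x).mul ih
    refine h.congr (Filter.Eventually.of_forall fun s => ?_)
    simp [Finset.prod_insert ha]

end LFPP

open LFPP in
theorem t_LFP : S_LFP := by
  intro E S hS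
  have h1 : E.L = fun s : ℂ => ∏ p ∈ S,
      ((E.R p).map fun α => (1 - α * ((p : ℕ) : ℂ) ^ (-s))⁻¹).prod := by
    funext s
    rw [EulerRoots.L]
    refine tprod_eq_prod fun p hp => ?_
    rw [hS p hp]
    simp
  have h2 : MeromorphicOn E.L Set.univ := by
    intro x _
    rw [h1]
    exact fset E.R S x
  exact ⟨⟨E.L, h2, 0, fun _ _ => rfl⟩, ⟨fun s => (E.L s)⁻¹, fun x hx => (h2 x hx).inv, 0,
    fun _ _ => rfl⟩⟩

end Pool.Agent.K6.H46.HW
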