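import Pool.Agent.K6.H46.HW.Stm

/-!
# Piece LIN: the solutions of `∑ u_j c_j = w (1 - w)` over a finite field (helper21, for helper46)
-/

set_option autoImplicit false

namespace Pool.Agent.K6.H46.HW

theorem t_LIN : S_LIN := by
  intro F _ _ r c
  refine ⟨fun hc => ?_, fun hc => ?_⟩
  · obtain ⟨j0, hj0⟩ : ∃ j, c j ≠ 0 := by
      by_contra h
      push Not at h
      exact hc (funext h)
    have hsum : ∀ v : Option (Fin r) → F, ∑ j, v (some j) * c j =
        v (some j0) * c j0 + ∑ j ∈ Finset.univ.erase j0, v (some j) * c j := fun v =>
      (Finset.add_sum_erase _ _ (Finset.mem_univ j0)).symm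
    let f : {v : Option (Fin r) → F // ∑ j, v (some j) * c j = v none * (1 - v none)} →
        ({i : Option (Fin r) // i ≠ some j0} → F) := fun v i => v.1 i.1
    have hf : Function.Bijective f := by
      constructor
      · intro v v' h
        have h1 : ∀ i, i ≠ some j0 → v.1 i = v'.1 i := fun i hi => congrFun h ⟨i, hi⟩
        apply Subtype.ext
        funext i
        by_cases hi : i = some j0
        · subst hi
          have e1 := v.2
          have e2 := v'.2
          rw [hsum] at e1 e2
          have e3 : ∑ j ∈ Finset.univ.erase j0, v.1 (some j) * c j =
              ∑ j ∈ Finset.univ.erase j0, v'.1 (some j) * c j := by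
            apply Finset.sum_congr rfl
            intro j hj
            rw [h1 (some j) (fun h => (Finset.ne_of_mem_erase hj) (Option.some.inj h))]
          rw [h1 none (by simp), e3] at e1
          exact mul_right_cancel₀ hj0 (by linear_combination e1 - e2)
        · exact h1 i hi
      · intro u
        let w : F := u ⟨none, by simp⟩
        let R : F := ∑ j ∈ (Finset.univ.erase j0).attach,
          u ⟨some j.1, fun h => (Finset.ne_of_mem_erase j.2) (Option.some.inj h)⟩ * c j.1
        let v : Option (Fin r) → F := fun i =>
          if h : i = some j0 then (w * (1 - w) - R) / c j0 else u ⟨i, h⟩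
        have hv : ∀ i (hi : i ≠ some j0), v i = u ⟨i, hi⟩ := fun i hi => dif_neg hi
        have hv0 : v (some j0) = (w * (1 - w) - R) / c j0 := dif_pos rfl
        have hR : ∑ j ∈ Finset.univ.erase j0, v (some j) * c j = R := by
          rw [← Finset.sum_attach]
          apply Finset.sum_congr rfl
          intro j _
          rw [hv (some j.1) (fun h => (Finset.ne_of_mem_erase j.2) (Option.some.inj h))]
        refine ⟨⟨v, ?_⟩, ?_⟩
        · rw [hsum, hR, hv0, div_mul_cancel₀ _ hj0, hv none (by simp)]
          ring
        · funext i
          exact hv i.1 i.2
    rw [Nat.card_eq_of_bijective f hf, Nat.card_fun]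
    congr 1
    rw [Nat.card_eq_fintype_card, Fintype.card_subtype_compl, Fintype.card_subtype_eq,
      Fintype.card_option, Fintype.card_fin]
    rfl
  · subst hc
    let g : Bool × (Fin r → F) → {v : Option (Fin r) → F //
        ∑ j, v (some j) * (0 : Fin r → F) j = v none * (1 - v none)} := fun x =>
      ⟨fun i => i.elim (if x.1 then 1 else 0) x.2, by
        rcases x with ⟨b, u⟩
        cases b <;> simp⟩
    have hg : Function.Bijective g := by
      constructor
      · rintro ⟨b, u⟩ ⟨b', u'⟩ h
        have h1 : ∀ i : Option (Fin r), i.elim (if b then 1 else 0 : F) u =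
            i.elim (if b' then 1 else 0 : F) u' := fun i => congrFun (congrArg Subtype.val h) i
        have h2 : u = u' := funext fun j => h1 (some j)
        have h3 := h1 none
        have h4 : b = b' := by
          cases b <;> cases b'
          · rfl
          · simp at h3
          · simp at h3
          · rfl
        rw [h2, h4]
      · rintro ⟨v, hv⟩
        have hv2 : v none = 0 ∨ v none = 1 := by
          simp only [Pi.zero_apply, mul_zero, Finset.sum_const_zero] at hv
          rcases mul_eq_zero.1 hv.symm with h | h
          · exact Or.inl h
          · exact Or.inr (sub_eq_zero.1 h).symm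
        rcases hv2 with h | h
        · refine ⟨(false, fun j => v (some j)), Subtype.ext (funext fun i => ?_)⟩
          cases i with
          | none => simpa [g] using h.symm
          | some j => rfl
        · refine ⟨(true, fun j => v (some j)), Subtype.ext (funext fun i => ?_)⟩
          cases i with
          | none => simpa [g] using h.symm
          | some j => rfl
    rw [← Nat.card_eq_of_bijective g hg, Nat.card_prod, Nat.card_fun]
    simp

end Pool.Agent.K6.H46.HW
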