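import Pool.Agent.K6.H46.HW.Stm4

/-! Piece LPO of call46b (helper63; the lemmas on sums follow piece QM1 of helper52). -/

set_option autoImplicit false

namespace Pool.Agent.K6.H46.HW

namespace LPO

/-- bounded, with a zeta function which continues -/
def P (c : Nat.Primes → ℕ → ℕ) : Prop :=
  (∃ m : ℕ, ∀ (p : Nat.Primes) (n : ℕ), 1 ≤ n → c p n ≤ (p : ℕ) ^ (n * m)) ∧ Continues (zetaOf c)

lemma zero : P (fun _ _ => 0) := by
  refine ⟨⟨0, fun p n _ => Nat.zero_le _⟩, fun _ => 1, MeromorphicOn.const 1, 0, fun s _ => ?_⟩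
  simp [zetaOf]

lemma add (h1 : S_BND) (h2 : S_ADD) {c c' : Nat.Primes → ℕ → ℕ} (h : P c) (h' : P c') :
    P (fun p n => c p n + c' p n) := by
  obtain ⟨⟨m, hm⟩, Z, hZ, σ, hσ⟩ := h
  obtain ⟨⟨m', hm'⟩, Z', hZ', σ', hσ'⟩ := h'
  refine ⟨⟨max m m' + 1, fun p n hn => ?_⟩, ?_⟩
  · have hp1 : 1 ≤ (p : ℕ) := p.2.one_lt.le
    have h1 : c p n ≤ (p : ℕ) ^ (n * max m m') :=
      (hm p n hn).trans (Nat.pow_le_pow_right hp1 (Nat.mul_le_mul_left n (le_max_left _ _)))
    have h2 : c' p n ≤ (p : ℕ) ^ (n * max m m') :=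
      (hm' p n hn).trans (Nat.pow_le_pow_right hp1 (Nat.mul_le_mul_left n (le_max_right _ _)))
    have h3 : 2 ≤ (p : ℕ) ^ n := p.2.two_le.trans (Nat.le_self_pow (by omega) _)
    calc c p n + c' p n ≤ (p : ℕ) ^ (n * max m m') * 2 := by omega
      _ ≤ (p : ℕ) ^ (n * max m m') * (p : ℕ) ^ n := Nat.mul_le_mul_left _ h3
      _ = (p : ℕ) ^ (n * (max m m' + 1)) := by rw [← pow_add, mul_add, mul_one]
  · refine ⟨fun s => Z s * Z' s, hZ.mul hZ', max (max σ σ') (max (m + 1) (m' + 1)),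
      fun s hs => ?_⟩
    have a1 : σ < s.re := ((le_max_left _ _).trans (le_max_left _ _)).trans_lt hs
    have a2 : σ' < s.re := ((le_max_right _ _).trans (le_max_left _ _)).trans_lt hs
    have a3 : (m : ℝ) + 1 < s.re := ((le_max_left _ _).trans (le_max_right _ _)).trans_lt hs
    have a4 : (m' : ℝ) + 1 < s.re := ((le_max_right _ _).trans (le_max_right _ _)).trans_lt hs
    rw [h2 c c' s (h1 c m hm s a3) (h1 c' m' hm' s a4), hσ s a1, hσ' s a2]

lemma nat_mul (h1 : S_BND) (h2 : S_ADD) {c : Nat.Primes → ℕ → ℕ} (h : P c) (k : ℕ) :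
    P (fun p n => k * c p n) := by
  induction k with
  | zero =>
    have : (fun (p : Nat.Primes) (n : ℕ) => 0 * c p n) = fun _ _ => 0 := by
      funext p n
      simp
    rw [this]
    exact zero
  | succ k ih =>
    have : (fun (p : Nat.Primes) (n : ℕ) => (k + 1) * c p n) = fun p n => k * c p n + c p n := by
      funext p n
      ring
    rw [this]
    exact add h1 h2 ih h

lemma pow (h3 : S_RZ) (h5 : S_CON) (i : ℕ) : P (fun p n => ((p : ℕ) ^ n) ^ i) := by
  have he : (fun (p : Nat.Primes) (n : ℕ) => ((p : ℕ) ^ n) ^ i) =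
      fun (p : Nat.Primes) (n : ℕ) => (p : ℕ) ^ (n * i) := by
    funext p n
    rw [pow_mul]
  rw [he]
  refine ⟨⟨i, fun p n _ => le_rfl⟩, ?_⟩
  refine (h5 (fun _ => 1) _ i 0 (i + 1) fun s hs => ?_).1
    ⟨fun _ => 1, MeromorphicOn.const 1, 0, fun _ _ => rfl⟩
  rw [h3 i s hs, mul_one]

lemma poly (h1 : S_BND) (h2 : S_ADD) (h3 : S_RZ) (h5 : S_CON) (b : ℕ → ℕ) (m : ℕ) :
    P (fun p n => ∑ i ∈ Finset.range m, b i * ((p : ℕ) ^ n) ^ i) := by
  induction m with
  | zero => simpa using zero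
  | succ m ih =>
    simp only [Finset.sum_range_succ]
    exact add h1 h2 ih (nat_mul h1 h2 (pow h3 h5 m) (b m))

/-- the inverse roots: `p ^ i` with multiplicity `b i` -/
def roots (b : ℕ → ℕ) (p : Nat.Primes) (m : ℕ) : Multiset ℂ :=
  ∑ i ∈ Finset.range m, Multiset.replicate (b i) (((p : ℕ) : ℂ) ^ i)

lemma roots_succ (b : ℕ → ℕ) (p : Nat.Primes) (m : ℕ) :
    roots b p (m + 1) = roots b p m + Multiset.replicate (b m) (((p : ℕ) : ℂ) ^ m) :=
  Finset.sum_range_succ _ _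

lemma card_roots (b : ℕ → ℕ) (p : Nat.Primes) (m : ℕ) :
    Multiset.card (roots b p m) = ∑ i ∈ Finset.range m, b i := by
  induction m with
  | zero => simp [roots]
  | succ m ih =>
    rw [roots_succ, Multiset.card_add, ih, Multiset.card_replicate, Finset.sum_range_succ]

lemma mem_roots (b : ℕ → ℕ) (p : Nat.Primes) (m : ℕ) (α : ℂ) (h : α ∈ roots b p m) :
    ∃ i < m, α = ((p : ℕ) : ℂ) ^ i := by
  induction m with
  | zero => simp [roots] at h
  | succ m ih =>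
    rw [roots_succ, Multiset.mem_add] at h
    rcases h with h | h
    · obtain ⟨i, hi, e⟩ := ih h
      exact ⟨i, by omega, e⟩
    · exact ⟨m, by omega, Multiset.eq_of_mem_replicate h⟩

lemma tr_roots (b : ℕ → ℕ) (p : Nat.Primes) (m n : ℕ) :
    ((roots b p m).map fun α => α ^ n).sum =
      ((∑ i ∈ Finset.range m, b i * ((p : ℕ) ^ n) ^ i : ℕ) : ℂ) := by
  induction m with
  | zero => simp [roots]
  | succ m ih =>
    rw [roots_succ, Multiset.map_add, Multiset.sum_add, ih, Multiset.map_replicate,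
      Multiset.sum_replicate, nsmul_eq_mul, Finset.sum_range_succ]
    push_cast
    congr 1
    ring

/-- the Euler product -/
noncomputable def eul (b : ℕ → ℕ) (m : ℕ) : EulerRoots where
  R p := roots b p m
  N := ∑ i ∈ Finset.range m, b i
  w := m
  card_le p := (card_roots b p m).le
  norm_le p α hα := by
    obtain ⟨i, hi, rfl⟩ := mem_roots b p m α hα
    rw [norm_pow, Complex.norm_natCast]
    exact pow_le_pow_right₀ (by exact_mod_cast p.2.one_lt.le) hi.le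

lemma tr_eul (b : ℕ → ℕ) (m : ℕ) (p : Nat.Primes) (n : ℕ) :
    (eul b m).tr p n = ((∑ i ∈ Finset.range m, b i * ((p : ℕ) ^ n) ^ i : ℕ) : ℂ) :=
  tr_roots b p m n

lemma zetaC_eul (b : ℕ → ℕ) (m : ℕ) (s : ℂ) :
    zetaC (eul b m).tr s = zetaOf (fun p n => ∑ i ∈ Finset.range m, b i * ((p : ℕ) ^ n) ^ i) s := by
  unfold zetaC zetaOf termC
  congr 1
  refine tsum_congr fun x => ?_
  rw [tr_eul]

end LPO

open LPO in
theorem t_LPO (h1 : S_BND) (h2 : S_ADD) (h3 : S_RZ) (h4 : S_LPR) (h5 : S_CON) : S_LPO := by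
  intro b m
  refine ⟨eul b m, fun p n => tr_eul b m p n, ?_⟩
  obtain ⟨-, Z, hZ, σ, hσ⟩ := poly h1 h2 h3 h5 b m
  refine ⟨Z, hZ, max σ (m + 1), fun s hs => ?_⟩
  have a1 : σ < s.re := (le_max_left _ _).trans_lt hs
  have a2 : (m : ℝ) + 1 < s.re := (le_max_right _ _).trans_lt hs
  rw [h4 (eul b m) s a2, zetaC_eul, hσ s a1]

end Pool.Agent.K6.H46.HW
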