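import Pool.Agent.K6.H46.HW.Stm4

/-! Piece LPR of call46b (helper3). -/

set_option autoImplicit false

namespace Pool.Agent.K6.H46.HW

namespace LPR

/-- the logarithm of a finite product -/
theorem hasSum_log (P : ℂ) (M : Multiset ℂ) (hM : ∀ α ∈ M, ‖α * P‖ < 1) :
    HasSum (fun n : ℕ => (M.map fun α => α ^ (n + 1)).sum * P ^ (n + 1) / ((n + 1 : ℕ) : ℂ))
      (M.map fun α => -Complex.log (1 - α * P)).sum := by
  induction M using Multiset.induction_on with
  | empty => simp
  | cons a M ih =>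
    have h1 := ih (fun α hα => hM α (Multiset.mem_cons_of_mem hα))
    have h2 := Complex.hasSum_taylorSeries_neg_log (hM a (Multiset.mem_cons_self a M))
    have h3 := (hasSum_nat_add_iff' 1).2 h2
    simp only [Finset.range_one, Finset.sum_singleton, Nat.cast_zero, div_zero, sub_zero] at h3
    rw [Multiset.map_cons, Multiset.sum_cons]
    have h4 := h3.add h1
    have e : (fun n : ℕ => ((a ::ₘ M).map fun α => α ^ (n + 1)).sum * P ^ (n + 1) / ((n + 1 : ℕ) : ℂ)) =
        fun n : ℕ => (a * P) ^ (n + 1) / ((n + 1 : ℕ) : ℂ) +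
          (M.map fun α => α ^ (n + 1)).sum * P ^ (n + 1) / ((n + 1 : ℕ) : ℂ) := by
      funext n
      rw [Multiset.map_cons, Multiset.sum_cons, mul_pow]
      ring
    rw [e]
    exact h4

end LPR

theorem t_LPR (h : S_LSM) : S_LPR := by
  intro E s hs
  have hsum := h E s hs
  have h1 : HasSum (fun p : Nat.Primes => ∑' n, termC E.tr s (p, n)) (∑' x, termC E.tr s x) :=
    hsum.hasSum.prod_fiberwise (fun p => (hsum.prod_factor p).hasSum)
  have h2 := h1.cexp
  have h3 : zetaC E.tr s = Complex.exp (∑' x, termC E.tr s x) := rfl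
  rw [h3, ← h2.tprod_eq]
  unfold EulerRoots.L
  refine tprod_congr fun p => ?_
  have hp0 : (0 : ℝ) < ((p : ℕ) : ℝ) := by exact_mod_cast p.2.pos
  set P : ℂ := ((p : ℕ) : ℂ) ^ (-s) with hP
  have hPn : ‖P‖ = ((p : ℕ) : ℝ) ^ (-s.re) := by
    rw [hP, Complex.norm_natCast_cpow_of_pos p.2.pos, Complex.neg_re]
  have hlt : ∀ α ∈ E.R p, ‖α * P‖ < 1 := by
    intro α hα
    rw [norm_mul, hPn]
    have h4 := E.norm_le p α hα
    calc ‖α‖ * ((p : ℕ) : ℝ) ^ (-s.re) ≤ ((p : ℕ) : ℝ) ^ E.w * ((p : ℕ) : ℝ) ^ (-s.re) :=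
          mul_le_mul_of_nonneg_right h4 (by positivity)
      _ = ((p : ℕ) : ℝ) ^ ((E.w : ℝ) + -s.re) := by
          rw [Real.rpow_add hp0, Real.rpow_natCast]
      _ < 1 := Real.rpow_lt_one_of_one_lt_of_neg (by exact_mod_cast p.2.one_lt) (by linarith)
  have h5 : ∑' n, termC E.tr s (p, n) = ((E.R p).map fun α => -Complex.log (1 - α * P)).sum := by
    rw [← (LPR.hasSum_log P (E.R p) hlt).tsum_eq]
    refine tsum_congr fun n => ?_
    simp only [termC, EulerRoots.tr]
    congr 2
    rw [hP, ← Complex.cpow_mul_nat]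
    congr 1
    push_cast
    ring
  simp only [Function.comp_apply]
  rw [h5, Complex.exp_multiset_sum, Multiset.map_map]
  congr 1
  refine Multiset.map_congr rfl fun α hα => ?_
  have h6 : 1 - α * P ≠ 0 := by
    intro h0
    have h7 : α * P = 1 := (sub_eq_zero.1 h0).symm
    have h8 := hlt α hα
    rw [h7, norm_one] at h8
    exact lt_irrefl _ h8
  rw [Function.comp_apply, Complex.exp_neg, Complex.exp_log h6]

end Pool.Agent.K6.H46.HW
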