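import Pool.Agent.K6.H46.HW.Stm4

/-!
Piece LSM (helper31): convergence of the series.
-/

set_option autoImplicit false

namespace Pool.Agent.K6.H46.HW

namespace LSM

theorem norm_sum_pow_le (M : Multiset ℂ) (B : ℝ) (hM : ∀ α ∈ M, ‖α‖ ≤ B) (k : ℕ) :
    ‖(M.map fun α => α ^ k).sum‖ ≤ (Multiset.card M : ℝ) * B ^ k := by
  induction M using Multiset.induction_on with
  | empty => simp
  | cons a M ih =>
    rw [Multiset.map_cons, Multiset.sum_cons, Multiset.card_cons]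
    refine (norm_add_le _ _).trans ?_
    have h1 : ‖a ^ k‖ ≤ B ^ k := by
      rw [norm_pow]
      exact pow_le_pow_left₀ (norm_nonneg _) (hM a (Multiset.mem_cons_self a M)) k
    have h2 := ih (fun α hα => hM α (Multiset.mem_cons_of_mem hα))
    push_cast
    linarith

end LSM

theorem t_LSM (h : S_BND) : S_LSM := by
  intro E s hs
  have h1 : Summable (term (fun p n => (p : ℕ) ^ (n * E.w)) s) :=
    h _ E.w (fun p n _ => le_rfl) s hs
  refine Summable.of_norm_bounded (h1.norm.mul_left (E.N : ℝ)) ?_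
  rintro ⟨p, n⟩
  have hp0 : (0 : ℝ) ≤ ((p : ℕ) : ℝ) ^ E.w := by positivity
  have hb : ‖E.tr p (n + 1)‖ ≤ (E.N : ℝ) * ‖(((p : ℕ) ^ ((n + 1) * E.w) : ℕ) : ℂ)‖ := by
    have e1 := LSM.norm_sum_pow_le (E.R p) _ (E.norm_le p) (n + 1)
    have e2 : (Multiset.card (E.R p) : ℝ) ≤ E.N := by exact_mod_cast E.card_le p
    have e3 : ‖(((p : ℕ) ^ ((n + 1) * E.w) : ℕ) : ℂ)‖ = (((p : ℕ) : ℝ) ^ E.w) ^ (n + 1) := by
      rw [Complex.norm_natCast]
      push_cast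
      rw [← pow_mul, mul_comm (n + 1)]
    rw [e3]
    exact e1.trans (mul_le_mul_of_nonneg_right e2 (pow_nonneg hp0 _))
  show ‖E.tr p (n + 1) * ((p : ℕ) : ℂ) ^ (-(((n + 1 : ℕ) : ℂ) * s)) / ((n + 1 : ℕ) : ℂ)‖ ≤
    (E.N : ℝ) * ‖(((p : ℕ) ^ ((n + 1) * E.w) : ℕ) : ℂ) *
      ((p : ℕ) : ℂ) ^ (-(((n + 1 : ℕ) : ℂ) * s)) / ((n + 1 : ℕ) : ℂ)‖
  rw [norm_div, norm_mul, norm_div, norm_mul, ← mul_div_assoc, ← mul_assoc]
  gcongr

end Pool.Agent.K6.H46.HW
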