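import Pool.Agent.K6.H46.HW.Stm

set_option autoImplicit false

open MvPolynomial

namespace Pool.Agent.K6.H46.HW

namespace PAD

open Pool.Agent.K6.H18.Cubic

variable {k : Type} [CommRing k] {m r : ℕ}

theorem elem_rename {S : Set k} {p : MvPolynomial (Fin m) k} (h : p ∈ Elem S (Fin m)) :
    rename Fin.castSucc p ∈ Elem S (Fin (m + 1)) := by
  obtain ⟨a, b, c, h⟩ := h
  refine ⟨a.castSucc, b.castSucc, c.castSucc, ?_⟩
  rcases h with rfl | rfl | rfl | ⟨s, hs, rfl⟩
  · left; simp
  · right; left; simp
  · right; right; left; simp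
  · right; right; right; exact ⟨s, hs, by simp⟩

/-- set the last variable equal to one -/
noncomputable def one (m : ℕ) (k : Type) [CommRing k] :
    MvPolynomial (Fin (m + 1)) k →ₐ[k] MvPolynomial (Fin m) k :=
  aeval (Fin.snoc (α := fun _ => MvPolynomial (Fin m) k) (fun i => X i) 1)

theorem one_castSucc (p : MvPolynomial (Fin m) k) : one m k (rename Fin.castSucc p) = p := by
  unfold one
  rw [aeval_rename]
  have : (Fin.snoc (α := fun _ => MvPolynomial (Fin m) k) (fun i => X i) 1 ∘ Fin.castSucc) =
      (X : Fin m → MvPolynomial (Fin m) k) := by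
    funext i
    simp
  rw [this]
  exact aeval_X_left_apply p

theorem one_last : one m k (X (Fin.last m)) = 1 := by
  unfold one
  simp

theorem sub_mem (p : MvPolynomial (Fin (m + 1)) k) :
    p - rename Fin.castSucc (one m k p) ∈ Ideal.span {(X (Fin.last m) - 1 :
      MvPolynomial (Fin (m + 1)) k)} := by
  induction p using MvPolynomial.induction_on with
  | C a => simp [one]
  | add p q hp hq =>
    rw [map_add, map_add, add_sub_add_comm]
    exact Ideal.add_mem _ hp hq
  | mul_X p i hp =>
    rw [map_mul, map_mul]
    have h2 : X i - rename Fin.castSucc (one m k (X i)) ∈ Ideal.span {(X (Fin.last m) - 1 :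
        MvPolynomial (Fin (m + 1)) k)} := by
      refine Fin.lastCases ?_ (fun j => ?_) i
      · rw [one_last, map_one]
        exact Ideal.subset_span rfl
      · have : one m k (X j.castSucc) = X j := by simp [one]
        rw [this, rename_X, sub_self]
        exact Ideal.zero_mem _
    have e : p * X i - rename Fin.castSucc (one m k p) * rename Fin.castSucc (one m k (X i)) =
        (p - rename Fin.castSucc (one m k p)) * X i +
        rename Fin.castSucc (one m k p) * (X i - rename Fin.castSucc (one m k (X i))) := by
      ring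
    rw [e]
    exact Ideal.add_mem _ (Ideal.mul_mem_right _ _ hp) (Ideal.mul_mem_left _ _ h2)

end PAD

open PAD in
theorem t_PAD : S_PAD := by
  intro k _ S m r e he B _ _ π hπ hker
  let e' : Fin (r + 1) → MvPolynomial (Fin (m + 1)) k :=
    Fin.snoc (α := fun _ => MvPolynomial (Fin (m + 1)) k) (fun j => rename Fin.castSucc (e j))
      (X (Fin.last m) - 1)
  have hj : ∀ j : Fin r, e' j.castSucc = rename Fin.castSucc (e j) := fun j => by simp [e']
  have hl : e' (Fin.last r) = X (Fin.last m) - 1 := by simp [e']
  refine ⟨e', π.comp (one m k), ?_, ?_, ?_⟩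
  · intro j
    refine Fin.lastCases ?_ (fun j => ?_) j
    · rw [hl]
      exact ⟨Fin.last m, Fin.last m, Fin.last m, Or.inr (Or.inr (Or.inl rfl))⟩
    · rw [hj]
      exact elem_rename (he j)
  · intro b
    obtain ⟨p, hp⟩ := hπ b
    exact ⟨rename Fin.castSucc p, by rw [AlgHom.comp_apply, one_castSucc, hp]⟩
  · apply le_antisymm
    · intro p hp
      have h1 : one m k p ∈ RingHom.ker π := hp
      rw [hker] at h1
      have h2 : rename Fin.castSucc (one m k p) ∈ Ideal.span (Set.range e') := by
        have h3 := Ideal.mem_map_of_mem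
          (rename (R := k) Fin.castSucc : MvPolynomial (Fin m) k →ₐ[k] MvPolynomial (Fin (m + 1)) k)
          h1
        rw [Ideal.map_span] at h3
        refine Ideal.span_mono ?_ h3
        rintro _ ⟨_, ⟨j, rfl⟩, rfl⟩
        exact ⟨j.castSucc, hj j⟩
      have h4 : Ideal.span {(X (Fin.last m) - 1 : MvPolynomial (Fin (m + 1)) k)} ≤
          Ideal.span (Set.range e') := by
        refine Ideal.span_mono ?_
        rintro _ rfl
        exact ⟨Fin.last r, hl⟩
      have h5 := Ideal.add_mem _ (h4 (sub_mem p)) h2
      rwa [sub_add_cancel] at h5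
    · rw [Ideal.span_le]
      rintro _ ⟨j, rfl⟩
      change π (one m k (e' j)) = 0
      refine Fin.lastCases ?_ (fun j => ?_) j
      · rw [hl, map_sub, one_last, map_one, sub_self, map_zero]
      · rw [hj, one_castSucc]
        have : e j ∈ RingHom.ker π := by
          rw [hker]
          exact Ideal.subset_span ⟨j, rfl⟩
        exact this

end Pool.Agent.K6.H46.HW
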