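import Pool.Agent.K6.H46.HW.Stm2

/-!
# Homomorphisms from a product of two rings to a field (helper66)
-/

set_option autoImplicit false

namespace Pool.Agent.K6.H46.HW

theorem t_PRO : S_PRO := by
  intro A A' _ _ hA hA'
  refine ⟨inferInstance, fun F _ => ?_⟩
  let g : (A →+* F) ⊕ (A' →+* F) → (A × A' →+* F) :=
    Sum.elim (fun φ => φ.comp (RingHom.fst A A')) (fun φ => φ.comp (RingHom.snd A A'))
  refine ⟨Equiv.ofBijective g ⟨?_, ?_⟩⟩
  · rintro (φ | φ) (ψ | ψ) h
    · congr 1
      ext a
      exact DFunLike.congr_fun h (a, 0)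
    · have := DFunLike.congr_fun h (1, 0)
      simp [g] at this
    · have := DFunLike.congr_fun h (1, 0)
      simp [g] at this
    · congr 1
      ext a
      exact DFunLike.congr_fun h (0, a)
  · intro χ
    have h0 : χ (1, 0) * χ (0, 1) = 0 := by
      rw [← map_mul]
      have : ((1, 0) * (0, 1) : A × A') = 0 := by ext <;> simp
      rw [this, map_zero]
    have h1 : χ (1, 0) + χ (0, 1) = 1 := by
      rw [← map_add]
      have : ((1, 0) + (0, 1) : A × A') = 1 := by ext <;> simp
      rw [this, map_one]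
    rcases mul_eq_zero.1 h0 with h | h
    · refine ⟨Sum.inr ⟨⟨⟨fun a => χ (0, a), ?_⟩, ?_⟩, ?_, ?_⟩, ?_⟩
      · rw [← h1, h, zero_add]
      · intro a b
        change χ (0, a * b) = χ (0, a) * χ (0, b)
        rw [← map_mul]; simp
      · exact map_zero χ
      · intro a b
        change χ (0, a + b) = χ (0, a) + χ (0, b)
        rw [← map_add]; simp
      · ext x
        obtain ⟨a, b⟩ := x
        change χ (0, b) = χ (a, b)
        have h2 : ((a, b) : A × A') = (1, 0) * (a, 0) + (0, b) := by simp
        rw [h2, map_add, map_mul, h, zero_mul, zero_add]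
    · refine ⟨Sum.inl ⟨⟨⟨fun a => χ (a, 0), ?_⟩, ?_⟩, ?_, ?_⟩, ?_⟩
      · rw [← h1, h, add_zero]
      · intro a b
        change χ (a * b, 0) = χ (a, 0) * χ (b, 0)
        rw [← map_mul]; simp
      · exact map_zero χ
      · intro a b
        change χ (a + b, 0) = χ (a, 0) + χ (b, 0)
        rw [← map_add]; simp
      · ext x
        obtain ⟨a, b⟩ := x
        change χ (a, 0) = χ (a, b)
        have h2 : ((a, b) : A × A') = (0, 1) * (0, b) + (a, 0) := by simp
        rw [h2, map_add, map_mul, h, zero_mul, zero_add]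

end Pool.Agent.K6.H46.HW
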