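import Pool.Agent.K6.H46.HW.Stm
import Pool.Agent.K6.H18.Cubic.Pres

/-! Piece PRQ of call46b (helper51). -/

set_option autoImplicit false

open MvPolynomial

namespace Pool.Agent.K6.H46.HW

open Pool.Agent.K6.H18.Cubic Pool.Agent.K6.H18.Cubic.Alg

theorem t_PRQ (h : S_PAD) : S_PRQ := by
  intro B _ _ hB M
  have hS : Subfield.closure (∅ : Set ℚ) = ⊤ := by
    rw [eq_top_iff]
    intro q _
    have h1 := SubfieldClass.ratCast_mem (Subfield.closure (∅ : Set ℚ)) q
    simpa using h1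
  haveI := hB
  obtain ⟨m, r, e, π, hr, he, hs, hk⟩ := Pool.Agent.K6.H18.Cubic.exists_pres hS B
  induction M with
  | zero => exact ⟨m, r, e, π, Nat.zero_le _, hr, he, hs, hk⟩
  | succ n ih =>
    obtain ⟨m, r, e, π, h1, h2, h3, h4, h5⟩ := ih
    obtain ⟨e', π', h6, h7, h8⟩ := h ℚ ∅ m r e h3 B π h4 h5
    exact ⟨m + 1, r + 1, e', π', by omega, by omega, h6, h7, h8⟩

end Pool.Agent.K6.H46.HW
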