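import Pool.Agent.K6.H46.HW.Stm
import Pool.Agent.K6.H18.Arith.Pres

/-! Piece PRZ of call46b (helper51). -/

set_option autoImplicit false

open MvPolynomial

namespace Pool.Agent.K6.H46.HW

open Pool.Agent.K6.H18.Cubic Pool.Agent.K6.H18.Cubic.Alg

theorem t_PRZ (h : S_PAD) : S_PRZ := by
  intro A _ hA
  obtain ⟨m, E, hE, ⟨σ⟩⟩ := Pool.Agent.K6.H18.Arith.exists_pres A hA
  have hfin : E.Finite := (Pool.Agent.K6.H18.Arith.Elem.finite (Fin m)).subset hE
  obtain ⟨r, e, he⟩ : ∃ (r : ℕ) (e : Fin r → MvPolynomial (Fin m) ℤ), Set.range e = E := by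
    haveI := hfin.to_subtype
    obtain ⟨n, ⟨f⟩⟩ := Finite.exists_equiv_fin E
    refine ⟨n, fun j => f.symm j, ?_⟩
    ext x
    constructor
    · rintro ⟨j, rfl⟩
      exact (f.symm j).2
    · intro hx
      exact ⟨f ⟨x, hx⟩, by simp⟩
  have helem : ∀ j, e j ∈ Elem (∅ : Set ℤ) (Fin m) := by
    intro j
    have h1 : e j ∈ E := he ▸ Set.mem_range_self j
    obtain ⟨a, b, c, h2 | h2 | h2⟩ := hE h1
    · exact ⟨a, b, c, Or.inl h2⟩
    · exact ⟨a, b, c, Or.inr (Or.inl h2)⟩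
    · exact ⟨a, b, c, Or.inr (Or.inr (Or.inl h2))⟩
  let π : MvPolynomial (Fin m) ℤ →ₐ[ℤ] A :=
    ((σ : (MvPolynomial (Fin m) ℤ ⧸ Ideal.span E) →+* A).comp (Ideal.Quotient.mk (Ideal.span E))).toIntAlgHom
  have hπ : ∀ x, π x = σ (Ideal.Quotient.mk (Ideal.span E) x) := fun x => rfl
  have hsurj : Function.Surjective π := by
    intro a
    obtain ⟨x, hx⟩ := Ideal.Quotient.mk_surjective (σ.symm a)
    exact ⟨x, by rw [hπ, hx]; simp⟩
  have hker : RingHom.ker π = Ideal.span (Set.range e) := by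
    ext x
    rw [RingHom.mem_ker, hπ, map_eq_zero_iff σ σ.injective, Ideal.Quotient.eq_zero_iff_mem, he]
  obtain ⟨e', π', h6, h7, h8⟩ := h ℤ ∅ m r e helem A π hsurj hker
  refine ⟨m + 1, r + 1, e', by omega, h6, ⟨?_⟩⟩
  have h9 : Function.Surjective (π' : MvPolynomial (Fin (m + 1)) ℤ →+* A) := h7
  exact (Ideal.quotEquivOfEq h8.symm).trans (RingHom.quotientKerEquivOfSurjective h9)

end Pool.Agent.K6.H46.HW
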