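import Pool.Agent.K6.H46.HW.Stm3
import Pool.Agent.K6.H46.HW.CONT

/-! Piece QM1 of call46b (helper52). -/

set_option autoImplicit false

namespace Pool.Agent.K6.H46.HW

namespace QM1

/-- bounded, with a zeta function which continues -/
def P (c : Nat.Primes → ℕ → ℕ) : Prop := Bdd c ∧ Continues (zetaOf c)

lemma zero : P (fun _ _ => 0) := by
  refine ⟨⟨0, fun p n _ => Nat.zero_le _⟩, fun _ => 1, MeromorphicOn.const 1, 0, fun s _ => ?_⟩
  simp [zetaOf]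

lemma bdd_add {c c' : Nat.Primes → ℕ → ℕ} (h : Bdd c) (h' : Bdd c') :
    Bdd (fun p n => c p n + c' p n) := by
  obtain ⟨m, hm⟩ := h
  obtain ⟨m', hm'⟩ := h'
  refine ⟨max m m' + 1, fun p n hn => ?_⟩
  have hp1 : 1 ≤ (p : ℕ) := p.2.one_lt.le
  have h1 : c p n ≤ (p : ℕ) ^ (n * max m m') :=
    (hm p n hn).trans (Nat.pow_le_pow_right hp1 (Nat.mul_le_mul_left n (le_max_left _ _)))
  have h2 : c' p n ≤ (p : ℕ) ^ (n * max m m') :=
    (hm' p n hn).trans (Nat.pow_le_pow_right hp1 (Nat.mul_le_mul_left n (le_max_right _ _)))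
  have h3 : 2 ≤ (p : ℕ) ^ n := p.2.two_le.trans (Nat.le_self_pow (by omega) _)
  calc c p n + c' p n ≤ (p : ℕ) ^ (n * max m m') * 2 := by omega
    _ ≤ (p : ℕ) ^ (n * max m m') * (p : ℕ) ^ n := Nat.mul_le_mul_left _ h3
    _ = (p : ℕ) ^ (n * (max m m' + 1)) := by rw [← pow_add, mul_add, mul_one]

lemma add (h1 : S_BND) (h2 : S_ADD) {c c' : Nat.Primes → ℕ → ℕ} (h : P c) (h' : P c') :
    P (fun p n => c p n + c' p n) := by
  refine ⟨bdd_add h.1 h'.1, ?_⟩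
  obtain ⟨⟨m, hm⟩, Z, hZ, σ, hσ⟩ := h
  obtain ⟨⟨m', hm'⟩, Z', hZ', σ', hσ'⟩ := h'
  refine ⟨fun s => Z s * Z' s, hZ.mul hZ', max (max σ σ') (max (m + 1) (m' + 1)), fun s hs => ?_⟩
  have a1 : σ < s.re := ((le_max_left _ _).trans (le_max_left _ _)).trans_lt hs
  have a2 : σ' < s.re := ((le_max_right _ _).trans (le_max_left _ _)).trans_lt hs
  have a3 : (m : ℝ) + 1 < s.re := ((le_max_left _ _).trans (le_max_right _ _)).trans_lt hs
  have a4 : (m' : ℝ) + 1 < s.re := ((le_max_right _ _).trans (le_max_right _ _)).trans_lt hs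
  rw [h2 c c' s (h1 c m hm s a3) (h1 c' m' hm' s a4), hσ s a1, hσ' s a2]

lemma nat_mul (h1 : S_BND) (h2 : S_ADD) {c : Nat.Primes → ℕ → ℕ} (h : P c) (k : ℕ) :
    P (fun p n => k * c p n) := by
  induction k with
  | zero =>
    have : (fun (p : Nat.Primes) (n : ℕ) => 0 * c p n) = fun _ _ => 0 := by
      funext p n
      simp
    rw [this]
    exact zero
  | succ k ih =>
    have : (fun (p : Nat.Primes) (n : ℕ) => (k + 1) * c p n) = fun p n => k * c p n + c p n := by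
      funext p n
      ring
    rw [this]
    exact add h1 h2 ih h

lemma pow_bdd (i : ℕ) : Bdd (fun p n => ((p : ℕ) ^ n - 1) ^ i) :=
  ⟨i, fun p n _ => by
    rw [pow_mul]
    exact Nat.pow_le_pow_left (Nat.sub_le _ _) i⟩

lemma pow (h3 : S_SHI) (h4 : S_RZ) (h5 : S_DIV) (h6 : S_CON) (i : ℕ) :
    P (fun p n => ((p : ℕ) ^ n - 1) ^ i) := by
  refine ⟨pow_bdd i, ?_⟩
  induction i with
  | zero =>
    refine (h6 (fun _ => 1) _ 0 0 1 fun s hs => ?_).1
      ⟨fun _ => 1, MeromorphicOn.const 1, 0, fun _ _ => rfl⟩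
    have h := h4 0 s (by simpa using hs)
    simpa using h
  | succ i ih =>
    refine h5 _ (fun p n => ((p : ℕ) ^ n - 1) ^ i)
      (fun p n => ((p : ℕ) ^ (n * 1)) * ((p : ℕ) ^ n - 1) ^ i) (pow_bdd _) (pow_bdd _)
      (fun p n _ => ?_) ih ?_
    · have hp : 1 ≤ (p : ℕ) ^ n := Nat.one_le_pow _ _ p.2.pos
      obtain ⟨x, hx⟩ := Nat.exists_eq_add_of_le' hp
      show ((p : ℕ) ^ n - 1) ^ (i + 1) + ((p : ℕ) ^ n - 1) ^ i =
        (p : ℕ) ^ (n * 1) * ((p : ℕ) ^ n - 1) ^ i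
      rw [mul_one, hx, Nat.add_sub_cancel]
      ring
    · obtain ⟨Z, hZ, σ, hσ⟩ := ih
      refine ⟨fun s => Z (s + -((1 : ℕ) : ℂ)), CON.comp hZ _, σ + 1, fun s hs => ?_⟩
      rw [h3 (fun p n => ((p : ℕ) ^ n - 1) ^ i) 1 s, hσ _ (by
        simp only [Complex.sub_re, Complex.natCast_re]
        push_cast
        linarith), sub_eq_add_neg]

end QM1

open QM1 in
theorem t_QM1 (h1 : S_BND) (h2 : S_ADD) (h3 : S_SHI) (h4 : S_RZ) (h5 : S_DIV) (h6 : S_CON) :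
    S_QM1 := by
  intro k m
  suffices h : ∀ m : ℕ, P (fun p n => ∑ i ∈ Finset.range m, k i * ((p : ℕ) ^ n - 1) ^ i) from
    (h (m + 1)).2
  intro m
  induction m with
  | zero => simpa using zero
  | succ m ih =>
    simp only [Finset.sum_range_succ]
    exact add h1 h2 ih (nat_mul h1 h2 (pow h3 h4 h5 h6 m) (k m))

end Pool.Agent.K6.H46.HW
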