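import Pool.Agent.K6.H46.HW.Stm

/-! Piece RZ of call46b (helper51). -/

set_option autoImplicit false

namespace Pool.Agent.K6.H46.HW

theorem t_RZ (h : S_BND) : S_RZ := by
  intro d s hs
  have hs' : 1 < (s - d).re := by
    simp only [Complex.sub_re, Complex.natCast_re]
    linarith
  have hsum := h (fun p n => (p : ℕ) ^ (n * d)) d (fun p n _ => le_rfl) s hs
  rw [← riemannZeta_eulerProduct_exp_log hs']
  have h0 : zetaOf (fun p n => (p : ℕ) ^ (n * d)) s =
      Complex.exp (∑' x, term (fun p n => (p : ℕ) ^ (n * d)) s x) := rfl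
  rw [h0, hsum.tsum_prod]
  congr 1
  refine tsum_congr fun p => ?_
  have hp0 : ((p : ℕ) : ℂ) ≠ 0 := by exact_mod_cast p.2.ne_zero
  set z : ℂ := ((p : ℕ) : ℂ) ^ (-(s - d)) with hz
  have hz1 : ‖z‖ < 1 := by
    rw [hz, Complex.norm_natCast_cpow_of_pos p.2.pos]
    refine Real.rpow_lt_one_of_one_lt_of_neg (by exact_mod_cast p.2.one_lt) ?_
    rw [Complex.neg_re]
    linarith
  have h1 := Complex.hasSum_taylorSeries_neg_log hz1
  have h2 := (hasSum_nat_add_iff' 1).2 h1
  simp only [Finset.range_one, Finset.sum_singleton, Nat.cast_zero, div_zero, sub_zero] at h2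
  rw [← h2.tsum_eq]
  refine tsum_congr fun n => ?_
  simp only [term]
  congr 1
  rw [hz, ← Complex.cpow_mul_nat, Nat.cast_pow, ← Complex.cpow_natCast, ← Complex.cpow_add _ _ hp0]
  congr 1
  push_cast
  ring

end Pool.Agent.K6.H46.HW
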