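import Pool.Agent.K6.H46.HW.Stm2

/-!
Piece SCH (helper4): a scheme of finite type over `ℤ` has the points of a finitely generated ring.
-/

set_option autoImplicit false

open AlgebraicGeometry CategoryTheory

namespace Pool.Agent.K6.H46.HW

namespace SCH

theorem sub (F : Type) [Field F] : Subsingleton (Spec (CommRingCat.of F)) :=
  inferInstanceAs (Subsingleton (PrimeSpectrum F))

theorem non (F : Type) [Field F] : Nonempty (Spec (CommRingCat.of F)) :=
  inferInstanceAs (Nonempty (PrimeSpectrum F))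

theorem split {X : Scheme.{0}} {F : Type} [Field F] (f : Pt X F) (S U : Set X)
    (h : Set.range f ⊆ S ∪ U) (hS : ¬ Set.range f ⊆ S) : Set.range f ⊆ U \ S := by
  have := sub F
  rintro _ ⟨p, rfl⟩
  rw [Set.not_subset] at hS
  obtain ⟨_, ⟨q, rfl⟩, hq⟩ := hS
  have hpq : q = p := Subsingleton.elim _ _
  subst hpq
  rcases h ⟨q, rfl⟩ with h1 | h1
  · exact absurd h1 hq
  · exact ⟨h1, hq⟩

theorem notsub {X : Scheme.{0}} {F : Type} [Field F] (f : Pt X F) (S U : Set X)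
    (h : Set.range f ⊆ U \ S) : ¬ Set.range f ⊆ S := by
  obtain ⟨p⟩ := non F
  intro h1
  exact (h ⟨p, rfl⟩).2 (h1 ⟨p, rfl⟩)

open Classical in
/-- the points of a union -/
noncomputable def eqv (X : Scheme.{0}) (F : Type) [Field F] (S U : Set X) :
    {f : Pt X F // Set.range f ⊆ S ∪ U} ≃
      {f : Pt X F // Set.range f ⊆ S} ⊕ {f : Pt X F // Set.range f ⊆ U \ S} where
  toFun f := if h : Set.range f.1 ⊆ S then Sum.inl ⟨f.1, h⟩
    else Sum.inr ⟨f.1, split f.1 S U f.2 h⟩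
  invFun := Sum.elim (fun f => ⟨f.1, f.2.trans Set.subset_union_left⟩)
    (fun f => ⟨f.1, f.2.trans (Set.sdiff_subset.trans Set.subset_union_right)⟩)
  left_inv f := by
    by_cases h : Set.range f.1 ⊆ S
    · simp only [dif_pos h, Sum.elim_inl]
    · simp only [dif_neg h, Sum.elim_inr]
  right_inv f := by
    rcases f with f | f
    · simp only [Sum.elim_inl, dif_pos f.2]
    · simp only [Sum.elim_inr, dif_neg (notsub f.1 S U f.2)]

/-- the induction predicate -/
def Q (X : Scheme.{0}) (V : X.Opens) : Prop :=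
  ∃ (A : Type) (_ : CommRing A), Algebra.FiniteType ℤ A ∧ ∀ (F : Type) [Field F],
    Nonempty ({f : Pt X F // Set.range f ⊆ (V : Set X)} ≃ (A →+* F))

theorem base (X : Scheme.{0}) : Q X ⊥ := by
  refine ⟨PUnit, inferInstance, inferInstance, fun F _ => ?_⟩
  have h1 : IsEmpty {f : Pt X F // Set.range f ⊆ ((⊥ : X.Opens) : Set X)} := by
    constructor
    rintro ⟨f, hf⟩
    obtain ⟨p⟩ := non F
    exact hf ⟨p, rfl⟩
  have h2 : IsEmpty (PUnit →+* F) := by
    constructor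
    intro g
    have h3 : g 1 = g 0 := rfl
    have h4 : g 1 = 1 := g.map_one
    have h5 : g 0 = 0 := g.map_zero
    exact one_ne_zero (h4.symm.trans (h3.trans h5))
  exact ⟨Equiv.equivOfIsEmpty _ _⟩

theorem step (h1 : S_PRO) (h2 : S_CLS) (X : Scheme.{0})
    (hX : ∃ f : X ⟶ Spec (CommRingCat.of ℤ), LocallyOfFiniteType f) (S : X.Opens)
    (U : X.affineOpens) (h : Q X S) : Q X (S ⊔ U) := by
  obtain ⟨A, cA, hA, e⟩ := h
  obtain ⟨A', cA', hA', e'⟩ := h2 X hX U.1 S U.2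
  obtain ⟨hp, ep⟩ := h1 A A' hA hA'
  refine ⟨A × A', inferInstance, hp, fun F _ => ?_⟩
  obtain ⟨e1⟩ := e F
  obtain ⟨e2⟩ := e' F
  obtain ⟨e3⟩ := ep F
  have e4 : ((S ⊔ (U : X.Opens) : X.Opens) : Set X) = (S : Set X) ∪ ((U : X.Opens) : Set X) := rfl
  rw [e4]
  exact ⟨(eqv X F S U.1).trans ((Equiv.sumCongr e1 e2).trans e3)⟩

end SCH

theorem t_SCH (h1 : S_PRO) (h2 : S_CLS) : S_SCH := by
  intro X hX
  obtain ⟨f0, hf1, hf2⟩ := hX
  have hc : CompactSpace X := QuasiCompact.compactSpace_of_compactSpace f0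
  have hQ : SCH.Q X ⊤ := by
    refine compact_open_induction_on (P := SCH.Q X) ⊤ ?_ (SCH.base X) ?_
    · exact isCompact_univ
    · intro S _ U h
      exact SCH.step h1 h2 X ⟨f0, hf1⟩ S U h
  obtain ⟨A, cA, hA, e⟩ := hQ
  refine ⟨A, cA, hA, fun F _ => ?_⟩
  obtain ⟨e1⟩ := e F
  refine ⟨Equiv.trans ?_ e1⟩
  exact (Equiv.subtypeUnivEquiv (fun f => Set.subset_univ _)).symm

end Pool.Agent.K6.H46.HW
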