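import Pool.Agent.K6.H46.HW.Stm

set_option autoImplicit false

namespace Pool.Agent.K6.H46.HW

theorem t_SHI : S_SHI := by
  intro c r s
  unfold zetaOf
  congr 1
  refine tsum_congr fun x => ?_
  have hp : ((x.1 : ℕ) : ℂ) ≠ 0 := by
    exact_mod_cast x.1.2.ne_zero
  have h1 : (((((x.1 : ℕ) ^ ((x.2 + 1) * r)) * c x.1 (x.2 + 1) : ℕ)) : ℂ) =
      (c x.1 (x.2 + 1) : ℂ) * ((x.1 : ℕ) : ℂ) ^ ((((x.2 + 1) * r : ℕ)) : ℂ) := by
    rw [Complex.cpow_natCast]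
    push_cast
    ring
  rw [h1, mul_assoc, ← Complex.cpow_add _ _ hp]
  congr 3
  push_cast
  ring

end Pool.Agent.K6.H46.HW
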