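import Pool.Agent.K6.H46.HW.Stm2

/-! Piece SPC: the points of an affine scheme, and finite type. -/

set_option autoImplicit false

open AlgebraicGeometry CategoryTheory

namespace Pool.Agent.K6.H46.HW

theorem t_SPC : S_SPC := by
  intro A _ hA
  refine ⟨⟨Spec.map (CommRingCat.ofHom (algebraMap ℤ A)), ?_, inferInstance⟩, fun F _ => ⟨?_⟩⟩
  · rw [HasRingHomProperty.Spec_iff (P := @LocallyOfFiniteType)]
    exact RingHom.finiteType_algebraMap.2 hA
  · exact {
      toFun := fun f => (Spec.preimage f).hom
      invFun := fun g => Spec.map (CommRingCat.ofHom g)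
      left_inv := fun f => by
        show Spec.map (CommRingCat.ofHom (Spec.preimage f).hom) = f
        rw [CommRingCat.ofHom_hom, Spec.map_preimage]
      right_inv := fun g => by
        show (Spec.preimage (Spec.map (CommRingCat.ofHom g))).hom = g
        rw [Spec.preimage_map, CommRingCat.hom_ofHom] }

end Pool.Agent.K6.H46.HW
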