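import Pool.Agent.K6.H46.HW.Stm3

/-! Piece STP of call46b (helper78): continuation step by step. -/

set_option autoImplicit false

open Filter Topology

namespace Pool.Agent.K6.H46.HW

namespace STP

/-- the continuation to the half-plane `σ - k < re s` -/
noncomputable def Zk (f h : ℂ → ℂ) (k : ℕ) (s : ℂ) : ℂ :=
  f (s + k) * ∏ i ∈ Finset.range k, h (s + (i + 1 : ℕ))

lemma Zk_succ {f h : ℂ → ℂ} {σ : ℝ} (hfh : ∀ s : ℂ, σ < s.re → f s = h (s + 1) * f (s + 1))
    {k : ℕ} {s : ℂ} (hs : σ < s.re + k) : Zk f h (k + 1) s = Zk f h k s := by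
  have h1 := hfh (s + k) (by simpa using hs)
  unfold Zk
  rw [Finset.prod_range_succ, h1]
  have e : s + ((k + 1 : ℕ) : ℂ) = s + k + 1 := by push_cast; ring
  rw [e]
  ring

lemma Zk_add {f h : ℂ → ℂ} {σ : ℝ} (hfh : ∀ s : ℂ, σ < s.re → f s = h (s + 1) * f (s + 1))
    {k : ℕ} {s : ℂ} (hs : σ < s.re + k) (d : ℕ) : Zk f h (k + d) s = Zk f h k s := by
  induction d with
  | zero => rfl
  | succ d ih =>
    rw [← ih, ← add_assoc]
    refine Zk_succ hfh ?_
    have : (0 : ℝ) ≤ d := Nat.cast_nonneg d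
    push_cast
    linarith

lemma Zk_le {f h : ℂ → ℂ} {σ : ℝ} (hfh : ∀ s : ℂ, σ < s.re → f s = h (s + 1) * f (s + 1))
    {k K : ℕ} (hkK : k ≤ K) {s : ℂ} (hs : σ < s.re + k) : Zk f h K s = Zk f h k s := by
  obtain ⟨d, rfl⟩ := Nat.exists_eq_add_of_le hkK
  exact Zk_add hfh hs d

lemma mer_shift {h : ℂ → ℂ} (hh : MeromorphicOn h Set.univ) (a x : ℂ) :
    MeromorphicAt (fun s => h (s + a)) x :=
  (hh (x + a) (Set.mem_univ _)).comp_analyticAt (g := fun s => s + a)
    (analyticAt_id.add analyticAt_const)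

lemma mer_Zk {f h : ℂ → ℂ} {σ : ℝ} (hf : DifferentiableOn ℂ f {s : ℂ | σ < s.re})
    (hh : MeromorphicOn h Set.univ) {k : ℕ} {s₀ : ℂ} (hs : σ < s₀.re + k) :
    MeromorphicAt (Zk f h k) s₀ := by
  have ho : IsOpen {s : ℂ | σ < s.re} := isOpen_lt continuous_const Complex.continuous_re
  have h1 : AnalyticAt ℂ f (s₀ + k) :=
    hf.analyticAt (ho.mem_nhds (by simpa using hs))
  have h2 : AnalyticAt ℂ (fun s : ℂ => f (s + k)) s₀ :=
    AnalyticAt.fun_comp (f := fun s : ℂ => s + k) h1 (analyticAt_id.add analyticAt_const)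
  have h3 : ∀ j : ℕ, MeromorphicAt (fun s : ℂ => ∏ i ∈ Finset.range j, h (s + (i + 1 : ℕ))) s₀ := by
    intro j
    induction j with
    | zero =>
      simp only [Finset.range_zero, Finset.prod_empty]
      exact MeromorphicAt.const 1 s₀
    | succ j ih =>
      simp only [Finset.prod_range_succ]
      exact ih.mul (mer_shift hh _ s₀)
  exact h2.meromorphicAt.mul (h3 k)

/-- the index used at `s` -/
noncomputable def idx (σ : ℝ) (s : ℂ) : ℕ := ⌈σ - s.re⌉₊ + 1

lemma idx_lt (σ : ℝ) (s : ℂ) : σ < s.re + idx σ s := by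
  have h1 := Nat.le_ceil (σ - s.re)
  unfold idx
  push_cast
  linarith

lemma idx_le {σ : ℝ} {s s₀ : ℂ} (h : s₀.re - 1 < s.re) : idx σ s ≤ idx σ s₀ + 1 := by
  unfold idx
  have h1 : ⌈σ - s.re⌉₊ ≤ ⌈σ - s₀.re⌉₊ + 1 := by
    rw [Nat.ceil_le]
    push_cast
    have := Nat.le_ceil (σ - s₀.re)
    linarith
  omega

end STP

open STP in
theorem t_STP : S_STP := by
  intro f h σ hf hh hfh
  refine ⟨fun s => Zk f h (idx σ s) s, fun s₀ _ => ?_, σ, fun s hs => ?_⟩
  · have h1 : MeromorphicAt (Zk f h (idx σ s₀ + 1)) s₀ := by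
      refine mer_Zk hf hh ?_
      have := idx_lt σ s₀
      push_cast
      linarith
    refine h1.congr ?_
    have h2 : ∀ᶠ s in 𝓝 s₀, s₀.re - 1 < s.re :=
      (isOpen_lt continuous_const Complex.continuous_re).mem_nhds (by simp)
    refine (h2.filter_mono nhdsWithin_le_nhds).mono fun s hs => ?_
    exact Zk_le hfh (idx_le hs) (idx_lt σ s)
  · have h1 : Zk f h (idx σ s) s = Zk f h 0 s := Zk_le hfh (Nat.zero_le _) (by simpa using hs)
    show f s = Zk f h (idx σ s) s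
    rw [h1, Zk]
    simp

end Pool.Agent.K6.H46.HW
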