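import Pool.Agent.K6.H46.HW.Stm3

/-!
# Piece SUP: counting by the support (helper71)
-/

set_option autoImplicit false
set_option linter.all false

namespace Pool.Agent.K6.H46.HW

namespace SUP

open Finset

/-- The allowed supports. -/
def OK {m r : ℕ} (c : Fin r → Code m) (T : Finset (Fin m)) : Prop :=
  ∀ j, (c j).1 = 0 → ¬ ((c j).2.2.1 ∈ T ∧ (c j).2.2.2 ∈ T)

/-- The support. -/
noncomputable def su {m : ℕ} {F : Type} [Field F] (x : Fin m → F) : Finset (Fin m) :=
  @Finset.filter _ (fun i => x i ≠ 0) (Classical.decPred _) univ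

theorem mem_su {m : ℕ} {F : Type} [Field F] (x : Fin m → F) (i : Fin m) : i ∈ su x ↔ x i ≠ 0 := by
  classical
  simp [su]

theorem ok_iff {m r : ℕ} (c : Fin r → Code m) {F : Type} [Field F] (x : Fin m → F) :
    (∀ j, top (c j) x = 0) ↔ OK c (su x) := by
  refine forall_congr' fun j => ?_
  unfold top
  by_cases h : (c j).1 = 0
  · rw [if_pos h, mem_su, mem_su, mul_eq_zero]
    constructor
    · intro h1 _ h2
      rcases h1 with h1 | h1
      · exact h2.1 h1
      · exact h2.2 h1
    · intro h1
      by_contra h2
      rw [not_or] at h2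
      exact h1 h h2
  · rw [if_neg h]
    exact ⟨fun _ h' => absurd h' h, fun _ => rfl⟩

open scoped Classical in
theorem card_su {m : ℕ} {F : Type} [Field F] [Fintype F] (T : Finset (Fin m)) :
    (univ.filter fun x : Fin m → F => su x = T).card = (Fintype.card F - 1) ^ T.card := by
  have h : (univ.filter fun x : Fin m → F => su x = T) =
      Fintype.piFinset fun i => if i ∈ T then univ.erase (0 : F) else {0} := by
    ext x
    rw [mem_filter, Fintype.mem_piFinset]
    constructor
    · rintro ⟨-, h⟩ i
      by_cases hi : i ∈ T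
      · rw [if_pos hi, mem_erase]
        rw [← h, mem_su] at hi
        exact ⟨hi, mem_univ _⟩
      · rw [if_neg hi, mem_singleton]
        rw [← h, mem_su, not_not] at hi
        exact hi
    · intro h
      refine ⟨mem_univ _, ?_⟩
      ext i
      rw [mem_su]
      have hi := h i
      by_cases h1 : i ∈ T
      · rw [if_pos h1, mem_erase] at hi
        exact ⟨fun _ => h1, fun _ => hi.1⟩
      · rw [if_neg h1, mem_singleton] at hi
        exact ⟨fun h2 => absurd hi h2, fun h2 => absurd h2 h1⟩
  rw [h, Fintype.card_piFinset]
  have h2 : ∀ i ∈ (univ : Finset (Fin m)), (if i ∈ T then univ.erase (0 : F) else {0}).card =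
      if i ∈ T then (Fintype.card F - 1) else 1 := by
    intro i _
    split_ifs
    · rw [card_erase_of_mem (mem_univ _), card_univ]
    · exact card_singleton _
  rw [prod_congr rfl h2, prod_ite, prod_const, prod_const_one, mul_one]
  congr 2
  ext i
  simp

end SUP

open SUP Finset in
open scoped Classical in
theorem t_SUP : S_SUP := by
  intro m r c
  refine ⟨fun i => ((univ.filter fun T : Finset (Fin m) => OK c T).filter
    fun T => T.card = i).card, fun F _ _ => ?_⟩
  haveI : Fintype F := Fintype.ofFinite F
  rw [Nat.card_eq_fintype_card, Fintype.card_subtype, Nat.card_eq_fintype_card]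
  have h1 : (univ.filter fun x : Fin m → F => ∀ j, top (c j) x = 0) =
      univ.filter fun x : Fin m → F => OK c (su x) := by
    refine filter_congr fun x _ => ?_
    exact ok_iff c x
  rw [h1]
  rw [card_eq_sum_card_fiberwise (f := su) (t := univ.filter fun T : Finset (Fin m) => OK c T)
    (fun x hx => by
      rw [mem_coe, mem_filter] at hx ⊢
      exact ⟨mem_univ _, hx.2⟩)]
  have h2 : ∀ T ∈ univ.filter (fun T : Finset (Fin m) => OK c T),
      ((univ.filter fun x : Fin m → F => OK c (su x)).filter fun x => su x = T).card =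
      (Fintype.card F - 1) ^ T.card := by
    intro T hT
    rw [← card_su T]
    congr 1
    ext x
    rw [mem_filter, mem_filter, mem_filter]
    rw [mem_filter] at hT
    constructor
    · rintro ⟨-, h⟩
      exact ⟨mem_univ _, h⟩
    · rintro ⟨-, h⟩
      refine ⟨⟨mem_univ _, ?_⟩, h⟩
      rw [h]
      exact hT.2
  rw [sum_congr rfl h2]
  rw [← sum_fiberwise_of_maps_to (t := range (m + 1)) (g := fun T : Finset (Fin m) => T.card)
    (fun T _ => by
      rw [mem_range]
      have := card_le_univ T
      rw [Fintype.card_fin] at this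
      omega)]
  refine sum_congr rfl fun i _ => ?_
  rw [sum_congr rfl (g := fun _ => (Fintype.card F - 1) ^ i) (fun T hT => by
    rw [mem_filter] at hT
    rw [hT.2]), sum_const, smul_eq_mul]

end Pool.Agent.K6.H46.HW
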