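import Pool.Agent.K6.H46.HW.Stm

set_option autoImplicit false

open MvPolynomial

namespace Pool.Agent.K6.H46.HW

namespace ZER

theorem hom_eq {σ F : Type} [Field F] (φ : MvPolynomial σ ℤ →+* F) (f : MvPolynomial σ ℤ) :
    aeval (fun i => φ (X i)) f = φ f := by
  have h : (aeval (fun i => φ (X i)) : MvPolynomial σ ℤ →ₐ[ℤ] F).toRingHom = φ := by
    refine MvPolynomial.ringHom_ext (fun z => ?_) fun i => ?_
    · simp
    · simp
  exact RingHom.congr_fun h f

end ZER

theorem t_ZER : S_ZER := by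
  intro σ E F _
  refine ⟨{
    toFun := fun φ => ⟨fun i => φ (Ideal.Quotient.mk _ (X i)), fun f hf => ?_⟩
    invFun := fun v => Ideal.Quotient.lift (Ideal.span E)
      ((aeval v.1 : MvPolynomial σ ℤ →ₐ[ℤ] F) : MvPolynomial σ ℤ →+* F) ?_
    left_inv := ?_
    right_inv := ?_ }⟩
  · have h := ZER.hom_eq (φ.comp (Ideal.Quotient.mk (Ideal.span E))) f
    have h2 : Ideal.Quotient.mk (Ideal.span E) f = 0 :=
      Ideal.Quotient.eq_zero_iff_mem.2 (Ideal.subset_span hf)
    rw [RingHom.comp_apply, h2, map_zero] at h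
    exact h
  · intro a ha
    have h : Ideal.span E ≤
        RingHom.ker ((aeval v.1 : MvPolynomial σ ℤ →ₐ[ℤ] F) : MvPolynomial σ ℤ →+* F) :=
      Ideal.span_le.2 fun f hf => v.2 f hf
    exact h ha
  · intro φ
    refine Ideal.Quotient.ringHom_ext ?_
    refine RingHom.ext fun f => ?_
    simp only [RingHom.comp_apply, Ideal.Quotient.lift_mk]
    exact ZER.hom_eq (φ.comp (Ideal.Quotient.mk (Ideal.span E))) f
  · intro v
    apply Subtype.ext
    funext i
    simp

end Pool.Agent.K6.H46.HW
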