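import Pool.Agent.K6.H46.HW.ADDS
import Pool.Agent.K6.H46.HW.AFFS
import Pool.Agent.K6.H46.HW.ANA
import Pool.Agent.K6.H46.HW.BND
import Pool.Agent.K6.H46.HW.CBD
import Pool.Agent.K6.H46.HW.CLS
import Pool.Agent.K6.H46.HW.CNT
import Pool.Agent.K6.H46.HW.CONT
import Pool.Agent.K6.H46.HW.DIV
import Pool.Agent.K6.H46.HW.FAC
import Pool.Agent.K6.H46.HW.HDG
import Pool.Agent.K6.H46.HW.HOM
import Pool.Agent.K6.H46.HW.INF
import Pool.Agent.K6.H46.HW.ISO
import Pool.Agent.K6.H46.HW.LIN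
import Pool.Agent.K6.H46.HW.PAD
import Pool.Agent.K6.H46.HW.PRO
import Pool.Agent.K6.H46.HW.PRQ
import Pool.Agent.K6.H46.HW.PRZ
import Pool.Agent.K6.H46.HW.QM1
import Pool.Agent.K6.H46.HW.RZ
import Pool.Agent.K6.H46.HW.SCH
import Pool.Agent.K6.H46.HW.SHI
import Pool.Agent.K6.H46.HW.SPC
import Pool.Agent.K6.H46.HW.STP
import Pool.Agent.K6.H46.HW.SUP
import Pool.Agent.K6.H46.HW.ZER
import Pool.Agent.K6.H46.HW.AsmB
import Pool.Agent.K6.H46.HW.AsmD

/-! The pieces together. -/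

set_option autoImplicit false

namespace Pool.Agent.K6.H46.HW

theorem t_cnt : S_CNT := t_CNT t_ZER t_LIN

theorem t_rz : S_RZ := t_RZ t_BND

theorem t_div : S_DIV := t_DIV t_BND t_ADD

theorem pieces : Pieces where
  zer := t_ZER
  cnt := t_cnt
  bnd := t_BND
  rz := t_rz
  add := t_ADD
  shi := t_SHI
  cbd := t_CBD
  con := t_CON
  prz := t_PRZ t_PAD
  sch := t_SCH t_PRO t_CLS
  spc := t_SPC
  hdg := t_HDG
  hom := t_HOM
  inf := t_INF
  sup := t_SUP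
  div := t_div
  qm1 := t_QM1 t_BND t_ADD t_SHI t_rz t_div t_CON
  ana := t_ANA t_BND
  stp := t_STP

end Pool.Agent.K6.H46.HW
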