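import Pool.Agent.K6.H46.HW.Main
import Pool.Agent.K6.H46.HW.LSM
import Pool.Agent.K6.H46.HW.LPR
import Pool.Agent.K6.H46.HW.LFP
import Pool.Agent.K6.H46.HW.LPO
import Pool.Agent.K6.H46.HW.AsmE

/-! The pieces together. -/

set_option autoImplicit false

namespace Pool.Agent.K6.H46.HW

theorem t_lsm : S_LSM := t_LSM t_BND

theorem t_lpr : S_LPR := t_LPR t_lsm

theorem pieces4 : Pieces4 where
  lsm := t_lsm
  lpr := t_lpr
  lfp := t_LFP
  lpo := t_LPO t_BND t_ADD t_rz t_lpr t_CON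

end Pool.Agent.K6.H46.HW
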