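import Pool.Agent.K6.H46.HW.Defs

/-!
The pieces (call46b). Each piece `XXX` is a theorem `t_XXX : S_XXX` in its own file
`Pool/Agent/K6/H46/HW/XXX.lean`, in the namespace `Pool.Agent.K6.H46.HW`.
-/

set_option autoImplicit false

open MvPolynomial AlgebraicGeometry CategoryTheory

namespace Pool.Agent.K6.H46.HW

open Pool.Agent.K6.H18.Cubic Pool.Agent.K6.H18.Cubic.Alg

/-- ZER: homomorphisms from `ℤ[x] / (E)` to a field are the zeros of `E`. -/
def S_ZER : Prop :=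
  ∀ (σ : Type) (E : Set (MvPolynomial σ ℤ)) (F : Type) [Field F],
    Nonempty ((MvPolynomial σ ℤ ⧸ Ideal.span E →+* F) ≃
      {v : σ → F // ∀ f ∈ E, aeval v f = 0})

/-- LIN: the solutions `(u, w)` of `∑ u_j c_j = w (1 - w)` over a finite field. -/
def S_LIN : Prop :=
  ∀ (F : Type) [Field F] [Finite F] (r : ℕ) (c : Fin r → F),
    (c ≠ 0 → Nat.card {v : Option (Fin r) → F //
      ∑ j, v (some j) * c j = v none * (1 - v none)} = Nat.card F ^ r) ∧
    (c = 0 → Nat.card {v : Option (Fin r) → F //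
      ∑ j, v (some j) * c j = v none * (1 - v none)} = 2 * Nat.card F ^ r)

/-- CNT: the number of points of the hypersurface. -/
def S_CNT : Prop :=
  ∀ (m r : ℕ) (e : Fin r → MvPolynomial (Fin m) ℤ) (F : Type) [Field F] [Finite F],
    points (Hyp e) F = Nat.card F ^ (m + r) +
      Nat.card F ^ r * points (MvPolynomial (Fin m) ℤ ⧸ Ideal.span (Set.range e)) F

/-- PAD: one more variable `x_m` and one more equation `x_m - 1`. -/
def S_PAD : Prop :=
  ∀ (k : Type) [CommRing k] (S : Set k) (m r : ℕ) (e : Fin r → MvPolynomial (Fin m) k),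
    (∀ j, e j ∈ Elem S (Fin m)) → ∀ (B : Type) [CommRing B] [Algebra k B]
    (π : MvPolynomial (Fin m) k →ₐ[k] B), Function.Surjective π →
    RingHom.ker π = Ideal.span (Set.range e) →
    ∃ (e' : Fin (r + 1) → MvPolynomial (Fin (m + 1)) k) (π' : MvPolynomial (Fin (m + 1)) k →ₐ[k] B),
      (∀ j, e' j ∈ Elem S (Fin (m + 1))) ∧ Function.Surjective π' ∧
        RingHom.ker π' = Ideal.span (Set.range e')

/-- PRZ: elementary presentations of finitely generated rings, with at least one equation. -/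
def S_PRZ : Prop :=
  ∀ (A : Type) [CommRing A], Algebra.FiniteType ℤ A →
    ∃ (m r : ℕ) (e : Fin r → MvPolynomial (Fin m) ℤ), 0 < r ∧
      (∀ j, e j ∈ Elem (∅ : Set ℤ) (Fin m)) ∧
      Nonempty ((MvPolynomial (Fin m) ℤ ⧸ Ideal.span (Set.range e)) ≃+* A)

/-- PRQ: elementary presentations of finitely generated `ℚ`-algebras, with many variables. -/
def S_PRQ : Prop :=
  ∀ (B : Type) [CommRing B] [Algebra ℚ B], Algebra.FiniteType ℚ B → ∀ M : ℕ,
    ∃ (m r : ℕ) (e : Fin r → MvPolynomial (Fin m) ℚ) (π : MvPolynomial (Fin m) ℚ →ₐ[ℚ] B),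
      M ≤ m ∧ 0 < r ∧ (∀ j, e j ∈ Elem (∅ : Set ℚ) (Fin m)) ∧ Function.Surjective π ∧
        RingHom.ker π = Ideal.span (Set.range e)

/-- the terms of the series -/
noncomputable def term (c : Nat.Primes → ℕ → ℕ) (s : ℂ) (x : Nat.Primes × ℕ) : ℂ :=
  (c x.1 (x.2 + 1) : ℂ) * ((x.1 : ℕ) : ℂ) ^ (-(((x.2 + 1 : ℕ) : ℂ) * s)) / ((x.2 + 1 : ℕ) : ℂ)

/-- BND: convergence -/
def S_BND : Prop :=
  ∀ (c : Nat.Primes → ℕ → ℕ) (m : ℕ), (∀ (p : Nat.Primes) (n : ℕ), 1 ≤ n → c p n ≤ (p : ℕ) ^ (n * m)) →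
    ∀ s : ℂ, (m : ℝ) + 1 < s.re → Summable (term c s)

/-- RZ: the zeta function of affine space -/
def S_RZ : Prop :=
  ∀ (d : ℕ) (s : ℂ), (d : ℝ) + 1 < s.re →
    zetaOf (fun p n => (p : ℕ) ^ (n * d)) s = riemannZeta (s - d)

/-- ADD: sums of counting functions -/
def S_ADD : Prop :=
  ∀ (c c' : Nat.Primes → ℕ → ℕ) (s : ℂ), Summable (term c s) → Summable (term c' s) →
    zetaOf (fun p n => c p n + c' p n) s = zetaOf c s * zetaOf c' s

/-- SHI: products with affine space -/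
def S_SHI : Prop :=
  ∀ (c : Nat.Primes → ℕ → ℕ) (r : ℕ) (s : ℂ),
    zetaOf (fun p n => ((p : ℕ) ^ (n * r)) * c p n) s = zetaOf c (s - r)

/-- CBD: the number of points of a closed subscheme of affine space -/
def S_CBD : Prop :=
  ∀ (m : ℕ) (J : Ideal (MvPolynomial (Fin m) ℤ)) (p : Nat.Primes) (n : ℕ), 1 ≤ n →
    count (MvPolynomial (Fin m) ℤ ⧸ J) p n ≤ (p : ℕ) ^ (n * m)

/-- CON: continuation of `f` and of `ζ(s - c) f(s - r)` -/
def S_CON : Prop :=
  ∀ (f g : ℂ → ℂ) (c r : ℕ) (σ : ℝ), (∀ s : ℂ, σ < s.re → g s = riemannZeta (s - c) * f (s - r)) →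
    (Continues f ↔ Continues g)

/-- AFF: if the groups of `Spec ℚ` vanish then so do those of affine space. -/
def S_AFF : Prop :=
  ∀ (T : BM ℚ) (m : ℕ) (a b : ℤ), Subsingleton (T.H (base ℚ) a (b - m)) →
    Subsingleton (T.H ((base ℚ).poly m) a b)

/-- ISO: the Borel-Moore homology of the hypersurface, if that of affine space vanishes. -/
def S_ISO : Prop :=
  ∀ (T : BM ℚ) (m r : ℕ) (e : Fin r → MvPolynomial (Fin m) ℚ) (B : Type) [CommRing B] [Algebra ℚ B],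
    Algebra.FiniteType ℚ B → ∀ (π : MvPolynomial (Fin m) ℚ →ₐ[ℚ] B), Function.Surjective π →
    RingHom.ker π = Ideal.span (Set.range e) → ∀ a b : ℤ,
    Subsingleton (T.H ((base ℚ).poly m) a b) →
    ∃ Φ : T.H (Alg.mk B) a b ≃+ T.H (Hypersurface e) a (b + r),
      ∀ (h : T.Hom T) (x : T.H (Alg.mk B) a b), h.mapf (Φ x) = Φ (h.mapf x)

/-- FAC: the inverse Euler factor depends only on the group and the endomorphisms. -/
def S_FAC : Prop :=
  ∀ (K : Type) [Field K] (G : Type) [Group G] (D : GalBM K G) (B B' : Alg ℚ) (a b a' b' : ℤ)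
    (Φ : D.T.H B a b ≃+ D.T.H B' a' b'),
    (∀ (h : D.T.Hom D.T) (x : D.T.H B a b), h.mapf (Φ x) = Φ (h.mapf x)) →
    ∀ (I : Subgroup G) (φ : G) (hφ : ∀ g ∈ I, φ⁻¹ * g * φ ∈ I),
      D.factor I φ hφ B a b = D.factor I φ hφ B' a' b'

end Pool.Agent.K6.H46.HW
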