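import Pool.Agent.K6.H46.HW.Defs

/-!
Schemes of finite type over `ℤ` have the points of a finitely generated ring.
-/

set_option autoImplicit false

open AlgebraicGeometry CategoryTheory

namespace Pool.Agent.K6.H46.HW

/-- `X` is of finite type over `ℤ` -/
def IsArithmeticScheme (X : Scheme.{0}) : Prop :=
  ∃ f : X ⟶ Spec (CommRingCat.of ℤ), LocallyOfFiniteType f ∧ QuasiCompact f

/-- The `F`-valued points of the scheme `X`. -/
abbrev Pt (X : Scheme.{0}) (F : Type) [Field F] : Type := Spec (CommRingCat.of F) ⟶ X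

/-- PRO: homomorphisms from a product to a field. -/
def S_PRO : Prop :=
  ∀ (A A' : Type) [CommRing A] [CommRing A'], Algebra.FiniteType ℤ A → Algebra.FiniteType ℤ A' →
    Algebra.FiniteType ℤ (A × A') ∧
      ∀ (F : Type) [Field F], Nonempty (((A →+* F) ⊕ (A' →+* F)) ≃ (A × A' →+* F))

/-- CLS: the points of the locally closed subset `U \ V`, `U` affine. -/
def S_CLS : Prop :=
  ∀ (X : Scheme.{0}), (∃ f : X ⟶ Spec (CommRingCat.of ℤ), LocallyOfFiniteType f) →
    ∀ U V : X.Opens, IsAffineOpen U → ∃ (A : Type) (_ : CommRing A), Algebra.FiniteType ℤ A ∧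
      ∀ (F : Type) [Field F],
        Nonempty ({f : Pt X F // Set.range f ⊆ (U : Set X) \ (V : Set X)} ≃ (A →+* F))

/-- SCH: a scheme of finite type over `ℤ` has the points of a finitely generated ring. -/
def S_SCH : Prop :=
  ∀ (X : Scheme.{0}), IsArithmeticScheme X → ∃ (A : Type) (_ : CommRing A),
    Algebra.FiniteType ℤ A ∧ ∀ (F : Type) [Field F], Nonempty (Pt X F ≃ (A →+* F))

/-- SPC: the points of an affine scheme, and finite type. -/
def S_SPC : Prop :=
  ∀ (A : Type) [CommRing A], Algebra.FiniteType ℤ A →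
    IsArithmeticScheme (Spec (CommRingCat.of A)) ∧
      ∀ (F : Type) [Field F], Nonempty (Pt (Spec (CommRingCat.of A)) F ≃ (A →+* F))

end Pool.Agent.K6.H46.HW
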